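import Pool.Agent.HCL.Defs

/-!
# HCL, module CLB: the closed unbounded set (helper42)
-/

set_option autoImplicit false

namespace HCL

open Set Topology Cardinal Filter

theorem CLB_card {A B : Type} [Finite A] {κ : Cardinal.{0}} (hκ : ℵ₀ ≤ κ) (hB : #B < κ) : #(A → B) < κ := by
  classical
  rcases finite_or_infinite B with h | h
  · exact (Cardinal.lt_aleph0_of_finite (A → B)).trans_le hκ
  · have := Fintype.ofFinite A
    have h1 : #(A → B) = #B ^ (Fintype.card A) := by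
      rw [← Cardinal.power_natCast, ← Cardinal.mk_fintype, Cardinal.power_def]
    rw [h1]
    exact (Cardinal.power_nat_le (Cardinal.aleph0_le_mk B)).trans_lt hB

theorem CLB_Iic {Ω : Type} [LinearOrder Ω] [TopologicalSpace Ω] [OrderTopology Ω] [WellFoundedLT Ω] (b : Ω) :
    IsOpen (Iic b) := by
  by_cases h : ∃ c, b < c
  · obtain ⟨c, hc, hm⟩ := WellFounded.has_min (wellFounded_lt (α := Ω)) (Ioi b) h
    have h1 : Iic b = Iio c := by
      ext x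
      constructor
      · intro hx
        exact lt_of_le_of_lt hx hc
      · intro hx
        by_contra h2
        exact hm x (not_le.1 h2) hx
    rw [h1]
    exact isOpen_Iio
  · have h1 : Iic b = (Set.univ : Set Ω) := by
      ext x
      constructor
      · intro _
        trivial
      · intro _
        by_contra h2
        exact h ⟨x, not_le.1 h2⟩
    rw [h1]
    exact isOpen_univ

theorem CLB_nobot {Ω : Type} [LinearOrder Ω] [TopologicalSpace Ω] [OrderTopology Ω] (b g : Ω) (hg : g < b)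
    (h : ∀ d, g ≤ d → d < b → ∃ z, d < z ∧ z < b) : (𝓝[<] b).NeBot := by
  rw [← mem_closure_iff_nhdsWithin_neBot]
  by_contra hcon
  have h1 : (closure (Iio b))ᶜ ∈ 𝓝 b := isClosed_closure.isOpen_compl.mem_nhds hcon
  obtain ⟨l, hl, hs⟩ := exists_Ioc_subset_of_mem_nhds h1 ⟨g, hg⟩
  obtain ⟨z, hz1, hz2⟩ := h (max l g) (le_max_right _ _) (max_lt hl hg)
  exact hs ⟨lt_of_le_of_lt (le_max_left _ _) hz1, hz2.le⟩ (subset_closure hz2)

variable {Ω H A : Type} [LinearOrder Ω] [OrderTop Ω]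

/-- the extensions of `y` off `J` -/
def CLB_T (K : Set ((A → Ω) × H)) (J : Set A) (y : A → Ω) (h : H) : Set (A → Ω) :=
  {z | (∀ i, i ∉ J → z i = y i) ∧ (∀ i, z i < ⊤) ∧ (z, h) ∈ K}

/-- `b` bounds everything needed for `γ` -/
def CLB_V (K : Set ((A → Ω) × H)) (γ b : Ω) : Prop :=
  γ < b ∧ ∀ (J : Set A) (y : A → Ω) (h : H), (∀ i, y i ≤ γ) →
    (∃ δ < b, ∀ z ∈ CLB_T K J y h, ∃ i ∈ J, z i ≤ δ) ∨
      ((∀ δ < ⊤, ∃ z ∈ CLB_T K J y h, ∀ i ∈ J, δ < z i) ∧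
        ∀ δ ≤ γ, ∃ z ∈ CLB_T K J y h, ∀ i ∈ J, δ < z i ∧ z i < b)

theorem CLB_V_mono {K : Set ((A → Ω) × H)} {γ γ' b b' : Ω} (hγ : γ' ≤ γ) (hb : b ≤ b') (h : CLB_V K γ b) :
    CLB_V K γ' b' := by
  refine ⟨(hγ.trans_lt h.1).trans_le hb, ?_⟩
  intro J y k hy
  rcases h.2 J y k (fun i => (hy i).trans hγ) with ⟨δ, h1, h2⟩ | ⟨h1, h2⟩
  · exact Or.inl ⟨δ, h1.trans_le hb, h2⟩
  · refine Or.inr ⟨h1, fun δ hδ => ?_⟩
    obtain ⟨z, hz, h3⟩ := h2 δ (hδ.trans hγ)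
    exact ⟨z, hz, fun i hi => ⟨(h3 i hi).1, (h3 i hi).2.trans_le hb⟩⟩

theorem CLB_next (h1 : ∀ b : Ω, b < ⊤ → #(Iic b) < #Ω) (h3 : ℵ₀ < #Ω) (b : Ω) (hb : b < ⊤) :
    ∃ c, b < c ∧ c < ⊤ := by
  by_contra hcon
  push Not at hcon
  have h : (univ : Set Ω) ⊆ Iic b ∪ {⊤} := by
    intro x _
    rcases le_or_gt x b with h | h
    · exact Or.inl h
    · exact Or.inr (top_le_iff.1 (hcon x h))
  have h4 : #Ω ≤ #(Iic b) + #({⊤} : Set Ω) := by
    rw [← Cardinal.mk_univ]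
    exact (Cardinal.mk_le_mk_of_subset h).trans (Cardinal.mk_union_le _ _)
  have h5 : #(Iic b) + #({⊤} : Set Ω) < #Ω := by
    refine Cardinal.add_lt_of_lt h3.le (h1 b hb) ?_
    rw [Cardinal.mk_singleton]
    exact Cardinal.one_lt_aleph0.trans h3
  exact absurd h4 (not_le.2 h5)

theorem CLB_ex [Finite A] (h1 : ∀ b : Ω, b < ⊤ → #(Iic b) < #Ω)
    (h2 : ∀ S : Set Ω, (∀ s ∈ S, s < ⊤) → #S < #Ω → ∃ b < ⊤, ∀ s ∈ S, s ≤ b) (h3 : ℵ₀ < #Ω) (hH : #H < #Ω)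
    (K : Set ((A → Ω) × H)) (γ : Ω) (hγ : γ < ⊤) : ∃ b < ⊤, CLB_V K γ b := by
  classical
  let Bd : Set A → (A → Ω) → H → Prop := fun J y h => ∃ δ < ⊤, ∀ z ∈ CLB_T K J y h, ∃ i ∈ J, z i ≤ δ
  have hd : ∀ (J : Set A) (y : A → Ω) (h : H), ∃ δ < ⊤, Bd J y h → ∀ z ∈ CLB_T K J y h, ∃ i ∈ J, z i ≤ δ := by
    intro J y h
    by_cases hb : Bd J y h
    · obtain ⟨δ, h4, h5⟩ := hb
      exact ⟨δ, h4, fun _ => h5⟩
    · exact ⟨γ, hγ, fun h4 => absurd h4 hb⟩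
  choose dl hdl1 hdl2 using hd
  have hz : ∀ (J : Set A) (y : A → Ω) (h : H) (δ : Ω), ∃ z : A → Ω, (∀ i, z i < ⊤) ∧
      (¬ Bd J y h → δ < ⊤ → z ∈ CLB_T K J y h ∧ ∀ i ∈ J, δ < z i) := by
    intro J y h δ
    by_cases hb : ¬ Bd J y h ∧ δ < ⊤
    · obtain ⟨h4, h5⟩ := hb
      have h6 : ∃ z ∈ CLB_T K J y h, ∀ i ∈ J, δ < z i := by
        by_contra hcon
        push Not at hcon
        exact h4 ⟨δ, h5, hcon⟩
      obtain ⟨z, hz, h7⟩ := h6
      exact ⟨z, hz.2.1, fun _ _ => ⟨hz, h7⟩⟩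
    · exact ⟨fun _ => γ, fun _ => hγ, fun h4 h5 => absurd ⟨h4, h5⟩ hb⟩
  choose zz hzz1 hzz2 using hz
  let Q : Type := ((Set A × (A → Iic γ)) × H) × (Iic γ × Option A)
  let f : Q → Ω := fun q => match q.2.2 with
    | none => dl q.1.1.1 (fun i => (q.1.1.2 i).1) q.1.2
    | some i => zz q.1.1.1 (fun i => (q.1.1.2 i).1) q.1.2 q.2.1.1 i
  have hf : ∀ q, f q < ⊤ := by
    rintro ⟨⟨⟨J, y⟩, h⟩, δ, o⟩
    cases o with
    | none => exact hdl1 _ _ _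
    | some i => exact hzz1 _ _ _ _ _
  have hQ : #Q < #Ω := by
    have e1 : #(Iic γ) < #Ω := h1 γ hγ
    have e2 : #(A → Iic γ) < #Ω := CLB_card h3.le e1
    have e3 : #(Set A) < #Ω := (Cardinal.lt_aleph0_of_finite (Set A)).trans h3
    have e4 : #(Option A) < #Ω := (Cardinal.lt_aleph0_of_finite (Option A)).trans h3
    have m : ∀ {S T : Type}, #S < #Ω → #T < #Ω → #(S × T) < #Ω := by
      intro S T hS hT
      rw [Cardinal.mk_prod, Cardinal.lift_id, Cardinal.lift_id]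
      exact Cardinal.mul_lt_of_lt h3.le hS hT
    exact m (m (m e3 e2) hH) (m e1 e4)
  obtain ⟨b0, hb0, hb1⟩ := h2 (range f) (by rintro _ ⟨q, rfl⟩; exact hf q) (Cardinal.mk_range_le.trans_lt hQ)
  obtain ⟨b, hb, hbt⟩ := CLB_next h1 h3 (max b0 γ) (max_lt hb0 hγ)
  refine ⟨b, hbt, lt_of_le_of_lt (le_max_right _ _) hb, ?_⟩
  intro J y h hy
  have hfb : ∀ q, f q < b := fun q =>
    lt_of_le_of_lt ((hb1 _ (mem_range_self q)).trans (le_max_left _ _)) hb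
  by_cases hBd : Bd J y h
  · left
    exact ⟨dl J y h, hfb ⟨⟨⟨J, fun i => ⟨y i, hy i⟩⟩, h⟩, ⟨γ, le_rfl⟩, none⟩, hdl2 J y h hBd⟩
  · right
    refine ⟨fun δ hδ => ⟨zz J y h δ, (hzz2 J y h δ hBd hδ).1, (hzz2 J y h δ hBd hδ).2⟩, fun δ hδ => ?_⟩
    have h6 := hzz2 J y h δ hBd (hδ.trans_lt hγ)
    exact ⟨zz J y h δ, h6.1, fun i hi =>
      ⟨h6.2 i hi, hfb ⟨⟨⟨J, fun i => ⟨y i, hy i⟩⟩, h⟩, ⟨δ, hδ⟩, some i⟩⟩⟩

theorem CLB_main [Finite A] [TopologicalSpace Ω] [OrderTopology Ω] [WellFoundedLT Ω] [TopologicalSpace H]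
    (h1 : ∀ b : Ω, b < ⊤ → #(Iic b) < #Ω)
    (h2 : ∀ S : Set Ω, (∀ s ∈ S, s < ⊤) → #S < #Ω → ∃ b < ⊤, ∀ s ∈ S, s ≤ b) (h3 : ℵ₀ < #Ω) (hH : #H < #Ω)
    (K : Set ((A → Ω) × H)) (hK : IsClosed K) :
    ∃ C : Set Ω, IsClosed C ∧ ⊤ ∈ C ∧ (∀ g < ⊤, ∃ b ∈ C, g < b ∧ b < ⊤) ∧
      (∀ b ∈ C, b < ⊤ → ∀ x ∈ K, (∀ i, x.1 i < ⊤) → ((fun i => min (x.1 i) b, x.2) : (A → Ω) × H) ∈ K) ∧
      (∀ b ∈ C, b < ⊤ → ∀ x ∈ K, (∀ i, x.1 i < ⊤) → (∀ i, x.1 i ≤ b) → ∀ x' : A → Ω,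
        (∀ i, x.1 i = b → x' i = ⊤) → (∀ i, x.1 i ≠ b → x' i = x.1 i) →
        ((x', x.2) : (A → Ω) × H) ∈ closure {z | z ∈ K ∧ ∀ i, z.1 i < ⊤}) := by
  classical
  have hne : ∃ a : Ω, a < ⊤ := by
    by_contra hcon
    push Not at hcon
    have h4 : Subsingleton Ω := ⟨fun a b => (top_le_iff.1 (hcon a)).trans (top_le_iff.1 (hcon b)).symm⟩
    exact absurd (Cardinal.le_one_iff_subsingleton.2 h4) (not_le.2 (Cardinal.one_lt_aleph0.trans h3))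
  have hex := CLB_ex h1 h2 h3 hH K
  let C : Set Ω := {b | (∃ a, a < b) ∧ ∀ γ < b, CLB_V K γ b}
  -- the main property
  have main : ∀ b ∈ C, ∀ x ∈ K, (∀ i, x.1 i < ⊤) → ∃ (y : A → Ω) (g : Ω), g < b ∧ (∀ i, y i ≤ g) ∧
      (∀ i, x.1 i < b → y i = x.1 i) ∧ (∀ δ < ⊤, ∃ z ∈ CLB_T K {i | b ≤ x.1 i} y x.2, ∀ i, b ≤ x.1 i → δ < z i) ∧
      ∀ δ, g ≤ δ → δ < b → ∃ z ∈ CLB_T K {i | b ≤ x.1 i} y x.2, ∀ i, b ≤ x.1 i → δ < z i ∧ z i < b := by
    intro b hb x hx hxt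
    obtain ⟨a, ha⟩ := hb.1
    let y : A → Ω := fun i => if b ≤ x.1 i then a else x.1 i
    have hyb : ∀ i, y i < b := by
      intro i
      by_cases h : b ≤ x.1 i
      · simp only [y, if_pos h]
        exact ha
      · simp only [y, if_neg h]
        exact not_le.1 h
    have hg : ∃ g < b, ∀ i, y i ≤ g := by
      have := Fintype.ofFinite A
      let s : Finset Ω := insert a (Finset.univ.image y)
      have hs : s.Nonempty := ⟨a, Finset.mem_insert_self _ _⟩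
      refine ⟨s.max' hs, ?_, fun i => s.le_max' _ ?_⟩
      · rw [Finset.max'_lt_iff]
        intro z hz
        rcases Finset.mem_insert.1 hz with h | h
        · rw [h]
          exact ha
        · obtain ⟨i, -, rfl⟩ := Finset.mem_image.1 h
          exact hyb i
      · exact Finset.mem_insert_of_mem (Finset.mem_image_of_mem y (Finset.mem_univ i))
    obtain ⟨g, hgb, hg⟩ := hg
    have hyx : ∀ i, x.1 i < b → y i = x.1 i := by
      intro i hi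
      simp only [y, if_neg (not_le.2 hi)]
    have hxT : x.1 ∈ CLB_T K {i | b ≤ x.1 i} y x.2 := by
      refine ⟨fun i hi => (hyx i (not_le.1 hi)).symm, hxt, hx⟩
    have hV : ∀ δ, g ≤ δ → δ < b → (∀ δ < ⊤, ∃ z ∈ CLB_T K {i | b ≤ x.1 i} y x.2, ∀ i, b ≤ x.1 i → δ < z i) ∧
        ∃ z ∈ CLB_T K {i | b ≤ x.1 i} y x.2, ∀ i, b ≤ x.1 i → δ < z i ∧ z i < b := by
      intro δ hgδ hδ
      rcases (hb.2 δ hδ).2 {i | b ≤ x.1 i} y x.2 (fun i => (hg i).trans hgδ) with ⟨δ', h4, h5⟩ | ⟨h4, h5⟩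
      · obtain ⟨i, hi, h6⟩ := h5 x.1 hxT
        exact absurd (h6.trans_lt h4) (not_lt.2 hi)
      · exact ⟨h4, h5 δ le_rfl⟩
    exact ⟨y, g, hgb, hg, hyx, (hV g le_rfl hgb).1, fun δ h4 h5 => (hV δ h4 h5).2⟩
  refine ⟨C, ?_, ?_, ?_, ?_, ?_⟩
  · rw [← isOpen_compl_iff, isOpen_iff_mem_nhds]
    intro b hb
    by_cases h : ∃ a, a < b
    · have h4 : ∃ γ < b, ¬ CLB_V K γ b := by
        by_contra hcon
        push Not at hcon
        exact hb ⟨h, hcon⟩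
      obtain ⟨γ, hγ, hnV⟩ := h4
      filter_upwards [Ioi_mem_nhds hγ, (CLB_Iic b).mem_nhds (mem_Iic.2 le_rfl)]
      intro c hc1 hc2 hcC
      exact hnV (CLB_V_mono le_rfl hc2 (hcC.2 γ hc1))
    · filter_upwards [(CLB_Iic b).mem_nhds (mem_Iic.2 le_rfl)]
      intro c hc hcC
      obtain ⟨a, ha⟩ := hcC.1
      exact h ⟨a, lt_of_lt_of_le ha hc⟩
  · refine ⟨hne, fun γ hγ => ?_⟩
    obtain ⟨b, hb, hV⟩ := hex γ hγ
    exact CLB_V_mono le_rfl le_top hV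
  · intro g hg
    choose nx hnx1 hnx2 using hex
    let s : ℕ → {a : Ω // a < ⊤} := fun n => Nat.rec ⟨g, hg⟩ (fun _ a => ⟨nx a.1 a.2, hnx1 a.1 a.2⟩) n
    have hs : ∀ n, CLB_V K (s n).1 (s (n + 1)).1 := fun n => hnx2 (s n).1 (s n).2
    obtain ⟨b1, hb1, hb2⟩ := h2 (range fun n => (s n).1) (by rintro _ ⟨n, rfl⟩; exact (s n).2)
      (by
        refine lt_of_le_of_lt ?_ h3
        exact Cardinal.mk_le_aleph0_iff.2 (countable_range _).to_subtype)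
    obtain ⟨b2, h4, h5⟩ := CLB_next h1 h3 b1 hb1
    obtain ⟨β, hβ, hmin⟩ := WellFounded.has_min (wellFounded_lt (α := Ω)) {b | ∀ n, (s n).1 < b}
      ⟨b2, fun n => lt_of_le_of_lt (hb2 _ ⟨n, rfl⟩) h4⟩
    have hβt : β < ⊤ := by
      have h6 : ¬ b2 < β := hmin b2 (fun n => lt_of_le_of_lt (hb2 _ ⟨n, rfl⟩) h4)
      exact lt_of_le_of_lt (not_lt.1 h6) h5
    refine ⟨β, ⟨⟨g, hβ 0⟩, ?_⟩, hβ 0, hβt⟩
    intro γ hγ
    have h6 : ¬ ∀ n, (s n).1 < γ := fun h => hmin γ h hγ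
    push Not at h6
    obtain ⟨n, hn⟩ := h6
    exact CLB_V_mono hn (hβ (n + 1)).le (hs n)
  · intro b hb hbt x hx hxt
    obtain ⟨y, g, hgb, hyg, hyx, -, h4⟩ := main b hb x hx hxt
    by_cases hJ : ∃ i, b ≤ x.1 i
    · obtain ⟨i0, hi0⟩ := hJ
      choose! z hz1 hz2 using h4
      have hN : (𝓝[<] b).NeBot := CLB_nobot b g hgb
        (fun d h5 h6 => ⟨z d i0, (hz2 d h5 h6 i0 hi0).1, (hz2 d h5 h6 i0 hi0).2⟩)
      have hev : ∀ᶠ d in 𝓝[<] b, g ≤ d ∧ d < b := by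
        filter_upwards [mem_nhdsWithin_of_mem_nhds (Ioi_mem_nhds hgb), self_mem_nhdsWithin] with d h5 h6
        exact ⟨le_of_lt h5, h6⟩
      have ht : Tendsto (fun d => ((z d, x.2) : (A → Ω) × H)) (𝓝[<] b)
          (𝓝 (fun i => min (x.1 i) b, x.2)) := by
        refine Tendsto.prodMk_nhds ?_ tendsto_const_nhds
        rw [tendsto_pi_nhds]
        intro i
        by_cases hi : b ≤ x.1 i
        · rw [min_eq_right hi]
          refine tendsto_of_tendsto_of_tendsto_of_le_of_le' (tendsto_id.mono_left nhdsWithin_le_nhds)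
            tendsto_const_nhds ?_ ?_
          · filter_upwards [hev] with d hd
            exact (hz2 d hd.1 hd.2 i hi).1.le
          · filter_upwards [hev] with d hd
            exact (hz2 d hd.1 hd.2 i hi).2.le
        · rw [min_eq_left (not_le.1 hi).le]
          refine tendsto_const_nhds.congr' ?_
          filter_upwards [hev] with d hd
          rw [(hz1 d hd.1 hd.2).1 i hi, hyx i (not_le.1 hi)]
      refine hK.mem_of_tendsto ht ?_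
      filter_upwards [hev] with d hd
      exact (hz1 d hd.1 hd.2).2.2
    · push Not at hJ
      have h5 : ((fun i => min (x.1 i) b, x.2) : (A → Ω) × H) = x := by
        refine Prod.ext ?_ rfl
        funext i
        exact min_eq_left (hJ i).le
      rw [h5]
      exact hx
  · intro b hb hbt x hx hxt hxb x' hx1 hx2
    obtain ⟨y, g, hgb, hyg, hyx, h4, -⟩ := main b hb x hx hxt
    choose! z hz1 hz2 using h4
    obtain ⟨a0, ha0⟩ := hne
    have hN : (𝓝[<] (⊤ : Ω)).NeBot := CLB_nobot ⊤ a0 ha0 (fun d _ h6 => CLB_next h1 h3 d h6)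
    have hev : ∀ᶠ d in 𝓝[<] (⊤ : Ω), d < ⊤ := self_mem_nhdsWithin
    have ht : Tendsto (fun d => ((z d, x.2) : (A → Ω) × H)) (𝓝[<] (⊤ : Ω)) (𝓝 (x', x.2)) := by
      refine Tendsto.prodMk_nhds ?_ tendsto_const_nhds
      rw [tendsto_pi_nhds]
      intro i
      by_cases hi : x.1 i = b
      · rw [hx1 i hi]
        refine tendsto_of_tendsto_of_tendsto_of_le_of_le' (tendsto_id.mono_left nhdsWithin_le_nhds)
          tendsto_const_nhds ?_ (Eventually.of_forall fun d => le_top)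
        filter_upwards [hev] with d hd
        exact (hz2 d hd i hi.ge).le
      · rw [hx2 i hi]
        have hi' : x.1 i < b := lt_of_le_of_ne (hxb i) hi
        refine tendsto_const_nhds.congr' ?_
        filter_upwards [hev] with d hd
        rw [(hz1 d hd).1 i (not_le.2 hi'), hyx i hi']
    refine mem_closure_of_tendsto ht ?_
    filter_upwards [hev] with d hd
    exact ⟨(hz1 d hd).2.2, (hz1 d hd).2.1⟩

end HCL
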