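import Pool.Agent.HCL.PSN

/-!
# HCL, module SGN: gluing of `Smooth`, `Close`, `GoodK` along sums of locally closed pieces (helper42)
-/

set_option autoImplicit false

namespace HCL

open Set Topology Filter SDN

theorem SGN_main (K : Type) [TopologicalSpace K] [CompactSpace K] [T2Space K] (F : Set K) [hFc : CompactSpace F]
    (I : ℕ → Type) (E : ∀ n, I n → Set K) (hS : SigSum F I E)
    (h1 : ∀ n (i : I n), ∀ G ⊆ closure (E n i), IsClosed G → GdS G) :
    (Smooth F → Smooth K) ∧ (Close F → Close K) ∧ (GoodK F → GoodK K) := by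
  obtain ⟨Γ, P, y0, hP0, hP1, hP2⟩ := SIG_pieces F I E hS
  have hcl : ∀ y, y ≠ y0 → ∀ h : CompactSpace (closure (P y)), @Close (closure (P y)) _ h := by
    intro y hy h
    obtain ⟨n, i, h2⟩ := hP2 y hy
    exact thm_PD.2.2.2 _ (h1 n i _ (closure_mono h2) isClosed_closure h)
  obtain ⟨m1, m2⟩ := PSN_main P hP1 y0 hcl
  have h3 : closure (P y0) = F := by rw [hP0, hS.closed.closure_eq]
  rw [h3] at m1 m2
  exact ⟨fun h => m1 fun _ => h, fun h => m2 fun _ => h, fun h => SIG_good K F I E hS (fun _ => h) h1⟩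

end HCL
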