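import Pool.Agent.HCL.CLS
import Pool.Agent.HCL.SGN

/-!
# HCL, module CLF: the class with sums of locally closed pieces (helper42)
-/

set_option autoImplicit false

namespace HCL

open Set Topology SDN

/-- the class -/
inductive Cl1 : (K : Type) → TopologicalSpace K → Prop
  | pow (ι : Type) (hι : Finite ι) (F : ι → LOS) : Cl1 (∀ i, (F i).T) inferInstance
  | sub (K : Type) (t : TopologicalSpace K) (G : Set K) : Cl1 K t → IsClosed G → Cl1 G inferInstance
  | img (K K' : Type) (t : TopologicalSpace K) (t' : TopologicalSpace K') (φ : K → K') : T2Space K' →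
      Continuous φ → Function.Surjective φ → Cl1 K t → Cl1 K' t'
  | sig (K : Type) (t : TopologicalSpace K) (F : Set K) (I : ℕ → Type) (E : ∀ n, I n → Set K) :
      CompactSpace K → T2Space K → SigSum F I E → Cl1 F inferInstance →
      (∀ n i, Cl1 (closure (E n i)) inferInstance) → Cl1 K t

theorem CLF_ct (K : Type) (t : TopologicalSpace K) (h : Cl1 K t) : CompactSpace K ∧ T2Space K := by
  induction h with
  | pow ι hι F => exact ⟨inferInstance, inferInstance⟩
  | sub K t G _ hG ih =>
    have h1 := ih.1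
    have h2 := ih.2
    exact ⟨isCompact_iff_compactSpace.1 hG.isCompact, inferInstance⟩
  | img K K' t t' φ hT hφ hs _ ih =>
    have h1 := ih.1
    refine ⟨⟨?_⟩, hT⟩
    rw [← hs.range_eq]
    exact isCompact_range hφ
  | sig K t F I E h1 h2 _ _ _ _ _ => exact ⟨h1, h2⟩

theorem CLF_tr {K : Type} [TopologicalSpace K] [CompactSpace K] [T2Space K] (G A : Set K) (hG : IsClosed G)
    (hA : IsClosed A) (h : ∀ B : Set A, IsClosed B → GdS B) (S : Set G) (hS : IsClosed S)
    (hSA : ∀ x ∈ S, x.1 ∈ A) : GdS S := by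
  have hGc : CompactSpace G := isCompact_iff_compactSpace.1 hG.isCompact
  have hAc : CompactSpace A := isCompact_iff_compactSpace.1 hA.isCompact
  have h1 : IsClosed ((Subtype.val : G → K) '' S) :=
    (hS.isCompact.image continuous_subtype_val).isClosed
  let B : Set A := Subtype.val ⁻¹' ((Subtype.val : G → K) '' S)
  have hB : IsClosed B := h1.preimage continuous_subtype_val
  have h2 : GdS ((Subtype.val : A → K) '' B) :=
    CSL_image (Subtype.val : A → K) continuous_subtype_val.continuousOn hB.isCompact rfl (h B hB)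
  refine CSL_inj (Subtype.val : G → K) continuous_subtype_val.continuousOn hS.isCompact
    Subtype.val_injective.injOn ?_
  have h3 : (Subtype.val : G → K) '' S = (Subtype.val : A → K) '' B := by
    ext x
    constructor
    · rintro ⟨s, hs, rfl⟩
      exact ⟨⟨s.1, hSA s hs⟩, ⟨s, hs, rfl⟩, rfl⟩
    · rintro ⟨z, hz, rfl⟩
      exact hz
  rw [h3]
  exact h2

theorem CLF_pull {K M : Type} [TopologicalSpace K] [TopologicalSpace M] (u : M → K) (hu : Continuous u) (F : Set K)
    (I : ℕ → Type) (E : ∀ n, I n → Set K) (hS : SigSum F I E) :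
    SigSum (u ⁻¹' F) I (fun n i => u ⁻¹' (E n i)) := by
  obtain ⟨h1, h2, h3, h4, h5⟩ := hS
  refine ⟨h1.preimage hu, ?_, fun n i j x => h3 n i j (u x), ?_, ?_⟩
  · intro n
    obtain ⟨A, B, hA, hB, hAB⟩ := h2 n
    refine ⟨u ⁻¹' A, u ⁻¹' B, hA.preimage hu, hB.preimage hu, ?_⟩
    rw [← preimage_iUnion, hAB, preimage_sdiff]
  · intro n i t ht
    obtain ⟨V, hV, hV2⟩ := h4 n i (u t) ht
    refine ⟨u ⁻¹' V, hu.continuousAt.preimage_mem_nhds hV, ?_⟩
    intro s hs hs2
    rw [← preimage_iUnion] at hs2
    exact hV2 (u s) hs hs2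
  · intro x hx
    obtain ⟨n, hn⟩ := h5 (u x) hx
    refine ⟨n, ?_⟩
    rw [← preimage_iUnion]
    exact hn

theorem CLF_her (K : Type) (t : TopologicalSpace K) (h : Cl1 K t) : ∀ G : Set K, IsClosed G → GdS G := by
  induction h with
  | pow ι hι F => exact fun G hG => TUP_main (fun i => (F i).sc) G hG
  | sub K t G hK hG ih =>
    intro G' hG'
    obtain ⟨h1, h2⟩ := CLF_ct K t hK
    have h3 : CompactSpace G := isCompact_iff_compactSpace.1 hG.isCompact
    refine CSL_inj (Subtype.val : G → K) continuous_subtype_val.continuousOn hG'.isCompact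
      Subtype.val_injective.injOn ?_
    exact ih _ (hG'.isCompact.image continuous_subtype_val).isClosed
  | img K K' t t' φ hT hφ hs hK ih =>
    intro G' hG'
    obtain ⟨h1, h2⟩ := CLF_ct K t hK
    exact CSL_image φ hφ.continuousOn (hG'.preimage hφ).isCompact (image_preimage_eq G' hs)
      (ih _ (hG'.preimage hφ))
  | sig K t F I E h1 h2 hS hF hE ihF ihE =>
    intro G hG hGc
    refine SIG_good G (Subtype.val ⁻¹' F) I (fun n i => Subtype.val ⁻¹' (E n i))
      (CLF_pull Subtype.val continuous_subtype_val F I E hS) ?_ ?_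
    · exact CLF_tr G F hG hS.closed ihF _ (hS.closed.preimage continuous_subtype_val) fun x hx => hx
    · intro n i S hSs hSc
      refine CLF_tr G (closure (E n i)) hG isClosed_closure (ihE n i) S hSc ?_
      intro x hx
      exact continuous_subtype_val.closure_preimage_subset (E n i) (hSs hx)

theorem CLF_good (K : Type) [t : TopologicalSpace K] [CompactSpace K] (h : Cl1 K t) : GoodK K := by
  have hc : CompactSpace (Set.univ : Set K) := isCompact_iff_compactSpace.1 isCompact_univ
  have h2 : GoodK (Set.univ : Set K) := CLF_her K t h Set.univ isClosed_univ hc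
  refine thm_PD.2.2.1 (Set.univ : Set K) K ⟨Subtype.val, continuous_subtype_val⟩ ?_ h2
  intro x
  exact ⟨⟨x, trivial⟩, rfl⟩

theorem CLF_prodBase (Q : Type) (tQ : TopologicalSpace Q) (hQc : CompactSpace Q) (hQt : T2Space Q)
    (hb : ∀ (ι : Type) (_ : Finite ι) (F : ι → LOS), Cl1 ((∀ i, (F i).T) × Q) inferInstance)
    (K : Type) (t : TopologicalSpace K) (h : Cl1 K t) : Cl1 (K × Q) inferInstance := by
  induction h with
  | pow ι hι F => exact hb ι hι F
  | sub K t G hK hG ih =>
    have h1 : Cl1 ({z : K × Q | z.1 ∈ G} : Set (K × Q)) inferInstance :=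
      Cl1.sub (K × Q) inferInstance {z | z.1 ∈ G} ih (hG.preimage continuous_fst)
    obtain ⟨h2, h3⟩ := CLF_ct K t hK
    refine Cl1.img _ (G × Q) inferInstance inferInstance
      (fun z : ({z : K × Q | z.1 ∈ G} : Set (K × Q)) => ((⟨z.1.1, z.2⟩ : G), z.1.2)) inferInstance ?_ ?_ h1
    · exact ((continuous_fst.comp continuous_subtype_val).subtype_mk _).prodMk
        (continuous_snd.comp continuous_subtype_val)
    · rintro ⟨⟨x, hx⟩, q⟩
      exact ⟨⟨(x, q), hx⟩, rfl⟩
  | img K K' t t' φ hT hφ hs hK ih =>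
    refine Cl1.img (K × Q) (K' × Q) inferInstance inferInstance (fun z => (φ z.1, z.2)) inferInstance ?_ ?_ ih
    · exact (hφ.comp continuous_fst).prodMk continuous_snd
    · rintro ⟨x', q⟩
      obtain ⟨x, rfl⟩ := hs x'
      exact ⟨(x, q), rfl⟩
  | sig K t F I E h1 h2 hS hF hE ihF ihE =>
    have key : ∀ A : Set K, Cl1 (A × Q) inferInstance →
        Cl1 ({z : K × Q | z.1 ∈ A} : Set (K × Q)) inferInstance := by
      intro A hA
      refine Cl1.img (A × Q) _ inferInstance inferInstance
        (fun z => (⟨(z.1.1, z.2), z.1.2⟩ : ({z : K × Q | z.1 ∈ A} : Set (K × Q)))) inferInstance ?_ ?_ hA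
      · exact Continuous.subtype_mk
          ((continuous_subtype_val.comp continuous_fst).prodMk continuous_snd) _
      · rintro ⟨⟨x, q⟩, hx⟩
        exact ⟨(⟨x, hx⟩, q), rfl⟩
    refine Cl1.sig (K × Q) inferInstance (Prod.fst ⁻¹' F) I (fun n i => Prod.fst ⁻¹' (E n i)) inferInstance
      inferInstance (CLF_pull Prod.fst continuous_fst F I E hS) (key F ihF) ?_
    intro n i
    have h3 : closure (Prod.fst ⁻¹' (E n i) : Set (K × Q)) = {z : K × Q | z.1 ∈ closure (E n i)} := by
      have h4 : (Prod.fst ⁻¹' (E n i) : Set (K × Q)) = E n i ×ˢ univ := by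
        ext z
        simp
      rw [h4, closure_prod_eq, closure_univ]
      ext z
      simp
    rw [h3]
    exact key _ (ihE n i)

theorem CLF_swap (K Q : Type) (t : TopologicalSpace K) (tQ : TopologicalSpace Q) (hK : T2Space K) (hQ : T2Space Q)
    (h : Cl1 (K × Q) inferInstance) : Cl1 (Q × K) inferInstance :=
  Cl1.img (K × Q) (Q × K) inferInstance inferInstance Prod.swap inferInstance continuous_swap
    Prod.swap_surjective h

theorem CLF_prod (K K' : Type) (t : TopologicalSpace K) (t' : TopologicalSpace K') (h : Cl1 K t) (h' : Cl1 K' t') :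
    Cl1 (K × K') inferInstance := by
  have hbase : ∀ (ι : Type) (_ : Finite ι) (F : ι → LOS) (ι' : Type) (_ : Finite ι') (F' : ι' → LOS),
      Cl1 ((∀ i, (F i).T) × (∀ i, (F' i).T)) inferInstance := by
    intro ι hι F ι' hι' F'
    let E : (∀ s : ι ⊕ ι', (Sum.elim F F' s).T) → (∀ i, (F i).T) × (∀ i, (F' i).T) :=
      fun x => (fun i => x (Sum.inl i), fun i => x (Sum.inr i))
    refine Cl1.img (∀ s : ι ⊕ ι', (Sum.elim F F' s).T) _ inferInstance inferInstance E inferInstance ?_ ?_
      (Cl1.pow (ι ⊕ ι') inferInstance (Sum.elim F F'))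
    · exact (continuous_pi fun i => continuous_apply (Sum.inl i)).prodMk
        (continuous_pi fun i => continuous_apply (Sum.inr i))
    · rintro ⟨x, y⟩
      refine ⟨fun s => ?_, ?_⟩
      · cases s with
        | inl i => exact x i
        | inr i => exact y i
      · rfl
  obtain ⟨c1, t1⟩ := CLF_ct K t h
  obtain ⟨c2, t2⟩ := CLF_ct K' t' h'
  have h1 : ∀ (ι : Type) (_ : Finite ι) (F : ι → LOS), Cl1 ((∀ i, (F i).T) × K') inferInstance := by
    intro ι hι F
    have h2 := CLF_prodBase (∀ i, (F i).T) inferInstance inferInstance inferInstance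
      (fun ι' hι' F' => hbase ι' hι' F' ι hι F) K' t' h'
    exact CLF_swap K' (∀ i, (F i).T) t' inferInstance t2 inferInstance h2
  exact CLF_prodBase K' t' c2 t2 h1 K t h

theorem CLF_lo (L : Type) [LinearOrder L] [TopologicalSpace L] [OrderTopology L] [CompactSpace L] (hL : Scat L) :
    Cl1 L inferInstance := by
  let F : Unit → LOS := fun _ => { T := L, sc := hL }
  refine Cl1.img (∀ i, (F i).T) L inferInstance inferInstance (fun x => x ()) inferInstance (continuous_apply ())
    ?_ (Cl1.pow Unit inferInstance F)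
  intro x
  exact ⟨fun _ => x, rfl⟩

end HCL
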