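import Pool.Agent.HCL.CLF

/-!
# HCL, module CLG: fibrations over sigma-discrete spaces and points of finite support (helper42)
-/

set_option autoImplicit false

namespace HCL

open Set Topology SDN

theorem CLG_unit : Cl1 Unit inferInstance := by
  refine Cl1.img _ Unit inferInstance inferInstance (fun _ => ()) inferInstance continuous_const ?_
    (Cl1.pow Empty inferInstance (fun i => i.elim))
  intro x
  exact ⟨fun i => i.elim, rfl⟩

theorem CLG_empty (K : Type) (t : TopologicalSpace K) (hK : IsEmpty K) : Cl1 K t := by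
  have h1 : Cl1 (∅ : Set Unit) inferInstance := Cl1.sub Unit inferInstance ∅ CLG_unit isClosed_empty
  refine Cl1.img (∅ : Set Unit) K inferInstance t (fun x => x.2.elim) ⟨fun x => (hK.false x).elim⟩ ?_ ?_ h1
  · exact continuous_iff_continuousAt.2 fun x => x.2.elim
  · intro x
    exact (hK.false x).elim

/-- a relatively discrete set is the difference of two closed sets -/
theorem CLG_lc {H : Type} [TopologicalSpace H] [T1Space H] (D : Set H)
    (hD : ∀ y ∈ D, ∃ V ∈ 𝓝 y, ∀ z ∈ V, z ∈ D → z = y) :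
    ∃ A B : Set H, IsClosed A ∧ IsClosed B ∧ D = A \ B := by
  let U : Set H := {x | ∃ O : Set H, IsOpen O ∧ x ∈ O ∧ ∃ y ∈ D, ∀ z ∈ O, z ∈ D → z = y}
  have hU : IsOpen U := by
    rw [isOpen_iff_forall_mem_open]
    rintro x ⟨O, hO, hx, y, hy, h⟩
    exact ⟨O, fun z hz => ⟨O, hO, hz, y, hy, h⟩, hO, hx⟩
  refine ⟨closure D, Uᶜ, isClosed_closure, hU.isClosed_compl, ?_⟩
  ext x
  constructor
  · intro hx
    refine ⟨subset_closure hx, ?_⟩
    rw [mem_compl_iff, not_not]
    obtain ⟨V, hV, h⟩ := hD x hx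
    obtain ⟨O, hO1, hO2, hO3⟩ := mem_nhds_iff.1 hV
    exact ⟨O, hO2, hO3, x, hx, fun z hz => h z (hO1 hz)⟩
  · rintro ⟨hx1, hx2⟩
    rw [mem_compl_iff, not_not] at hx2
    obtain ⟨O, hO, hx, y, hy, h⟩ := hx2
    by_contra hxD
    have hxy : x ≠ y := fun e => hxD (e ▸ hy)
    obtain ⟨z, hz1, hz2⟩ := mem_closure_iff.1 hx1 (O \ {y}) (hO.sdiff isClosed_singleton) ⟨hx, hxy⟩
    exact hz1.2 (h z hz1.1 hz2)

theorem CLG_fib (K H : Type) (t : TopologicalSpace K) (t' : TopologicalSpace H) (D : ℕ → Set H) (φ : K → H)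
    (h1 : CompactSpace K) (h2 : T2Space K) (h4 : T2Space H) (hD : SigmaDiscrete D) (hφ : Continuous φ)
    (hf : ∀ y, Cl1 (φ ⁻¹' {y}) inferInstance) : Cl1 K t := by
  refine Cl1.sig K t ∅ (fun n => D n) (fun n y => φ ⁻¹' {y.1}) h1 h2 ?_
    (CLG_empty _ _ ⟨fun x => x.2.elim⟩) ?_
  · have h5 : ∀ n, (⋃ i : D n, φ ⁻¹' {i.1}) = φ ⁻¹' (D n) := by
      intro n
      ext x
      simp only [mem_iUnion, mem_preimage, mem_singleton_iff]
      constructor
      · rintro ⟨i, hi⟩
        rw [hi]
        exact i.2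
      · intro hx
        exact ⟨⟨φ x, hx⟩, rfl⟩
    refine ⟨isClosed_empty, ?_, ?_, ?_, ?_⟩
    · intro n
      obtain ⟨A, B, hA, hB, hAB⟩ := CLG_lc (D n) (hD.1 n)
      refine ⟨φ ⁻¹' A, φ ⁻¹' B, hA.preimage hφ, hB.preimage hφ, ?_⟩
      rw [h5, hAB, preimage_sdiff]
    · intro n i j x hi hj
      exact Subtype.ext (Eq.trans (Eq.symm hi) hj)
    · intro n i x hx
      obtain ⟨V, hV, h⟩ := hD.1 n i.1 i.2
      have hx' : φ x = i.1 := hx
      refine ⟨φ ⁻¹' V, hφ.continuousAt.preimage_mem_nhds (hx' ▸ hV), ?_⟩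
      intro s hs hs2
      rw [h5] at hs2
      exact h (φ s) hs hs2
    · intro x _
      obtain ⟨n, hn⟩ := hD.2 (φ x)
      refine ⟨n, ?_⟩
      rw [h5]
      exact hn
  · intro n y
    have h6 : closure (φ ⁻¹' {y.1}) = φ ⁻¹' {y.1} := (isClosed_singleton.preimage hφ).closure_eq
    rw [h6]
    exact hf y.1

theorem CLG_pi (ι : Type) (hι : Finite ι) : ∀ (L : ι → Type) (t : ∀ i, TopologicalSpace (L i)),
    (∀ i, Cl1 (L i) (t i)) → Cl1 (∀ i, L i) inferInstance := by
  refine Finite.induction_empty_option (P := fun ι => ∀ (L : ι → Type) (t : ∀ i, TopologicalSpace (L i)),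
    (∀ i, Cl1 (L i) (t i)) → Cl1 (∀ i, L i) inferInstance) ?_ ?_ ?_ ι
  · intro α β e h L t hL
    have h1 := h (fun a => L (e a)) (fun a => t (e a)) (fun a => hL (e a))
    have h2 : ∀ b, T2Space (L b) := fun b => (CLF_ct _ _ (hL b)).2
    have h3 : ∀ b, CompactSpace (L b) := fun b => (CLF_ct _ _ (hL b)).1
    refine Cl1.img _ _ _ _ (Homeomorph.piCongrLeft (Y := L) e) inferInstance
      (Homeomorph.piCongrLeft (Y := L) e).continuous (Homeomorph.piCongrLeft (Y := L) e).surjective h1
  · intro L t hL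
    refine Cl1.img Unit _ inferInstance _ (fun _ => fun i => i.elim) ⟨?_⟩ continuous_const ?_ CLG_unit
    · intro x y hxy
      exact absurd (funext fun i => i.elim) hxy
    · intro x
      exact ⟨(), funext fun i => i.elim⟩
  · intro α _ h L t hL
    have h1 := h (fun a => L (some a)) (fun a => t (some a)) (fun a => hL (some a))
    have h2 := CLF_prod (L none) (∀ a, L (some a)) (t none) inferInstance (hL none) h1
    have h3 : ∀ b, T2Space (L b) := fun b => (CLF_ct _ _ (hL b)).2
    refine Cl1.img _ _ _ _ (fun z : L none × (∀ a, L (some a)) => fun i => match i with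
      | none => z.1
      | some a => z.2 a) inferInstance ?_ ?_ h2
    · refine continuous_pi fun i => ?_
      cases i with
      | none => exact continuous_fst
      | some a => exact (continuous_apply a).comp continuous_snd
    · intro x
      refine ⟨(x none, fun a => x (some a)), ?_⟩
      funext i
      cases i with
      | none => rfl
      | some a => rfl

theorem CLG_supp (Γ : Type) (L : Γ → Type) (t : ∀ i, TopologicalSpace (L i)) (e : ∀ i, L i)
    (hL : ∀ i, Cl1 (L i) (t i)) (K : Set (∀ i, L i)) (hK : IsClosed K)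
    (hf : ∀ x ∈ K, {i | x i ≠ e i}.Finite) : Cl1 K inferInstance := by
  classical
  have h2 : ∀ b, T2Space (L b) := fun b => (CLF_ct _ _ (hL b)).2
  have h3 : ∀ b, CompactSpace (L b) := fun b => (CLF_ct _ _ (hL b)).1
  have hKc : CompactSpace K := isCompact_iff_compactSpace.1 hK.isCompact
  have hop : ∀ s : Finset Γ, IsOpen {x : K | ∀ i ∈ s, x.1 i ≠ e i} := by
    intro s
    have h4 : {x : K | ∀ i ∈ s, x.1 i ≠ e i} = ⋂ i ∈ s, {x : K | x.1 i ≠ e i} := by
      ext x
      simp
    rw [h4]
    refine isOpen_biInter_finset fun i _ => ?_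
    have h5 : IsClosed {x : K | x.1 i = e i} :=
      isClosed_eq ((continuous_apply i).comp continuous_subtype_val) continuous_const
    exact h5.isOpen_compl
  let E : ∀ n : ℕ, {s : Finset Γ // s.card = n} → Set K :=
    fun n s => {x | ∀ i, x.1 i ≠ e i ↔ i ∈ s.1}
  -- the set of points whose support has at least `m` elements is open
  have hge : ∀ m : ℕ, IsOpen {x : K | ∃ s : Finset Γ, s.card = m ∧ ∀ i ∈ s, x.1 i ≠ e i} := by
    intro m
    rw [isOpen_iff_forall_mem_open]
    rintro x ⟨s, hs, hx⟩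
    exact ⟨{x : K | ∀ i ∈ s, x.1 i ≠ e i}, fun y hy => ⟨s, hs, hy⟩, hop s, hx⟩
  have hU : ∀ n, (⋃ s, E n s) = {x : K | ∃ s : Finset Γ, s.card = n + 1 ∧ ∀ i ∈ s, x.1 i ≠ e i}ᶜ \
      {x : K | ∃ s : Finset Γ, s.card = n ∧ ∀ i ∈ s, x.1 i ≠ e i}ᶜ := by
    intro n
    ext x
    constructor
    · intro hx
      obtain ⟨s, hs⟩ := mem_iUnion.1 hx
      have hs' : ∀ i, x.1 i ≠ e i ↔ i ∈ s.1 := hs
      refine ⟨?_, ?_⟩
      · rintro ⟨r, hr, hrx⟩
        have h5 : r ⊆ s.1 := fun i hi => (hs' i).1 (hrx i hi)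
        have h6 := Finset.card_le_card h5
        rw [s.2, hr] at h6
        omega
      · intro h
        exact h ⟨s.1, s.2, fun i hi => (hs' i).2 hi⟩
    · rintro ⟨hx1, hx2⟩
      have hx2' : ∃ s : Finset Γ, s.card = n ∧ ∀ i ∈ s, x.1 i ≠ e i := not_not.1 hx2
      obtain ⟨s, hs, hsx⟩ := hx2'
      refine mem_iUnion.2 ⟨⟨s, hs⟩, ?_⟩
      intro i
      constructor
      · intro hi
        by_contra his
        refine hx1 ⟨insert i s, ?_, ?_⟩
        · rw [Finset.card_insert_of_notMem his, hs]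
        · intro j hj
          rcases Finset.mem_insert.1 hj with h | h
          · rw [h]
            exact hi
          · exact hsx j h
      · exact hsx i
  refine Cl1.sig K inferInstance ∅ (fun n => {s : Finset Γ // s.card = n}) E hKc inferInstance ?_
    (CLG_empty _ _ ⟨fun x => x.2.elim⟩) ?_
  · refine ⟨isClosed_empty, ?_, ?_, ?_, ?_⟩
    · intro n
      exact ⟨_, _, (hge (n + 1)).isClosed_compl, (hge n).isClosed_compl, hU n⟩
    · intro n s s' x hs hs'
      refine Subtype.ext (Finset.ext fun i => ?_)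
      exact (hs i).symm.trans (hs' i)
    · intro n s x hx
      refine ⟨{y : K | ∀ i ∈ s.1, y.1 i ≠ e i}, (hop s.1).mem_nhds fun i hi => (hx i).2 hi, ?_⟩
      intro y hy hy2
      obtain ⟨s', hs'⟩ := mem_iUnion.1 hy2
      have h5 : s.1 ⊆ s'.1 := fun i hi => (hs' i).1 (hy i hi)
      have h6 : s.1 = s'.1 := Finset.eq_of_subset_of_card_le h5 (by rw [s.2, s'.2])
      have h7 : s = s' := Subtype.ext h6
      rw [h7]
      exact hs'
    · intro x _
      have h5 := hf x.1 x.2
      refine ⟨h5.toFinset.card, mem_iUnion.2 ⟨⟨h5.toFinset, rfl⟩, ?_⟩⟩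
      intro i
      exact (Set.Finite.mem_toFinset h5).symm
  · intro n s
    -- the finite product over `s` contains the points with support in `s`
    have hfin : Finite s.1 := inferInstance
    have h5 : Cl1 (∀ i : s.1, L i.1) inferInstance :=
      CLG_pi s.1 inferInstance (fun i => L i.1) (fun i => t i.1) (fun i => hL i.1)
    let j : (∀ i : s.1, L i.1) → (∀ i, L i) := fun y i => if h : i ∈ s.1 then y ⟨i, h⟩ else e i
    have hj : Continuous j := by
      refine continuous_pi fun i => ?_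
      by_cases h : i ∈ s.1
      · simp only [j, dif_pos h]
        exact continuous_apply _
      · simp only [j, dif_neg h]
        exact continuous_const
    let Z : Set K := closure (E n s)
    let B : Set (∀ i : s.1, L i.1) := {y | ∃ z ∈ Z, z.1 = j y}
    have hZc : IsClosed ((Subtype.val : K → (∀ i, L i)) '' Z) :=
      (isClosed_closure.isCompact.image continuous_subtype_val).isClosed
    have hB : IsClosed B := hZc.preimage hj
    have h6 : Cl1 B inferInstance := Cl1.sub _ inferInstance B h5 hB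
    have hBZ : ∀ y : B, ∃ hy : j y.1 ∈ K, (⟨j y.1, hy⟩ : K) ∈ Z := by
      rintro ⟨y, z, hz, hzy⟩
      have h7 : j y ∈ K := hzy ▸ z.2
      refine ⟨h7, ?_⟩
      have h8 : (⟨j y, h7⟩ : K) = z := Subtype.ext hzy.symm
      rw [h8]
      exact hz
    let ψ : B → Z := fun y => ⟨⟨j y.1, (hBZ y).choose⟩, (hBZ y).choose_spec⟩
    have hψ : Continuous ψ :=
      ((hj.comp continuous_subtype_val).subtype_mk _).subtype_mk _
    refine Cl1.img B Z inferInstance inferInstance ψ inferInstance hψ ?_ h6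
    rintro ⟨z, hz⟩
    have hzs : ∀ i, i ∉ s.1 → z.1 i = e i := by
      intro i hi
      have h7 : IsClosed {x : K | x.1 i = e i} :=
        isClosed_eq ((continuous_apply i).comp continuous_subtype_val) continuous_const
      have h8 : E n s ⊆ {x : K | x.1 i = e i} := by
        intro x hx
        by_contra h9
        exact hi ((hx i).1 h9)
      exact closure_minimal h8 h7 hz
    have hjz : z.1 = j (fun i => z.1 i.1) := by
      funext i
      by_cases h : i ∈ s.1
      · simp only [j, dif_pos h]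
      · simp only [j, dif_neg h]
        exact hzs i h
    refine ⟨⟨fun i => z.1 i.1, z, hz, hjz⟩, ?_⟩
    exact Subtype.ext (Subtype.ext hjz.symm)

end HCL
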