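import Pool.Agent.HCL.CLG

/-!
# HCL, module CLH: the class is the smallest one (helper42)
-/

set_option autoImplicit false

namespace HCL

open Set Topology SDN

theorem CLH_pow (P : (K : Type) → TopologicalSpace K → Prop)
    (hlo : ∀ (L : Type) (_ : LinearOrder L) (t : TopologicalSpace L) (_ : OrderTopology L) (_ : CompactSpace L),
      Scat L → P L t)
    (hprod : ∀ (K K' : Type) (t : TopologicalSpace K) (t' : TopologicalSpace K'), P K t → P K' t' →
      P (K × K') inferInstance)
    (himg : ∀ (K K' : Type) (t : TopologicalSpace K) (t' : TopologicalSpace K') (φ : K → K'), T2Space K' →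
      Continuous φ → Function.Surjective φ → P K t → P K' t')
    (ι : Type) (hι : Finite ι) : ∀ F : ι → LOS, P (∀ i, (F i).T) inferInstance := by
  refine Finite.induction_empty_option (P := fun ι => ∀ F : ι → LOS, P (∀ i, (F i).T) inferInstance) ?_ ?_ ?_ ι
  · intro α β e h F
    have h1 := h (fun a => F (e a))
    exact himg _ _ _ _ (Homeomorph.piCongrLeft (Y := fun b => (F b).T) e) inferInstance
      (Homeomorph.piCongrLeft (Y := fun b => (F b).T) e).continuous
      (Homeomorph.piCongrLeft (Y := fun b => (F b).T) e).surjective h1
  · intro F
    let tU : TopologicalSpace Unit := Preorder.topology Unit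
    have oU : OrderTopology Unit := ⟨rfl⟩
    have hU : P Unit tU := by
      refine hlo Unit inferInstance tU oU ⟨Set.subsingleton_univ.isCompact⟩ ?_
      intro S hS
      obtain ⟨x, hx⟩ := hS
      exact ⟨x, hx, Set.univ, Filter.univ_mem, fun z _ _ => Subsingleton.elim _ _⟩
    refine himg Unit _ tU _ (fun _ => fun i => i.elim) ⟨?_⟩ continuous_const ?_ hU
    · intro x y hxy
      exact absurd (funext fun i => i.elim) hxy
    · intro x
      exact ⟨(), funext fun i => i.elim⟩
  · intro α _ h F
    have h1 := h (fun a => F (some a))
    have h0 : P (F none).T inferInstance := hlo (F none).T inferInstance inferInstance inferInstance inferInstance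
      (F none).sc
    have h2 := hprod (F none).T (∀ a, (F (some a)).T) inferInstance inferInstance h0 h1
    refine himg _ _ _ _ (fun z : (F none).T × (∀ a, (F (some a)).T) => fun i => match i with
      | none => z.1
      | some a => z.2 a) inferInstance ?_ ?_ h2
    · refine continuous_pi fun i => ?_
      cases i with
      | none => exact continuous_fst
      | some a => exact (continuous_apply a).comp continuous_snd
    · intro x
      refine ⟨(x none, fun a => x (some a)), ?_⟩
      funext i
      cases i with
      | none => rfl
      | some a => rfl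

theorem CLH_rec (P : (K : Type) → TopologicalSpace K → Prop)
    (hlo : ∀ (L : Type) (_ : LinearOrder L) (t : TopologicalSpace L) (_ : OrderTopology L) (_ : CompactSpace L),
      Scat L → P L t)
    (hsub : ∀ (K : Type) (t : TopologicalSpace K) (G : Set K), P K t → IsClosed G → P G inferInstance)
    (hprod : ∀ (K K' : Type) (t : TopologicalSpace K) (t' : TopologicalSpace K'), P K t → P K' t' →
      P (K × K') inferInstance)
    (himg : ∀ (K K' : Type) (t : TopologicalSpace K) (t' : TopologicalSpace K') (φ : K → K'), T2Space K' →
      Continuous φ → Function.Surjective φ → P K t → P K' t')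
    (hsig : ∀ (K : Type) (t : TopologicalSpace K) (F : Set K) (I : ℕ → Type) (E : ∀ n, I n → Set K),
      CompactSpace K → T2Space K → SigSum F I E → P F inferInstance →
      (∀ n i, P (closure (E n i)) inferInstance) → P K t)
    (K : Type) (t : TopologicalSpace K) (h : Cl1 K t) : P K t := by
  induction h with
  | pow ι hι F => exact CLH_pow P hlo hprod himg ι hι F
  | sub K t G hK hG ih => exact hsub K t G ih hG
  | img K K' t t' φ hT hφ hs hK ih => exact himg K K' t t' φ hT hφ hs ih
  | sig K t F I E h1 h2 hS hF hE ihF ihE => exact hsig K t F I E h1 h2 hS ihF ihE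

end HCL
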