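import Pool.Agent.HCL.CLG

/-!
# HCL, module CLO: one-point fibres over the points which are not isolated (helper42)
-/

set_option autoImplicit false

namespace HCL

open Set Topology SDN

theorem CLO_main (K L : Type) [TopologicalSpace K] [CompactSpace K] [T2Space K] [TopologicalSpace L] [CompactSpace L]
    [T2Space L] (π : C(K, L)) (h1 : ∀ y, IsOpen {y} → GdS (π ⁻¹' {y}))
    (h2 : ∀ y, ¬ IsOpen {y} → ∀ k l, π k = y → π l = y → k = l) (h3 : ∀ G : Set L, IsClosed G → GdS G) :
    GoodK K := by
  classical
  let J : Type := {y : L // IsOpen ({y} : Set L)}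
  let tJ : TopologicalSpace J := ⊥
  have dJ : DiscreteTopology J := ⟨rfl⟩
  let u : L → OnePoint J := fun y => if h : IsOpen ({y} : Set L) then ((⟨y, h⟩ : J) : OnePoint J) else OnePoint.infty
  have hu1 : ∀ y (h : IsOpen ({y} : Set L)), u y = ((⟨y, h⟩ : J) : OnePoint J) := fun y h => dif_pos h
  have hu2 : ∀ y, ¬ IsOpen ({y} : Set L) → u y = OnePoint.infty := fun y h => dif_neg h
  have hu : Continuous u := by
    rw [continuous_def]
    intro U hU
    by_cases hinf : OnePoint.infty ∈ U
    · -- the complement is finite
      have h4 : IsCompact ((fun j : J => (j : OnePoint J)) ⁻¹' U)ᶜ := ((OnePoint.isOpen_def.1 hU).1 hinf)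
      have h5 : ((fun j : J => (j : OnePoint J)) ⁻¹' U)ᶜ.Finite := isCompact_iff_finite.1 h4
      have h6 : (u ⁻¹' U)ᶜ ⊆ (Subtype.val : J → L) '' ((fun j : J => (j : OnePoint J)) ⁻¹' U)ᶜ := by
        intro y hy
        by_cases h : IsOpen ({y} : Set L)
        · refine ⟨⟨y, h⟩, ?_, rfl⟩
          intro h7
          refine hy ?_
          change u y ∈ U
          rw [hu1 y h]
          exact h7
        · refine absurd ?_ hy
          change u y ∈ U
          rw [hu2 y h]
          exact hinf
      have h7 : (u ⁻¹' U)ᶜ.Finite := (h5.image _).subset h6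
      exact isClosed_compl_iff.1 h7.isClosed
    · rw [isOpen_iff_forall_mem_open]
      intro y hy
      have h : IsOpen ({y} : Set L) := by
        by_contra h
        have h8 : u y ∈ U := hy
        rw [hu2 y h] at h8
        exact hinf h8
      refine ⟨{y}, ?_, h, rfl⟩
      rintro z rfl
      exact hy
  have hcont : Continuous fun k => u (π k) := hu.comp π.continuous
  let ψ : C(K, OnePoint J) := ⟨fun k => u (π k), hcont⟩
  let D : ℕ → Set (OnePoint J) := fun n => if n = 0 then {OnePoint.infty} else {OnePoint.infty}ᶜ
  have hD : SigmaDiscrete D := by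
    constructor
    · intro n y hy
      by_cases hn : n = 0
      · refine ⟨Set.univ, Filter.univ_mem, ?_⟩
        intro z _ hz
        simp only [D, if_pos hn, mem_singleton_iff] at hy hz
        rw [hy, hz]
      · simp only [D, if_neg hn, mem_compl_iff, mem_singleton_iff] at hy
        obtain ⟨j, rfl⟩ := OnePoint.ne_infty_iff_exists.1 hy
        refine ⟨{(j : OnePoint J)}, ?_, fun z hz _ => hz⟩
        have h9 : IsOpen ((fun j : J => (j : OnePoint J)) '' {j}) :=
          OnePoint.isOpen_image_coe.2 (isOpen_discrete _)
        rw [image_singleton] at h9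
        exact h9.mem_nhds rfl
    · intro y
      by_cases hy : y = OnePoint.infty
      · refine ⟨0, ?_⟩
        simp only [D, if_true]
        exact hy
      · refine ⟨1, ?_⟩
        simp only [D, one_ne_zero, if_false]
        exact hy
  refine Fin_FB K (OnePoint J) D ψ hD ?_
  intro y
  change GdS (ψ ⁻¹' {y})
  by_cases hy : y = OnePoint.infty
  · subst hy
    have hcl : IsClosed (ψ ⁻¹' {OnePoint.infty}) := isClosed_singleton.preimage ψ.continuous
    refine CSL_inj π π.continuous.continuousOn hcl.isCompact ?_ (h3 _ (hcl.isCompact.image π.continuous).isClosed)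
    intro k hk l hl hkl
    have h10 : ¬ IsOpen ({π k} : Set L) := by
      intro h
      have h11 : u (π k) = OnePoint.infty := hk
      rw [hu1 _ h] at h11
      exact OnePoint.coe_ne_infty _ h11
    exact h2 (π k) h10 k l rfl hkl.symm
  · obtain ⟨j, rfl⟩ := OnePoint.ne_infty_iff_exists.1 hy
    have h12 : ψ ⁻¹' {(j : OnePoint J)} = π ⁻¹' {j.1} := by
      ext k
      change u (π k) = (j : OnePoint J) ↔ π k = j.1
      constructor
      · intro h
        by_cases h13 : IsOpen ({π k} : Set L)
        · rw [hu1 _ h13] at h
          exact congrArg Subtype.val (OnePoint.coe_injective h)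
        · rw [hu2 _ h13] at h
          exact absurd h.symm (OnePoint.coe_ne_infty _)
      · intro h
        have h13 : IsOpen ({π k} : Set L) := by
          rw [h]
          exact j.2
        rw [hu1 _ h13]
        exact congrArg _ (Subtype.ext h)
    rw [h12]
    exact h1 j.1 j.2

end HCL
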