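import Pool.Agent.HCL.TUP

/-!
# HCL, module CLS: the class (helper42)
-/

set_option autoImplicit false

namespace HCL

open Set Topology SDN

/-- a scattered compact linearly ordered space -/
structure LOS where
  /-- the space -/
  T : Type
  [lo : LinearOrder T]
  [top : TopologicalSpace T]
  [ot : OrderTopology T]
  [cs : CompactSpace T]
  /-- it is scattered -/
  sc : Scat T

attribute [instance] LOS.lo LOS.top LOS.ot LOS.cs

/-- the class -/
inductive Cl0 : (K : Type) → TopologicalSpace K → Prop
  | pow (ι : Type) (hι : Finite ι) (F : ι → LOS) : Cl0 (∀ i, (F i).T) inferInstance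
  | sub (K : Type) (t : TopologicalSpace K) (G : Set K) : Cl0 K t → IsClosed G → Cl0 G inferInstance
  | img (K K' : Type) (t : TopologicalSpace K) (t' : TopologicalSpace K') (φ : K → K') : T2Space K' →
      Continuous φ → Function.Surjective φ → Cl0 K t → Cl0 K' t'
  | fib (K H : Type) (t : TopologicalSpace K) (t' : TopologicalSpace H) (D : ℕ → Set H) (φ : K → H) :
      CompactSpace K → T2Space K → CompactSpace H → T2Space H → SigmaDiscrete D → Continuous φ →
      (∀ y, Cl0 (φ ⁻¹' {y}) inferInstance) → Cl0 K t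

theorem CLS_ct (K : Type) (t : TopologicalSpace K) (h : Cl0 K t) : CompactSpace K ∧ T2Space K := by
  induction h with
  | pow ι hι F => exact ⟨inferInstance, inferInstance⟩
  | sub K t G _ hG ih =>
    have h1 := ih.1
    have h2 := ih.2
    exact ⟨isCompact_iff_compactSpace.1 hG.isCompact, inferInstance⟩
  | img K K' t t' φ hT hφ hs _ ih =>
    have h1 := ih.1
    refine ⟨⟨?_⟩, hT⟩
    rw [← hs.range_eq]
    exact isCompact_range hφ
  | fib K H t t' D φ h1 h2 _ _ _ _ _ _ => exact ⟨h1, h2⟩

theorem CLS_her (K : Type) (t : TopologicalSpace K) (h : Cl0 K t) : ∀ G : Set K, IsClosed G → GdS G := by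
  induction h with
  | pow ι hι F => exact fun G hG => TUP_main (fun i => (F i).sc) G hG
  | sub K t G hK hG ih =>
    intro G' hG'
    obtain ⟨h1, h2⟩ := CLS_ct K t hK
    have h3 : CompactSpace G := isCompact_iff_compactSpace.1 hG.isCompact
    refine CSL_inj (Subtype.val : G → K) continuous_subtype_val.continuousOn hG'.isCompact
      Subtype.val_injective.injOn ?_
    exact ih _ (hG'.isCompact.image continuous_subtype_val).isClosed
  | img K K' t t' φ hT hφ hs hK ih =>
    intro G' hG'
    obtain ⟨h1, h2⟩ := CLS_ct K t hK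
    exact CSL_image φ hφ.continuousOn (hG'.preimage hφ).isCompact (image_preimage_eq G' hs)
      (ih _ (hG'.preimage hφ))
  | fib K H t t' D φ h1 h2 h3 h4 hD hφ _ ih =>
    intro G hG hGc
    let π : C(G, H) := ⟨fun x => φ x.1, hφ.comp continuous_subtype_val⟩
    refine Fin_FB G H D π hD ?_
    intro y
    change GdS (π ⁻¹' {y})
    -- the fibre is a closed subspace of the fibre of `φ`
    let A : Set (φ ⁻¹' {y}) := Subtype.val ⁻¹' G
    have hA : IsClosed A := hG.preimage continuous_subtype_val
    have hfc : CompactSpace (φ ⁻¹' {y}) :=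
      isCompact_iff_compactSpace.1 (isClosed_singleton.preimage hφ).isCompact
    have hAg : GdS A := ih y A hA
    have h5 : GdS (Subtype.val '' A) :=
      CSL_image (Subtype.val : (φ ⁻¹' {y}) → K) continuous_subtype_val.continuousOn hA.isCompact rfl hAg
    have h6 : IsClosed (π ⁻¹' {y}) := isClosed_singleton.preimage π.continuous
    refine CSL_inj (Subtype.val : G → K) continuous_subtype_val.continuousOn h6.isCompact
      Subtype.val_injective.injOn ?_
    have h7 : (Subtype.val : G → K) '' (π ⁻¹' {y}) = Subtype.val '' A := by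
      ext x
      constructor
      · rintro ⟨z, hz, rfl⟩
        exact ⟨⟨z.1, hz⟩, z.2, rfl⟩
      · rintro ⟨z, hz, rfl⟩
        exact ⟨⟨z.1, hz⟩, z.2, rfl⟩
    rw [h7]
    exact h5

theorem CLS_prodBase (Q : Type) (tQ : TopologicalSpace Q) (hQc : CompactSpace Q) (hQt : T2Space Q)
    (hb : ∀ (ι : Type) (_ : Finite ι) (F : ι → LOS), Cl0 ((∀ i, (F i).T) × Q) inferInstance)
    (K : Type) (t : TopologicalSpace K) (h : Cl0 K t) : Cl0 (K × Q) inferInstance := by
  induction h with
  | pow ι hι F => exact hb ι hι F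
  | sub K t G hK hG ih =>
    have h1 : Cl0 ({z : K × Q | z.1 ∈ G} : Set (K × Q)) inferInstance :=
      Cl0.sub (K × Q) inferInstance {z | z.1 ∈ G} ih (hG.preimage continuous_fst)
    obtain ⟨h2, h3⟩ := CLS_ct K t hK
    refine Cl0.img _ (G × Q) inferInstance inferInstance
      (fun z : ({z : K × Q | z.1 ∈ G} : Set (K × Q)) => ((⟨z.1.1, z.2⟩ : G), z.1.2)) inferInstance ?_ ?_ h1
    · exact ((continuous_fst.comp continuous_subtype_val).subtype_mk _).prodMk
        (continuous_snd.comp continuous_subtype_val)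
    · rintro ⟨⟨x, hx⟩, q⟩
      exact ⟨⟨(x, q), hx⟩, rfl⟩
  | img K K' t t' φ hT hφ hs hK ih =>
    refine Cl0.img (K × Q) (K' × Q) inferInstance inferInstance (fun z => (φ z.1, z.2)) inferInstance ?_ ?_ ih
    · exact (hφ.comp continuous_fst).prodMk continuous_snd
    · rintro ⟨x', q⟩
      obtain ⟨x, rfl⟩ := hs x'
      exact ⟨(x, q), rfl⟩
  | fib K H t t' D φ h1 h2 h3 h4 hD hφ _ ih =>
    refine Cl0.fib (K × Q) H inferInstance t' D (fun z => φ z.1) inferInstance inferInstance h3 h4 hD
      (hφ.comp continuous_fst) ?_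
    intro y
    refine Cl0.img ((φ ⁻¹' {y}) × Q) _ inferInstance inferInstance
      (fun z => (⟨(z.1.1, z.2), z.1.2⟩ : ((fun z : K × Q => φ z.1) ⁻¹' {y} : Set (K × Q)))) inferInstance ?_ ?_
      (ih y)
    · exact Continuous.subtype_mk
        ((continuous_subtype_val.comp continuous_fst).prodMk continuous_snd) _
    · rintro ⟨⟨x, q⟩, hx⟩
      exact ⟨(⟨x, hx⟩, q), rfl⟩

theorem CLS_swap (K Q : Type) (t : TopologicalSpace K) (tQ : TopologicalSpace Q) (hK : T2Space K) (hQ : T2Space Q)
    (h : Cl0 (K × Q) inferInstance) : Cl0 (Q × K) inferInstance :=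
  Cl0.img (K × Q) (Q × K) inferInstance inferInstance Prod.swap inferInstance continuous_swap
    Prod.swap_surjective h

theorem CLS_prod (K K' : Type) (t : TopologicalSpace K) (t' : TopologicalSpace K') (h : Cl0 K t) (h' : Cl0 K' t') :
    Cl0 (K × K') inferInstance := by
  have hbase : ∀ (ι : Type) (_ : Finite ι) (F : ι → LOS) (ι' : Type) (_ : Finite ι') (F' : ι' → LOS),
      Cl0 ((∀ i, (F i).T) × (∀ i, (F' i).T)) inferInstance := by
    intro ι hι F ι' hι' F'
    let E : (∀ s : ι ⊕ ι', (Sum.elim F F' s).T) → (∀ i, (F i).T) × (∀ i, (F' i).T) :=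
      fun x => (fun i => x (Sum.inl i), fun i => x (Sum.inr i))
    refine Cl0.img (∀ s : ι ⊕ ι', (Sum.elim F F' s).T) _ inferInstance inferInstance E inferInstance ?_ ?_
      (Cl0.pow (ι ⊕ ι') inferInstance (Sum.elim F F'))
    · exact (continuous_pi fun i => continuous_apply (Sum.inl i)).prodMk
        (continuous_pi fun i => continuous_apply (Sum.inr i))
    · rintro ⟨x, y⟩
      refine ⟨fun s => ?_, ?_⟩
      · cases s with
        | inl i => exact x i
        | inr i => exact y i
      · rfl
  obtain ⟨c1, t1⟩ := CLS_ct K t h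
  obtain ⟨c2, t2⟩ := CLS_ct K' t' h'
  have h1 : ∀ (ι : Type) (_ : Finite ι) (F : ι → LOS), Cl0 ((∀ i, (F i).T) × K') inferInstance := by
    intro ι hι F
    have h2 := CLS_prodBase (∀ i, (F i).T) inferInstance inferInstance inferInstance
      (fun ι' hι' F' => hbase ι' hι' F' ι hι F) K' t' h'
    exact CLS_swap K' (∀ i, (F i).T) t' inferInstance t2 inferInstance h2
  exact CLS_prodBase K' t' c2 t2 h1 K t h

theorem CLS_lo (L : Type) [LinearOrder L] [TopologicalSpace L] [OrderTopology L] [CompactSpace L] (hL : Scat L) :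
    Cl0 L inferInstance := by
  let F : Unit → LOS := fun _ => { T := L, sc := hL }
  refine Cl0.img (∀ i, (F i).T) L inferInstance inferInstance (fun x => x ()) inferInstance (continuous_apply ())
    ?_ (Cl0.pow Unit inferInstance F)
  intro x
  exact ⟨fun _ => x, rfl⟩

theorem CLS_good (K : Type) [t : TopologicalSpace K] [CompactSpace K] (h : Cl0 K t) : GoodK K := by
  have hc : CompactSpace (Set.univ : Set K) := isCompact_iff_compactSpace.1 isCompact_univ
  have h2 : GoodK (Set.univ : Set K) := CLS_her K t h Set.univ isClosed_univ hc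
  refine thm_PD.2.2.1 (Set.univ : Set K) K ⟨Subtype.val, continuous_subtype_val⟩ ?_ h2
  intro x
  exact ⟨⟨x, trivial⟩, rfl⟩

end HCL
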