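import Pool.Agent.HCL.CLG
import Pool.Agent.TRE.Defs

/-!
# HCL, module CLT: trees in the hereditary class (helper42)
-/

set_option autoImplicit false

namespace HCL

open Set Topology SDN TRE

/-- finite unions of closed subspaces -/
theorem CLT_un {K ι : Type} [TopologicalSpace K] [T2Space K] [Finite ι] (Z : Set K) (A : ι → Set K)
    (hZ : Z = ⋃ i, A i) (hA : ∀ i, Cl1 (A i) inferInstance) : Cl1 Z inferInstance := by
  let tι : TopologicalSpace ι := ⊥
  have dι : DiscreteTopology ι := ⟨rfl⟩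
  have hc : ∀ i, CompactSpace (A i) := fun i => (CLF_ct _ _ (hA i)).1
  have hS : Cl1 (Σ i, A i) inferInstance := by
    refine CLG_fib (Σ i, A i) ι inferInstance inferInstance (fun _ => Set.univ) (fun z => z.1) inferInstance
      inferInstance inferInstance ⟨?_, fun y => ⟨0, trivial⟩⟩ ?_ ?_
    · intro n y _
      exact ⟨{y}, (isOpen_discrete _).mem_nhds rfl, fun z hz _ => hz⟩
    · exact continuous_sigma fun i => continuous_const
    · intro i
      refine Cl1.img (A i) _ inferInstance inferInstance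
        (fun x => (⟨⟨i, x⟩, rfl⟩ : ((fun z : (Σ i, A i) => z.1) ⁻¹' {i} : Set (Σ i, A i)))) inferInstance ?_ ?_ (hA i)
      · exact Continuous.subtype_mk (continuous_sigmaMk (σ := fun i => A i) (i := i)) _
      · rintro ⟨⟨j, x⟩, hj⟩
        have hj' : j = i := hj
        subst hj'
        exact ⟨x, rfl⟩
  refine Cl1.img (Σ i, A i) Z inferInstance inferInstance
    (fun z => ⟨z.2.1, hZ ▸ mem_iUnion.2 ⟨z.1, z.2.2⟩⟩) inferInstance ?_ ?_ hS
  · exact Continuous.subtype_mk (continuous_sigma fun i => continuous_subtype_val) _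
  · rintro ⟨x, hx⟩
    have hx' := hx
    rw [hZ] at hx'
    obtain ⟨i, hi⟩ := mem_iUnion.1 hx'
    exact ⟨⟨i, ⟨x, hi⟩⟩, rfl⟩

/-- a copy of a set -/
structure CLT_T {L : Type} (S : Set L) where
  /-- the point -/
  val : L
  /-- it is in the set -/
  mem : val ∈ S

/-- the closure of a chain of a tree is an ordered space -/
theorem CLT_chain {L : Type} [TopologicalSpace L] [CompactSpace L] [T2Space L] [PartialOrder L] (o : L)
    (hT : TreeTop L o) (C : Set L) (hC : IsChain (· ≤ ·) C) : Cl1 (closure C) inferInstance := by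
  classical
  have hDc : CompactSpace (closure C) := isCompact_iff_compactSpace.1 isClosed_closure.isCompact
  have hne : ∀ s t : L, t ≠ o → s ≤ t → s ≠ o := by
    rintro s t ht hst rfl
    exact ht (hT.up t hst)
  -- the closure is a chain off `o`
  have hch : ∀ x ∈ closure C, ∀ y ∈ closure C, x ≠ o → y ≠ o → x ≤ y ∨ y ≤ x := by
    intro x hx y hy hxo hyo
    by_contra hcon
    obtain ⟨h1, h2⟩ := not_or.1 hcon
    obtain ⟨c, ⟨hc1, hc2⟩, hcC⟩ := mem_closure_iff.1 hx (Iic x ∩ (Iic y)ᶜ)
      ((hT.clopen x hxo).isOpen.inter (hT.clopen y hyo).isClosed.isOpen_compl) ⟨le_refl x, h1⟩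
    obtain ⟨c', ⟨hc1', hc2'⟩, hcC'⟩ := mem_closure_iff.1 hy (Iic y ∩ (Iic x)ᶜ)
      ((hT.clopen y hyo).isOpen.inter (hT.clopen x hxo).isClosed.isOpen_compl) ⟨le_refl y, h2⟩
    rcases hC.total hcC hcC' with h | h
    · exact hc2 (le_trans h hc1')
    · exact hc2' (le_trans h hc1)
  let D : Type := CLT_T (closure C)
  have ext : ∀ x y : D, x.val = y.val → x = y := by
    rintro ⟨x, hx⟩ ⟨y, hy⟩ h
    have h' : x = y := h
    subst h'
    rfl
  let lo : LinearOrder D :=
    { le := fun x y => x.val ≤ y.val ∨ y.val = o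
      le_refl := fun x => Or.inl le_rfl
      le_trans := by
        rintro x y z (h1 | h1) (h2 | h2)
        · exact Or.inl (le_trans h1 h2)
        · exact Or.inr h2
        · exact Or.inr (hT.up _ (h1 ▸ h2))
        · exact Or.inr h2
      le_antisymm := by
        rintro x y (h1 | h1) (h2 | h2)
        · exact ext _ _ (le_antisymm h1 h2)
        · have h3 : y.val = o := hT.up _ (h2 ▸ h1)
          exact ext _ _ (h2.trans h3.symm)
        · have h3 : x.val = o := hT.up _ (h1 ▸ h2)
          exact ext _ _ (h3.trans h1.symm)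
        · exact ext _ _ (h2.trans h1.symm)
      le_total := by
        intro x y
        by_cases hx : x.val = o
        · exact Or.inr (Or.inr hx)
        by_cases hy : y.val = o
        · exact Or.inl (Or.inr hy)
        rcases hch x.val x.mem y.val y.mem hx hy with h | h
        · exact Or.inl (Or.inl h)
        · exact Or.inr (Or.inl h)
      toDecidableLE := fun _ _ => Classical.propDecidable _ }
  let tD : TopologicalSpace D := Preorder.topology D
  have oD : OrderTopology D := ⟨rfl⟩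
  have hle : ∀ x y : D, x ≤ y ↔ (x.val ≤ y.val ∨ y.val = o) := fun x y => Iff.rfl
  let φ : closure C → D := fun x => ⟨x.1, x.2⟩
  have hφ : Continuous φ := by
    have h0 : tD = TopologicalSpace.generateFrom {s | ∃ a : D, s = Ioi a ∨ s = Iio a} :=
      oD.topology_eq_generate_intervals
    rw [h0]
    refine continuous_generateFrom_iff.2 ?_
    rintro s ⟨a, rfl | rfl⟩
    · by_cases ha : a.val = o
      · have h1 : φ ⁻¹' (Ioi a) = ∅ := by
          ext x
          simp only [mem_preimage, mem_Ioi, mem_empty_iff_false, iff_false, not_lt]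
          exact Or.inr ha
        rw [h1]
        exact isOpen_empty
      · have h1 : φ ⁻¹' (Ioi a) = (Subtype.val ⁻¹' (Iic a.val) : Set (closure C))ᶜ := by
          ext x
          simp only [mem_preimage, mem_Ioi, mem_compl_iff, mem_Iic]
          rw [← not_le, hle]
          constructor
          · intro h h2
            exact h (Or.inl h2)
          · rintro h (h2 | h2)
            · exact h h2
            · exact ha h2
        rw [h1]
        exact ((hT.clopen a.val ha).isClosed.preimage continuous_subtype_val).isOpen_compl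
    · rw [isOpen_iff_forall_mem_open]
      intro x hx
      have hx1 : ¬ (a.val ≤ x.1 ∨ x.1 = o) := fun h => (not_le.2 (mem_Iio.1 hx)) ((hle a (φ x)).2 h)
      obtain ⟨hx2, hx3⟩ := not_or.1 hx1
      refine ⟨Subtype.val ⁻¹' (Iic x.1), ?_, (hT.clopen x.1 hx3).isOpen.preimage continuous_subtype_val,
        le_refl x.1⟩
      intro z hz
      have hz' : z.1 ≤ x.1 := hz
      refine mem_Iio.2 (lt_of_not_ge (a := φ z) (b := a) fun h => ?_)
      rcases (hle a (φ z)).1 h with h | h
      · exact hx2 (le_trans h hz')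
      · exact hne z.1 x.1 hx3 hz' h
  have hbij : Function.Bijective φ := by
    constructor
    · intro x y hxy
      exact Subtype.ext (congrArg CLT_T.val hxy)
    · intro x
      exact ⟨⟨x.val, x.mem⟩, rfl⟩
  have cD : CompactSpace D := by
    refine ⟨?_⟩
    rw [← hbij.2.range_eq]
    exact isCompact_range hφ
  let ψ : closure C ≃ₜ D := Continuous.homeoOfEquivCompactToT2 (f := Equiv.ofBijective φ hbij) hφ
  have hψ : ∀ x, ψ x = φ x := fun x => rfl
  have hψs : ∀ x : D, (ψ.symm x).1 = x.val := by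
    intro x
    have h1 := hψ (ψ.symm x)
    rw [ψ.apply_symm_apply] at h1
    exact (congrArg CLT_T.val h1).symm
  have hsc : Scat D := by
    intro S hS
    by_cases h : ∃ x ∈ S, x.val ≠ o
    · obtain ⟨m, ⟨hm1, hm2⟩, hm3⟩ := (InvImage.wf (fun x : D => x.val) hT.wf).has_min
        {x : D | x ∈ S ∧ x.val ≠ o} h
      have hV : IsOpen (Subtype.val ⁻¹' (Iic m.val) : Set (closure C)) :=
        (hT.clopen m.val hm2).isOpen.preimage continuous_subtype_val
      refine ⟨m, hm1, ψ.symm ⁻¹' (Subtype.val ⁻¹' (Iic m.val)), (hV.preimage ψ.symm.continuous).mem_nhds ?_, ?_⟩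
      · change (ψ.symm m).1 ≤ m.val
        rw [hψs]
      intro z hz hzS
      have hz' : (ψ.symm z).1 ≤ m.val := hz
      rw [hψs] at hz'
      have hzo : z.val ≠ o := hne _ _ hm2 hz'
      by_contra hzm
      refine hm3 z ⟨hzS, hzo⟩ ?_
      exact lt_of_le_of_ne hz' fun e => hzm (ext _ _ e)
    · obtain ⟨x, hx⟩ := hS
      refine ⟨x, hx, Set.univ, Filter.univ_mem, ?_⟩
      intro z _ hz
      have h1 : x.val = o := by
        by_contra h2
        exact h ⟨x, hx, h2⟩
      have h3 : z.val = o := by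
        by_contra h2
        exact h ⟨z, hz, h2⟩
      exact ext _ _ (h3.trans h1.symm)
  exact Cl1.img D (closure C) inferInstance inferInstance ψ.symm inferInstance ψ.symm.continuous ψ.symm.surjective
    (CLF_lo D hsc)

/-- the nodes above `t` with values `< q` are covered by finitely many chains -/
def CLT_FC {L : Type} [PartialOrder L] (ρ : L → ℝ) (t : L) (q : ℝ) : Prop :=
  ∃ (k : ℕ) (C : Fin k → Set L), (∀ i, IsChain (· ≤ ·) (C i)) ∧ {u | t ≤ u ∧ ρ u < q} ⊆ ⋃ i, C i

theorem CLT_main (L : Type) [TopologicalSpace L] [CompactSpace L] [T2Space L] [PartialOrder L] (o : L)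
    (hT : TreeTop L o) (ρ : L → ℝ) (hm : ∀ s t : L, s ≤ t → ρ s ≤ ρ t)
    (hb : ∀ t : L, t ≠ o → ∃ ε : ℝ, 0 < ε ∧ CLT_FC ρ t (ρ t + ε)) : Cl1 L inferInstance := by
  classical
  obtain ⟨e, he⟩ := exists_surjective_nat ℚ
  have hne : ∀ s t : L, t ≠ o → s ≤ t → s ≠ o := by
    rintro s t ht hst rfl
    exact ht (hT.up t hst)
  have hmono : ∀ s t : L, s ≤ t → ∀ q : ℝ, CLT_FC ρ s q → CLT_FC ρ t q := by
    rintro s t hst q ⟨k, C, h1, h2⟩
    exact ⟨k, C, h1, fun u hu => h2 ⟨le_trans hst hu.1, hu.2⟩⟩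
  let T : ℕ → Set L := fun n => {t | t ≠ o ∧ ρ t < e n ∧ CLT_FC ρ t (e n)}
  let E : ∀ n, {m : L // m ∈ T n ∧ ∀ s, s ∈ T n → s ≤ m → s = m} → Set L := fun n m => {t | t ∈ T n ∧ m.1 ≤ t}
  have hU : ∀ n, (⋃ m, E n m) = T n := by
    intro n
    ext t
    constructor
    · intro ht
      obtain ⟨m, hm2⟩ := mem_iUnion.1 ht
      exact hm2.1
    · intro ht
      obtain ⟨m, ⟨hm1, hm2⟩, hm3⟩ := hT.wf.has_min {s | s ≤ t ∧ s ∈ T n} ⟨t, le_refl t, ht⟩
      refine mem_iUnion.2 ⟨⟨m, hm2, ?_⟩, ht, hm1⟩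
      intro s hs hsm
      by_contra hne2
      exact hm3 s ⟨le_trans hsm hm1, hs⟩ (lt_of_le_of_ne hsm hne2)
  have hopen : ∀ n, IsOpen {t : L | t ≠ o ∧ ρ t < e n} := by
    intro n
    rw [isOpen_iff_forall_mem_open]
    rintro t ⟨ht1, ht2⟩
    refine ⟨Iic t, ?_, (hT.clopen t ht1).isOpen, le_refl t⟩
    intro s hs
    exact ⟨hne s t ht1 hs, lt_of_le_of_lt (hm s t hs) ht2⟩
  have ho : Cl1 ({o} : Set L) inferInstance := by
    refine Cl1.img Unit _ inferInstance inferInstance (fun _ => ⟨o, rfl⟩) inferInstance continuous_const ?_ CLG_unit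
    rintro ⟨x, hx⟩
    exact ⟨(), Subtype.ext (Eq.symm hx)⟩
  refine Cl1.sig L inferInstance {o} (fun n => {m : L // m ∈ T n ∧ ∀ s, s ∈ T n → s ≤ m → s = m}) E inferInstance
    inferInstance ?_ ho ?_
  · refine ⟨isClosed_singleton, ?_, ?_, ?_, ?_⟩
    · intro n
      refine ⟨closure (T n), {t : L | t ≠ o ∧ ρ t < e n}ᶜ, isClosed_closure, (hopen n).isClosed_compl, ?_⟩
      rw [hU]
      ext t
      constructor
      · intro ht
        refine ⟨subset_closure ht, ?_⟩
        intro h
        exact h ⟨ht.1, ht.2.1⟩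
      · rintro ⟨ht1, ht2⟩
        have ht3 : t ≠ o ∧ ρ t < e n := not_not.1 ht2
        obtain ⟨s, hs1, hs2⟩ := mem_closure_iff.1 ht1 (Iic t) (hT.clopen t ht3.1).isOpen (le_refl t)
        exact ⟨ht3.1, ht3.2, hmono s t hs1 _ hs2.2.2⟩
    · intro n m m' t hmt hmt'
      rcases hT.chain t m.1 m'.1 hmt.2 hmt'.2 with h | h
      · exact Subtype.ext (m'.2.2 m.1 m.2.1 h)
      · exact Subtype.ext (m.2.2 m'.1 m'.2.1 h).symm
    · intro n m t ht
      refine ⟨Iic t, (hT.clopen t ht.1.1).isOpen.mem_nhds (le_refl t), ?_⟩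
      intro s hs hs2
      rw [hU] at hs2
      refine ⟨hs2, ?_⟩
      rcases hT.chain t m.1 s ht.2 hs with h | h
      · exact h
      · exact (m.2.2 s hs2 h).ge
    · intro t ht
      obtain ⟨ε, hε, h⟩ := hb t ht
      obtain ⟨q, hq1, hq2⟩ := exists_rat_btwn (show ρ t < ρ t + ε by linarith)
      obtain ⟨n, hn⟩ := he q
      refine ⟨n, ?_⟩
      rw [hU]
      refine ⟨ht, ?_, ?_⟩
      · rw [hn]
        exact hq1
      · rw [hn]
        obtain ⟨k, C, h1, h2⟩ := h
        exact ⟨k, C, h1, fun u hu => h2 ⟨hu.1, lt_trans hu.2 hq2⟩⟩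
  · intro n m
    obtain ⟨k, C, h1, h2⟩ := m.2.1.2.2
    refine CLT_un (ι := Fin k) (closure (E n m)) (fun i => closure (C i ∩ E n m)) ?_ ?_
    · have h3 : E n m = ⋃ i, (C i ∩ E n m) := by
        ext t
        constructor
        · intro ht
          obtain ⟨i, hi⟩ := mem_iUnion.1 (h2 ⟨ht.2, ht.1.2.1⟩)
          exact mem_iUnion.2 ⟨i, hi, ht⟩
        · intro ht
          obtain ⟨i, hi⟩ := mem_iUnion.1 ht
          exact hi.2
      rw [← closure_iUnion_of_finite, ← h3]
    · intro i
      exact CLT_chain o hT _ ((h1 i).mono inter_subset_left)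

end HCL
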