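import Pool.Agent.HCL.Defs

/-!
# HCL, module CSL: closed covers which are locally finite off a closed set (helper42)
-/

set_option autoImplicit false

namespace HCL

open Set Topology SDN Filter

theorem CSL_image {X Y : Type} [TopologicalSpace X] [TopologicalSpace Y] {G : Set X} {G' : Set Y} (φ : X → Y)
    (hφ : ContinuousOn φ G) (hG : IsCompact G) (hi : φ '' G = G') (h : GdS G) : GdS G' := by
  intro hc
  have hGc : CompactSpace G := isCompact_iff_compactSpace.1 hG
  subst hi
  let ψ : C(G, φ '' G) := ⟨fun x => ⟨φ x.1, mem_image_of_mem φ x.2⟩,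
    (continuousOn_iff_continuous_domRestrict.1 hφ).subtype_mk _⟩
  refine thm_PD.2.2.1 G (φ '' G) ψ ?_ (h hGc)
  rintro ⟨y, x, hx, rfl⟩
  exact ⟨⟨x, hx⟩, rfl⟩

theorem CSL_inj {X Y : Type} [TopologicalSpace X] [TopologicalSpace Y] [T2Space Y] {G : Set X} (φ : X → Y)
    (hφ : ContinuousOn φ G) (hG : IsCompact G) (hinj : InjOn φ G) (h : GdS (φ '' G)) : GdS G := by
  intro hc
  have hGc : CompactSpace G := isCompact_iff_compactSpace.1 hG
  have hc' : CompactSpace (φ '' G) := isCompact_iff_compactSpace.1 (hG.image_of_continuousOn hφ)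
  let e : G ≃ (φ '' G) := Equiv.Set.imageOfInjOn φ G hinj
  have he : Continuous e := (continuousOn_iff_continuous_domRestrict.1 hφ).subtype_mk _
  let ψ : C(φ '' G, G) := ⟨e.symm, (he.homeoOfEquivCompactToT2).symm.continuous⟩
  exact thm_PD.2.2.1 (φ '' G) G ψ e.symm.surjective (h hc')

theorem CSL_sub {X : Type} [TopologicalSpace X] (G : Set X) (hG : G.Subsingleton) : GdS G := by
  intro hc
  have : Subsingleton G := ⟨fun a b => Subtype.ext (hG a.2 b.2)⟩
  exact thm_PD.1 G

theorem CSL_count {X : Type} [TopologicalSpace X] [T2Space X] (G : Set X) (hG : G.Countable) : GdS G := by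
  intro hc
  rcases isEmpty_or_nonempty G with hE | hN
  · have : Subsingleton G := ⟨fun a _ => (hE.false a).elim⟩
    exact thm_PD.1 G
  · have : Countable G := hG.to_subtype
    obtain ⟨f, hf⟩ := exists_surjective_nat G
    refine Fin_SD G (fun n => {f n}) ⟨?_, ?_⟩
    · intro n y hy
      refine ⟨univ, univ_mem, ?_⟩
      intro z _ hz
      rw [mem_singleton_iff] at hy hz
      rw [hy, hz]
    · intro y
      obtain ⟨n, hn⟩ := hf y
      exact ⟨n, hn.symm⟩

/-- closed covers which are locally finite off a closed set -/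
theorem CSL_cover {X : Type} [TopologicalSpace X] [CompactSpace X] [T2Space X] (G F : Set X) (I : Type)
    (B : I → Set X) (hG : IsClosed G) (hF : IsClosed F) (hB : ∀ i, IsClosed (B i)) (hFG : F ⊆ G)
    (hBG : ∀ i, B i ⊆ G) (hcov : ∀ x ∈ G, x ∉ F → ∃ i, x ∈ B i)
    (hfin : ∀ x ∈ G, x ∉ F → ∃ V ∈ 𝓝 x, {i | (B i ∩ V).Nonempty}.Finite)
    (h0 : GdS F) (h1 : ∀ i, GdS (B i)) : GdS G := by
  classical
  have hGc : IsCompact G := hG.isCompact
  let _ : TopologicalSpace I := ⊥
  have _ : DiscreteTopology I := ⟨rfl⟩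
  let Z : Set (OnePoint I × X) :=
    {p | (p.1 = OnePoint.infty ∧ p.2 ∈ F) ∨ ∃ i : I, p.1 = (i : OnePoint I) ∧ p.2 ∈ B i}
  have hZ : IsClosed Z := by
    rw [← isOpen_compl_iff, isOpen_iff_mem_nhds]
    rintro ⟨o, x⟩ hx
    induction o using OnePoint.rec with
    | infty =>
      have hxF : x ∉ F := fun h => hx (Or.inl ⟨rfl, h⟩)
      by_cases hxG : x ∈ G
      · obtain ⟨V, hV, hVf⟩ := hfin x hxG hxF
        have hU : ((fun i : I => (i : OnePoint I)) '' {i | (B i ∩ V).Nonempty})ᶜ ∈
            𝓝 (OnePoint.infty : OnePoint I) := by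
          refine IsOpen.mem_nhds ?_ ?_
          · rw [isOpen_compl_iff]
            exact (hVf.image _).isClosed
          · rintro ⟨i, -, hi⟩
            exact OnePoint.coe_ne_infty _ hi
        have hV2 : V ∩ Fᶜ ∈ 𝓝 x := Filter.inter_mem hV (hF.isOpen_compl.mem_nhds hxF)
        filter_upwards [prod_mem_nhds hU hV2]
        rintro ⟨o, z⟩ ⟨ho, hz⟩ hcon
        rcases hcon with ⟨-, h⟩ | ⟨i, hi, h⟩
        · exact hz.2 h
        · apply ho
          refine ⟨i, ⟨z, h, hz.1⟩, hi.symm⟩
      · have hV2 : Gᶜ ∈ 𝓝 x := hG.isOpen_compl.mem_nhds hxG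
        filter_upwards [prod_mem_nhds (univ_mem : (univ : Set (OnePoint I)) ∈ 𝓝 OnePoint.infty) hV2]
        rintro ⟨o, z⟩ ⟨-, hz⟩ hcon
        rcases hcon with ⟨-, h⟩ | ⟨i, -, h⟩
        · exact hz (hFG h)
        · exact hz (hBG i h)
    | coe i =>
      have hxB : x ∉ B i := fun h => hx (Or.inr ⟨i, rfl, h⟩)
      have hU : {(i : OnePoint I)} ∈ 𝓝 (i : OnePoint I) := by
        refine IsOpen.mem_nhds ?_ rfl
        have h := OnePoint.isOpen_image_coe.2 (isOpen_discrete ({i} : Set I))
        rwa [image_singleton] at h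
      filter_upwards [prod_mem_nhds hU ((hB i).isOpen_compl.mem_nhds hxB)]
      rintro ⟨o, z⟩ ⟨ho, hz⟩ hcon
      have ho' : o = (i : OnePoint I) := ho
      rcases hcon with ⟨h', -⟩ | ⟨j, hj, h⟩
      · have h2 : (i : OnePoint I) = OnePoint.infty := ho'.symm.trans h'
        exact OnePoint.coe_ne_infty _ h2
      · have h2 : (i : OnePoint I) = (j : OnePoint I) := ho'.symm.trans hj
        have h3 : i = j := OnePoint.coe_injective h2
        subst h3
        exact hz h
  have hZc : CompactSpace Z := isCompact_iff_compactSpace.1 hZ.isCompact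
  let π : C(Z, OnePoint I) := ⟨fun z => z.1.1, continuous_fst.comp continuous_subtype_val⟩
  let D : ℕ → Set (OnePoint I) := fun n => if n = 0 then {OnePoint.infty} else range (fun i : I => (i : OnePoint I))
  have hD : SigmaDiscrete D := by
    refine ⟨?_, ?_⟩
    · intro n y hy
      by_cases hn : n = 0
      · refine ⟨univ, univ_mem, ?_⟩
        intro z _ hz
        simp only [D, if_pos hn, mem_singleton_iff] at hy hz
        rw [hy, hz]
      · simp only [D, if_neg hn] at hy
        obtain ⟨i, rfl⟩ := hy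
        refine ⟨{(i : OnePoint I)}, ?_, fun z hz _ => hz⟩
        refine IsOpen.mem_nhds ?_ rfl
        have h := OnePoint.isOpen_image_coe.2 (isOpen_discrete ({i} : Set I))
        rwa [image_singleton] at h
    · intro y
      induction y using OnePoint.rec with
      | infty => exact ⟨0, by simp [D]⟩
      | coe i => exact ⟨1, by simp [D]⟩
  have hZg : GoodK Z := by
    refine Fin_FB Z (OnePoint I) D π hD ?_
    intro y
    induction y using OnePoint.rec with
    | infty =>
      change GdS (π ⁻¹' {OnePoint.infty})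
      by_cases hFe : (F : Set X) = ∅
      · refine CSL_sub _ ?_
        rintro ⟨⟨o, x⟩, hx⟩ ho
        have ho' : o = OnePoint.infty := ho
        rcases hx with ⟨-, h⟩ | ⟨i, hi, -⟩
        · rw [hFe] at h
          exact absurd h (notMem_empty _)
        · exact absurd (hi.symm.trans ho') (OnePoint.coe_ne_infty _)
      · obtain ⟨x0, hx0⟩ := nonempty_iff_ne_empty.2 hFe
        let z0 : Z := ⟨(OnePoint.infty, x0), Or.inl ⟨rfl, hx0⟩⟩
        let φ : X → Z := fun x => if h : x ∈ F then ⟨(OnePoint.infty, x), Or.inl ⟨rfl, h⟩⟩ else z0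
        refine CSL_image (G := F) φ ?_ hF.isCompact ?_ h0
        · rw [continuousOn_iff_continuous_domRestrict]
          have : F.domRestrict φ = fun x : F => (⟨(OnePoint.infty, x.1), Or.inl ⟨rfl, x.2⟩⟩ : Z) := by
            funext x
            simp only [domRestrict_apply, φ, dif_pos x.2]
          rw [this]
          exact (continuous_const.prodMk continuous_subtype_val).subtype_mk _
        · ext ⟨⟨o, x⟩, hx⟩
          constructor
          · rintro ⟨x', hx', he⟩
            simp only [φ, dif_pos hx'] at he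
            have h2 := congrArg (fun z : Z => z.1.1) he
            exact h2.symm
          · intro ho
            have ho' : o = OnePoint.infty := ho
            rcases hx with ⟨h', h⟩ | ⟨i, hi, h⟩
            · refine ⟨x, h, ?_⟩
              simp only [φ, dif_pos (show x ∈ F from h)]
              exact Subtype.ext (Prod.ext ho'.symm rfl)
            · exact absurd (hi.symm.trans ho') (OnePoint.coe_ne_infty _)
    | coe i =>
      change GdS (π ⁻¹' {(i : OnePoint I)})
      by_cases hFe : (B i : Set X) = ∅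
      · refine CSL_sub _ ?_
        rintro ⟨⟨o, x⟩, hx⟩ ho
        have ho' : o = (i : OnePoint I) := ho
        rcases hx with ⟨h', -⟩ | ⟨j, hj, h⟩
        · exact absurd (ho'.symm.trans h') (OnePoint.coe_ne_infty _)
        · have h3 : i = j := OnePoint.coe_injective (ho'.symm.trans hj)
          subst h3
          rw [hFe] at h
          exact absurd h (notMem_empty _)
      · obtain ⟨x0, hx0⟩ := nonempty_iff_ne_empty.2 hFe
        let z0 : Z := ⟨((i : OnePoint I), x0), Or.inr ⟨i, rfl, hx0⟩⟩
        let φ : X → Z := fun x => if h : x ∈ B i then ⟨((i : OnePoint I), x), Or.inr ⟨i, rfl, h⟩⟩ else z0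
        refine CSL_image (G := B i) φ ?_ (hB i).isCompact ?_ (h1 i)
        · rw [continuousOn_iff_continuous_domRestrict]
          have : (B i).domRestrict φ = fun x : B i => (⟨((i : OnePoint I), x.1), Or.inr ⟨i, rfl, x.2⟩⟩ : Z) := by
            funext x
            simp only [domRestrict_apply, φ, dif_pos x.2]
          rw [this]
          exact (continuous_const.prodMk continuous_subtype_val).subtype_mk _
        · ext ⟨⟨o, x⟩, hx⟩
          constructor
          · rintro ⟨x', hx', he⟩
            simp only [φ, dif_pos hx'] at he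
            have h2 := congrArg (fun z : Z => z.1.1) he
            exact h2.symm
          · intro ho
            have ho' : o = (i : OnePoint I) := ho
            rcases hx with ⟨h', h⟩ | ⟨j, hj, h⟩
            · exact absurd (ho'.symm.trans h') (OnePoint.coe_ne_infty _)
            · have h3 : i = j := OnePoint.coe_injective (ho'.symm.trans hj)
              subst h3
              refine ⟨x, h, ?_⟩
              simp only [φ, dif_pos (show x ∈ B i from h)]
              exact Subtype.ext (Prod.ext ho'.symm rfl)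
  intro hc
  have hmem : ∀ z : Z, z.1.2 ∈ G := by
    rintro ⟨⟨o, x⟩, hx⟩
    rcases hx with ⟨-, h⟩ | ⟨i, -, h⟩
    · exact hFG h
    · exact hBG i h
  let ρ : C(Z, G) := ⟨fun z => ⟨z.1.2, hmem z⟩, (continuous_snd.comp continuous_subtype_val).subtype_mk _⟩
  refine thm_PD.2.2.1 Z G ρ ?_ hZg
  rintro ⟨x, hx⟩
  by_cases hxF : x ∈ F
  · exact ⟨⟨(OnePoint.infty, x), Or.inl ⟨rfl, hxF⟩⟩, rfl⟩
  · obtain ⟨i, hi⟩ := hcov x hx hxF
    exact ⟨⟨((i : OnePoint I), x), Or.inr ⟨i, rfl, hi⟩⟩, rfl⟩

theorem CSL_iUnion {X I : Type} [TopologicalSpace X] [CompactSpace X] [T2Space X] [Finite I] (B : I → Set X)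
    (hB : ∀ i, IsClosed (B i)) (h : ∀ i, GdS (B i)) : GdS (⋃ i, B i) := by
  refine CSL_cover (⋃ i, B i) ∅ I B (isClosed_iUnion_of_finite hB) isClosed_empty hB (empty_subset _)
    (fun i => subset_iUnion B i) (fun x hx _ => mem_iUnion.1 hx) ?_ (CSL_sub _ subsingleton_empty) h
  intro x _ _
  exact ⟨univ, univ_mem, toFinite _⟩

theorem CSL_union {X : Type} [TopologicalSpace X] [CompactSpace X] [T2Space X] {A B : Set X}
    (hA : IsClosed A) (hB : IsClosed B) (h1 : GdS A) (h2 : GdS B) : GdS (A ∪ B) := by
  have h := CSL_iUnion (I := Bool) (fun b => cond b A B)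
    (fun b => by cases b <;> assumption) (fun b => by cases b <;> assumption)
  rwa [← union_eq_iUnion] at h

end HCL
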