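import Pool.Agent.SDN.Fin

/-!
# HCL: closed subspaces of products of scattered ordered spaces (MP_3b2a37_an). Definitions
-/

set_option autoImplicit false

namespace HCL

open Set Topology SDN Cardinal

/-- the subspace `G` is in the class `GoodK` -/
def GdS {X : Type} [TopologicalSpace X] (G : Set X) : Prop :=
  ∀ h : CompactSpace G, @GoodK G _ h

/-- the closed sets on which `u` has values in `S` are in the class `GoodK` -/
def PG {X L : Type} [TopologicalSpace X] (u : X → L) (S : Set L) : Prop :=
  ∀ G : Set X, IsClosed G → (∀ x ∈ G, u x ∈ S) → GdS G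

/-- `R` is countable or a monotone image of `[0, κ]`, `κ` a regular uncountable cardinal -/
def Reg {L : Type} [LinearOrder L] (R : Set L) : Prop :=
  R.Countable ∨ ∃ κ : Cardinal.{0}, κ.IsRegular ∧ ℵ₀ < κ ∧ ∃ e : WithTop κ.ord.ToType → L,
    (StrictMono e ∨ StrictAnti e) ∧ range e = R

end HCL
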