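import Pool.Agent.HCL.CSL

/-!
# HCL, module GAP: a closed set of values and its gaps (helper42)
-/

set_option autoImplicit false

namespace HCL

open Set Topology SDN Filter

theorem GAP_main {X L : Type} [TopologicalSpace X] [CompactSpace X] [T2Space X] [LinearOrder L]
    [TopologicalSpace L] [OrderTopology L] [CompactSpace L] (u : X → L) (hu : Continuous u) (S : Set L)
    (hS : IsClosed S) (G : Set X) (hG : IsClosed G)
    (hb : ∀ x ∈ G, ∃ s ∈ S, ∃ t ∈ S, s ≤ u x ∧ u x ≤ t) (h0 : GdS (G ∩ u ⁻¹' S))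
    (h1 : ∀ s ∈ S, ∀ t ∈ S, s < t → (∀ r ∈ S, ¬ (s < r ∧ r < t)) → (∃ x ∈ G, s < u x ∧ u x < t) →
      GdS (G ∩ u ⁻¹' Icc s t)) : GdS G := by
  let I : Type := {p : L × L // p.1 ∈ S ∧ p.2 ∈ S ∧ p.1 < p.2 ∧ (∀ r ∈ S, ¬ (p.1 < r ∧ r < p.2)) ∧
    ∃ x ∈ G, p.1 < u x ∧ u x < p.2}
  have key : ∀ x ∈ G, u x ∉ S → ∃ s ∈ S, ∃ t ∈ S, s < u x ∧ u x < t ∧ ∀ r ∈ S, ¬ (s < r ∧ r < t) := by
    intro x hx hxS
    obtain ⟨s0, hs0, t0, ht0, h2, h3⟩ := hb x hx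
    obtain ⟨s, ⟨hsS, hsx⟩, hsm⟩ := ((hS.inter isClosed_Iic).isCompact).exists_isGreatest ⟨s0, hs0, h2⟩
    obtain ⟨t, ⟨htS, htx⟩, htm⟩ := ((hS.inter isClosed_Ici).isCompact).exists_isLeast ⟨t0, ht0, h3⟩
    have hsx' : s < u x := lt_of_le_of_ne hsx (fun h => hxS (h ▸ hsS))
    have htx' : u x < t := lt_of_le_of_ne htx (fun h => hxS (h ▸ htS))
    refine ⟨s, hsS, t, htS, hsx', htx', ?_⟩
    rintro r hr ⟨hr1, hr2⟩
    rcases le_total r (u x) with h | h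
    · exact absurd (hsm ⟨hr, h⟩) (not_le.2 hr1)
    · exact absurd (htm ⟨hr, h⟩) (not_le.2 hr2)
  refine CSL_cover G (G ∩ u ⁻¹' S) I (fun p => G ∩ u ⁻¹' Icc p.1.1 p.1.2) hG
    (hG.inter (hS.preimage hu)) (fun p => hG.inter (isClosed_Icc.preimage hu)) inter_subset_left
    (fun p => inter_subset_left) ?_ ?_ h0 ?_
  · intro x hx hxF
    have hxS : u x ∉ S := fun h => hxF ⟨hx, h⟩
    obtain ⟨s, hs, t, ht, h2, h3, h4⟩ := key x hx hxS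
    exact ⟨⟨(s, t), hs, ht, h2.trans h3, h4, x, hx, h2, h3⟩, hx, h2.le, h3.le⟩
  · intro x hx hxF
    have hxS : u x ∉ S := fun h => hxF ⟨hx, h⟩
    obtain ⟨s, hs, t, ht, h2, h3, h4⟩ := key x hx hxS
    refine ⟨u ⁻¹' Ioo s t, (isOpen_Ioo.preimage hu).mem_nhds ⟨h2, h3⟩, ?_⟩
    refine (finite_singleton (⟨(s, t), hs, ht, h2.trans h3, h4, x, hx, h2, h3⟩ : I)).subset ?_
    rintro ⟨⟨s', t'⟩, hs', ht', hlt, hno, hex⟩ ⟨y, ⟨hyG, hy1, hy2⟩, hy3, hy4⟩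
    have hy1' : s' ≤ u y := hy1
    have hy2' : u y ≤ t' := hy2
    have hs'S : s' ∈ S := hs'
    have ht'S : t' ∈ S := ht'
    have h5 : s' ≤ s := by
      by_contra hcon
      exact h4 s' hs'S ⟨not_le.1 hcon, lt_of_le_of_lt hy1' hy4⟩
    have h6 : t ≤ t' := by
      by_contra hcon
      exact h4 t' ht'S ⟨lt_of_lt_of_le hy3 hy2', not_le.1 hcon⟩
    have h7 : s' = s := by
      by_contra hcon
      exact hno s hs ⟨lt_of_le_of_ne h5 hcon, lt_of_lt_of_le hy3 hy2'⟩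
    have h8 : t' = t := by
      by_contra hcon
      exact hno t ht ⟨lt_of_le_of_lt hy1' hy4, lt_of_le_of_ne h6 (Ne.symm hcon)⟩
    subst h7 h8
    rfl
  · rintro ⟨⟨s, t⟩, hs, ht, hlt, hno, hex⟩
    exact h1 s hs t ht hlt hno hex

end HCL
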