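import Pool.Agent.HCL.GLU
import Pool.Agent.HCL.CLG

/-!
# HCL, module GLF: the fibre theorem is a special case of the gluing theorem (helper42)
-/

set_option autoImplicit false

namespace HCL

open Set Topology Filter SDN

/-- strata from a map into a sigma-discrete space -/
theorem GLF_strata {K L : Type} [TopologicalSpace K] [TopologicalSpace L] [T1Space L] (D : ℕ → Set L) (π : K → L)
    (hπ : Continuous π) (F : Set K) (hF : IsClosed F)
    (hD : ∀ n, ∀ y ∈ D n, ∃ V ∈ 𝓝 y, ∀ z ∈ V, z ∈ D n → z = y) (hc : ∀ x, x ∉ F → ∃ n, π x ∈ D n) :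
    ∃ A B : ℕ → Set L, Strata F (fun n => π ⁻¹' (A n)) (fun n => π ⁻¹' (B n)) (fun n => D n)
      (fun _ y => π ⁻¹' {y.1}) := by
  choose A B hA hB hAB using fun n => CLG_lc (D n) (hD n)
  refine ⟨A, B, ?_⟩
  have h5 : ∀ n, (⋃ i : D n, π ⁻¹' {i.1}) = π ⁻¹' (D n) := by
    intro n
    ext x
    simp only [mem_iUnion, mem_preimage, mem_singleton_iff]
    constructor
    · rintro ⟨i, hi⟩
      rw [hi]
      exact i.2
    · intro hx
      exact ⟨⟨π x, hx⟩, rfl⟩
  refine ⟨hF, fun n => (hA n).preimage hπ, fun n => (hB n).preimage hπ, ?_, ?_, ?_, ?_⟩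
  · intro n
    rw [h5, ← preimage_sdiff, ← hAB]
  · intro n i j x hi hj
    exact Subtype.ext (Eq.trans (Eq.symm hi) hj)
  · intro n i x hx
    obtain ⟨V, hV, h⟩ := hD n i.1 i.2
    have hx' : π x = i.1 := hx
    refine ⟨π ⁻¹' V, hπ.continuousAt.preimage_mem_nhds (hx' ▸ hV), ?_⟩
    intro s hs hs2
    rw [h5] at hs2
    exact h (π s) hs hs2
  · intro x hx
    obtain ⟨n, hn⟩ := hc x hx
    refine ⟨n, ?_⟩
    rw [h5]
    exact hn

theorem GLF_cell {K L : Type} [TopologicalSpace K] (D : ℕ → Set L) (π : K → L) (F : Set K) (A B : ℕ → Set L)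
    (n : ℕ) (y : D n) (x : K) (hx : x ∈ π ⁻¹' {y.1}) (hxF : ∀ z, π z = π x → z ∉ F) :
    cell F (fun n => π ⁻¹' (A n)) (fun n => π ⁻¹' (B n)) (fun n => D n) (fun _ y => π ⁻¹' {y.1}) n y x =
      π ⁻¹' {y.1} := by
  ext z
  constructor
  · intro hz
    exact hz.1
  · intro hz
    have hx' : π x = y.1 := hx
    have hz' : π z = y.1 := hz
    refine ⟨hz, hxF z (hz'.trans hx'.symm), ?_⟩
    intro m _
    simp only [mem_preimage, hx', hz', and_self]

theorem GLF_fibre :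
    (∀ (K L : Type) [TopologicalSpace K] [CompactSpace K] [T2Space K] [TopologicalSpace L] [CompactSpace L]
      [T2Space L] (D : ℕ → Set L) (π : C(K, L)) (y0 : L), SigmaDiscrete D →
      (∀ y, y ≠ y0 → ∀ h : CompactSpace (π ⁻¹' {y}), @Close (π ⁻¹' {y}) _ h) →
      ((∀ h : CompactSpace (π ⁻¹' {y0}), @Smooth (π ⁻¹' {y0}) _ h) → Smooth K) ∧
        ((∀ h : CompactSpace (π ⁻¹' {y0}), @Close (π ⁻¹' {y0}) _ h) → Close K)) ∧
    (∀ (K L : Type) [TopologicalSpace K] [CompactSpace K] [T2Space K] [TopologicalSpace L] [CompactSpace L]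
      [T2Space L] (D : ℕ → Set L) (π : C(K, L)), SigmaDiscrete D →
      (∀ y, ∀ h : CompactSpace (π ⁻¹' {y}), @GoodK (π ⁻¹' {y}) _ h) → GoodK K) ∧
    (∀ (K : Type) [TopologicalSpace K] [CompactSpace K] [T2Space K] (F : Set K) (D : ℕ → Set K) [CompactSpace F],
      IsClosed F → (∀ n, ∀ y ∈ D n, ∃ V ∈ 𝓝 y, ∀ z ∈ V, z ∈ D n → z = y) → (∀ y, y ∉ F → ∃ n, y ∈ D n) →
      (Smooth F → Smooth K) ∧ (Close F → Close K) ∧ (GoodK F → GoodK K)) := by
  refine ⟨?_, ?_, ?_⟩
  · intro K L _ _ _ _ _ _ D π y0 hD hcl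
    have hF : IsClosed (π ⁻¹' {y0}) := isClosed_singleton.preimage π.continuous
    have hFc : CompactSpace (π ⁻¹' {y0}) := isCompact_iff_compactSpace.1 hF.isCompact
    obtain ⟨A, B, hS⟩ := GLF_strata (fun n => D n \ {y0}) π π.continuous (π ⁻¹' {y0}) hF (by
      rintro n y ⟨hy, -⟩
      obtain ⟨V, hV, h⟩ := hD.1 n y hy
      exact ⟨V, hV, fun z hz hz2 => h z hz hz2.1⟩) (by
      intro x hx
      obtain ⟨n, hn⟩ := hD.2 (π x)
      exact ⟨n, hn, hx⟩)
    obtain ⟨m1, m2⟩ := (GLU_main K (π ⁻¹' {y0}) _ _ _ _ hS).1 (by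
      intro n y x hx hxF _
      rw [GLF_cell (fun n => D n \ {y0}) π (π ⁻¹' {y0}) A B n y x hx (by
        intro z hz hzF
        exact hxF (hz.symm.trans hzF)), (isClosed_singleton.preimage π.continuous).closure_eq]
      exact hcl y.1 y.2.2)
    exact ⟨fun h => m1 (h hFc), fun h => m2 (h hFc)⟩
  · intro K L _ _ _ _ _ _ D π hD hG
    have hFc : CompactSpace (∅ : Set K) := isCompact_iff_compactSpace.1 isCompact_empty
    obtain ⟨A, B, hS⟩ := GLF_strata D π π.continuous (∅ : Set K) isClosed_empty hD.1 (fun x _ => hD.2 (π x))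
    refine (GLU_main K ∅ _ _ _ _ hS).2 ?_ (GLU_empty (∅ : Set K) rfl hFc)
    intro n y x hx hxF _
    rw [GLF_cell D π ∅ A B n y x hx (fun z _ => notMem_empty z),
      (isClosed_singleton.preimage π.continuous).closure_eq]
    exact hG y.1
  · intro K _ _ _ F D _ hF hD hc
    obtain ⟨A, B, hS⟩ := GLF_strata D id continuous_id F hF hD hc
    have hGd : ∀ n (y : D n), ∀ x ∈ (id ⁻¹' {y.1} : Set K), x ∉ F → GdS (closure
        (cell F (fun n => id ⁻¹' (A n)) (fun n => id ⁻¹' (B n)) (fun n => D n) (fun n y => id ⁻¹' {y.1}) n y x)) := by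
      intro n y x hx hxF
      rw [GLF_cell D id F A B n y x hx (by
        intro z hz
        have hz' : z = x := hz
        rw [hz']
        exact hxF), (isClosed_singleton.preimage continuous_id).closure_eq]
      refine CSL_sub _ ?_
      rintro a ha b hb
      exact Eq.trans ha (Eq.symm hb)
    obtain ⟨m1, m2⟩ := (GLU_main K F _ _ _ _ hS).1 fun n y x hx hxF _ h => thm_PD.2.2.2 _ (hGd n y x hx hxF h)
    exact ⟨m1, m2, (GLU_main K F _ _ _ _ hS).2 fun n y x hx hxF _ h => hGd n y x hx hxF h⟩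

end HCL
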