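import Pool.Agent.HCL.GLU

/-!
# HCL, module GLX: the gluing theorem for strata, for `C(K, X)` (helper42)
-/

set_option autoImplicit false

namespace HCL

open Set Topology Filter SDN

/-- `C(K, X)` has a norm, `C^∞` off `0`, between `a ‖f‖` and `b ‖f‖` -/
def SNX (K X : Type) [TopologicalSpace K] [CompactSpace K] [NormedAddCommGroup X] [NormedSpace ℝ X] (a b : ℝ) :
    Prop :=
  ∃ N : Seminorm ℝ C(K, X), (∀ f : C(K, X), a * ‖f‖ ≤ N f ∧ N f ≤ b * ‖f‖) ∧
    ∀ f : C(K, X), f ≠ 0 → ContDiffAt ℝ ((⊤ : ℕ∞) : WithTop ℕ∞) (⇑N) f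

/-- `C(K, X)` has an equivalent norm of class `C^∞` off `0` -/
def SmoothX (K X : Type) [TopologicalSpace K] [CompactSpace K] [NormedAddCommGroup X] [NormedSpace ℝ X] : Prop :=
  ∃ a b : ℝ, 0 < a ∧ 0 < b ∧ SNX K X a b

/-- `C(K, X)` has norms of class `C^∞` off `0` which are arbitrarily close to the supremum norm -/
def CloseX (K X : Type) [TopologicalSpace K] [CompactSpace K] [NormedAddCommGroup X] [NormedSpace ℝ X] : Prop :=
  ∀ ε : ℝ, 0 < ε → SNX K X 1 (1 + ε)

theorem GLX_res {K X : Type} [TopologicalSpace K] [CompactSpace K] [NormedAddCommGroup X] [NormedSpace ℝ X]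
    (F : Set K) [CompactSpace F] (s : ℝ) :
    ∃ R : C(K, X) →L[ℝ] C(F, X), ∀ f, R f = s • f.restrict F := by
  let R0 : C(K, X) →ₗ[ℝ] C(F, X) :=
    { toFun := fun f => s • f.restrict F
      map_add' := fun f g => by
        ext x
        simp
      map_smul' := fun c f => by
        ext x
        simp only [ContinuousMap.smul_apply, ContinuousMap.restrict_apply, RingHom.id_apply]
        rw [smul_comm] }
  refine ⟨R0.mkContinuous |s| ?_, fun f => rfl⟩
  intro f
  change ‖s • f.restrict F‖ ≤ |s| * ‖f‖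
  rw [norm_smul, Real.norm_eq_abs]
  refine mul_le_mul_of_nonneg_left ?_ (abs_nonneg s)
  refine (ContinuousMap.norm_le _ (norm_nonneg f)).2 ?_
  intro x
  exact f.norm_coe_le_norm x

theorem GLX_pull {K X : Type} [TopologicalSpace K] [CompactSpace K] [NormedAddCommGroup X] [NormedSpace ℝ X]
    (F : Set K) [CompactSpace F] (a b s : ℝ)
    (hs : 0 < s) (h : SNX F X a b) : ∃ q : Seminorm ℝ C(K, X),
      (∀ f, s * (a * ‖f.restrict F‖) ≤ q f) ∧ (∀ f, q f ≤ s * (b * ‖f.restrict F‖)) ∧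
      (∀ f, q f ≠ 0 → ContDiffAt ℝ ((⊤ : ℕ∞) : WithTop ℕ∞) (⇑q) f) := by
  obtain ⟨N, hN, hNs⟩ := h
  obtain ⟨R, hR⟩ := GLX_res (X := X) F s
  have hq : ∀ f, N.comp R.toLinearMap f = s * N (f.restrict F) := by
    intro f
    rw [Seminorm.comp_apply]
    change N (R f) = _
    rw [hR, map_smul_eq_mul, Real.norm_of_nonneg hs.le]
  refine ⟨N.comp R.toLinearMap, ?_, ?_, ?_⟩
  · intro f
    rw [hq]
    exact mul_le_mul_of_nonneg_left (hN _).1 hs.le
  · intro f
    rw [hq]
    exact mul_le_mul_of_nonneg_left (hN _).2 hs.le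
  · intro f hf
    have h1 : R f ≠ 0 := by
      intro h0
      apply hf
      rw [Seminorm.comp_apply]
      change N (R f) = 0
      rw [h0, map_zero]
    exact (hNs _ h1).comp f R.contDiff.contDiffAt

theorem GLX_core {K Γ X : Type} [TopologicalSpace K] [CompactSpace K] [T2Space K] [NormedAddCommGroup X]
    [NormedSpace ℝ X] [CompleteSpace X] (P : Γ → Set K)
    [hF : ∀ y, CompactSpace (closure (P y))] (y0 : Γ)
    (W C : ℝ) (β ω : Γ → ℝ) (hW : 0 < W) (hC : 1 ≤ C)
    (hβ : ∀ y, 1 ≤ β y) (hω : ∀ y, 0 < ω y) (hbw : ∀ y, β y + ω y ≤ 1 + W)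
    (hsep : ∀ t : K, ∃ γ, t ∈ P γ ∧ ∃ V ∈ 𝓝 t, ∀ γ', γ' ≠ γ → (P γ' ∩ V).Nonempty → β γ + ω γ ≤ β γ')
    (hcl : ∀ y, y ≠ y0 → CloseX (closure (P y)) X)
    (h0 : ∃ a b s : ℝ, 0 < s ∧ SNX (closure (P y0)) X a b ∧ s * b ≤ C ∧
      β y0 + ω y0 / 2 ≤ (β y0 + ω y0) * (s * a)) :
    ∃ N : Seminorm ℝ C(K, X), (∀ x, ‖x‖ ≤ (1 + W) * N x) ∧ (∀ x, N x ≤ C * ‖x‖) ∧
      ∀ x, x ≠ 0 → ContDiffAt ℝ ((⊤ : ℕ∞) : WithTop ℕ∞) (⇑N) x := by
  classical
  have hres : ∀ y (f : C(K, X)), ‖f.restrict (closure (P y))‖ ≤ ‖f‖ := by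
    intro y f
    refine (ContinuousMap.norm_le _ (norm_nonneg f)).2 ?_
    intro x
    exact f.norm_coe_le_norm x
  have hpt : ∀ y (f : C(K, X)) (k : K), k ∈ closure (P y) → ‖f k‖ ≤ ‖f.restrict (closure (P y))‖ := by
    intro y f k hk
    exact (f.restrict (closure (P y))).norm_coe_le_norm ⟨k, hk⟩
  have key : ∀ y, ∃ q : Seminorm ℝ C(K, X), (∀ f, ‖f.restrict (closure (P y))‖ * (β y + ω y / 2) ≤
      (β y + ω y) * q f) ∧ (y ≠ y0 → ∀ f, q f ≤ ‖f.restrict (closure (P y))‖) ∧
      (∀ f, q f ≤ C * ‖f.restrict (closure (P y))‖) ∧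
      (∀ f, q f ≠ 0 → ContDiffAt ℝ ((⊤ : ℕ∞) : WithTop ℕ∞) (⇑q) f) := by
    intro y
    have hb := hβ y
    have hw := hω y
    by_cases hy : y = y0
    · subst hy
      obtain ⟨a, b, s, hs, hSN, hsb, hsa⟩ := h0
      obtain ⟨q, hq1, hq2, hq3⟩ := GLX_pull (X := X) (closure (P y)) a b s hs hSN
      refine ⟨q, ?_, fun h => absurd rfl h, ?_, hq3⟩
      · intro f
        have h1 := hq1 f
        have h2 := norm_nonneg (f.restrict (closure (P y)))
        have h3 : (β y + ω y) * (s * (a * ‖f.restrict (closure (P y))‖)) ≤ (β y + ω y) * q f :=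
          mul_le_mul_of_nonneg_left h1 (by linarith)
        have h4 := mul_le_mul_of_nonneg_right hsa h2
        calc ‖f.restrict (closure (P y))‖ * (β y + ω y / 2)
            = (β y + ω y / 2) * ‖f.restrict (closure (P y))‖ := mul_comm _ _
          _ ≤ (β y + ω y) * (s * a) * ‖f.restrict (closure (P y))‖ := h4
          _ = (β y + ω y) * (s * (a * ‖f.restrict (closure (P y))‖)) := by ring
          _ ≤ _ := h3
      · intro f
        have h1 := hq2 f
        have h2 := norm_nonneg (f.restrict (closure (P y)))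
        have h4 := mul_le_mul_of_nonneg_right hsb h2
        calc q f ≤ s * (b * ‖f.restrict (closure (P y))‖) := h1
          _ = s * b * ‖f.restrict (closure (P y))‖ := by ring
          _ ≤ _ := h4
    · have hbp : 0 < β y + ω y / 2 := by linarith
      set δ : ℝ := (ω y / 2) / (β y + ω y / 2) with hδ
      have hδp : 0 < δ := div_pos (by linarith) hbp
      have hδ2 : (1 + δ) * (β y + ω y / 2) = β y + ω y := by
        have : δ * (β y + ω y / 2) = ω y / 2 := div_mul_cancel₀ _ hbp.ne'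
        linarith
      have hs : 0 < (1 + δ)⁻¹ := inv_pos.2 (by linarith)
      obtain ⟨q, hq1, hq2, hq3⟩ := GLX_pull (X := X) (closure (P y)) 1 (1 + δ) (1 + δ)⁻¹ hs (hcl y hy δ hδp)
      have hq2' : ∀ f, q f ≤ ‖f.restrict (closure (P y))‖ := by
        intro f
        have h1 := hq2 f
        rwa [← mul_assoc, inv_mul_cancel₀ (by linarith : (1 + δ) ≠ 0), one_mul] at h1
      refine ⟨q, ?_, fun _ => hq2', ?_, hq3⟩
      · intro f
        have h1 := hq1 f
        rw [one_mul, inv_mul_le_iff₀ (by linarith)] at h1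
        calc ‖f.restrict (closure (P y))‖ * (β y + ω y / 2)
            ≤ (1 + δ) * q f * (β y + ω y / 2) := mul_le_mul_of_nonneg_right h1 hbp.le
          _ = (1 + δ) * (β y + ω y / 2) * q f := by ring
          _ = _ := by rw [hδ2]
      · intro f
        have h2 := norm_nonneg (f.restrict (closure (P y)))
        exact (hq2' f).trans (by nlinarith)
  choose Q hQ1 hQ2 hQ3 hQ4 using key
  have hLF : ∀ f : C(K, X), (∀ y, ‖f.restrict (closure (P y))‖ < β y + ω y) →
      ∃ (T : Finset Γ) (d : ℝ), 0 < d ∧ ∀ y, y ∉ T → Q y f < β y - d := by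
    intro f hf
    choose γ hγ V hV hVs using hsep
    set e : K → ℝ := fun t => (β (γ t) + ω (γ t) - ‖f.restrict (closure (P (γ t)))‖) / 2 with he
    have hep : ∀ t, 0 < e t := fun t => by
      have := hf (γ t)
      simp only [he]
      linarith
    have hloc : ∀ t, interior (V t) ∩ {s | ‖f s‖ < β (γ t) + ω (γ t) - e t} ∈ 𝓝 t := by
      intro t
      refine Filter.inter_mem (interior_mem_nhds.2 (hV t)) ?_
      refine (isOpen_lt f.continuous.norm continuous_const).mem_nhds ?_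
      have h1 := hpt (γ t) f t (subset_closure (hγ t))
      have h2 := hep t
      have h3 : ‖f.restrict (closure (P (γ t)))‖ = β (γ t) + ω (γ t) - 2 * e t := by
        simp only [he]
        ring
      change ‖f t‖ < β (γ t) + ω (γ t) - e t
      linarith
    obtain ⟨T0, hT0⟩ := CompactSpace.elim_nhds_subcover _ hloc
    obtain ⟨d, hd, hd2⟩ := MK_finmin T0 e hep
    refine ⟨insert y0 (T0.image γ), min d 1 / 2, by positivity, ?_⟩
    intro y hy
    have hy1 : y ≠ y0 := by
      rintro rfl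
      exact hy (Finset.mem_insert_self _ _)
    have hy2 : y ∉ T0.image γ := fun h => hy (Finset.mem_insert_of_mem h)
    refine lt_of_le_of_lt (hQ2 y hy1 f) ?_
    have hmd : min d 1 ≤ d := min_le_left _ _
    have hm1 : min d 1 ≤ 1 := min_le_right _ _
    have hm0 : 0 < min d 1 := lt_min hd one_pos
    rcases (P y).eq_empty_or_nonempty with hE | ⟨s0, hs0⟩
    · have h1 : ‖f.restrict (closure (P y))‖ ≤ 0 := by
        refine (ContinuousMap.norm_le _ le_rfl).2 ?_
        rintro ⟨k, hk⟩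
        rw [hE, closure_empty] at hk
        exact absurd hk (notMem_empty _)
      have h7 := hβ y
      linarith
    · have h1 : ‖f.restrict (closure (P y))‖ ≤ β y - d := by
        have hpt' : ∀ k ∈ closure (P y), ‖f k‖ ≤ β y - d := by
          intro k hk
          have h2 : k ∈ ⋃ x ∈ T0, interior (V x) ∩ {s | ‖f s‖ < β (γ x) + ω (γ x) - e x} := by
            rw [hT0]
            trivial
          simp only [mem_iUnion, exists_prop] at h2
          obtain ⟨t, ht, hk1, hk2⟩ := h2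
          have h3 : (P y ∩ V t).Nonempty := by
            obtain ⟨z, hz1, hz2⟩ := mem_closure_iff.1 hk (interior (V t)) isOpen_interior hk1
            exact ⟨z, hz2, interior_subset hz1⟩
          have h4 : y ≠ γ t := by
            rintro rfl
            exact hy2 (Finset.mem_image_of_mem γ ht)
          have h5 := hVs t y h4 h3
          have h6 := hd2 t ht
          have h7 : ‖f k‖ < β (γ t) + ω (γ t) - e t := hk2
          linarith
        refine (ContinuousMap.norm_le _ ?_).2 ?_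
        · exact (norm_nonneg _).trans (hpt' s0 (subset_closure hs0))
        · rintro ⟨k, hk⟩
          exact hpt' k hk
      linarith
  obtain ⟨N, hN1, hN2, hN3, -⟩ := MSP_main C(K, X) Γ W C β ω (fun y f => ‖f.restrict (closure (P y))‖) Q hW
    (by linarith) hβ hω hbw hLF
    (fun y f => (hQ3 y f).trans (mul_le_mul_of_nonneg_left (hres y f) (by linarith)))
    (fun y f => hQ1 y f) hQ4
  have hlow : ∀ x, ‖x‖ ≤ (1 + W) * N x := by
    refine hN1 (normSeminorm ℝ C(K, X)) ?_
    intro f c h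
    have hc : 0 ≤ c := (norm_nonneg _).trans (h y0).le
    refine (ContinuousMap.norm_le _ hc).2 ?_
    intro k
    obtain ⟨γ, hγ, -⟩ := hsep k
    exact (hpt γ f k (subset_closure hγ)).trans (h γ).le
  refine ⟨N, hlow, ?_, ?_⟩
  · intro x
    exact hN2 x _ (mul_nonneg (by linarith) (norm_nonneg x)) fun y =>
      (hQ3 y x).trans (mul_le_mul_of_nonneg_left (hres y x) (by linarith))
  · intro x hx
    refine hN3 x ?_
    intro h
    have h4 := hlow x
    rw [h, mul_zero] at h4
    exact hx (norm_le_zero_iff.1 h4)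

theorem GLX_sep {K Γ X : Type} [TopologicalSpace K] [CompactSpace K] [T2Space K] [NormedAddCommGroup X]
    [NormedSpace ℝ X] [CompleteSpace X] (P : Γ → Set K) (hP : Sep P)
    (y0 : Γ) (hcl : ∀ y, y ≠ y0 → ∀ h : CompactSpace (closure (P y)), @CloseX (closure (P y)) X _ h _ _) :
    ((∀ h : CompactSpace (closure (P y0)), @SmoothX (closure (P y0)) X _ h _ _) → SmoothX K X) ∧
      ((∀ h : CompactSpace (closure (P y0)), @CloseX (closure (P y0)) X _ h _ _) → CloseX K X) := by
  have hF : ∀ y, CompactSpace (closure (P y)) := fun y =>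
    isCompact_iff_compactSpace.1 (isClosed_closure.isCompact)
  have hcl' : ∀ y, y ≠ y0 → CloseX (closure (P y)) X := fun y hy => hcl y hy (hF y)
  constructor
  · intro h
    obtain ⟨a, b, ha, hb, hSN⟩ := h (hF y0)
    obtain ⟨β, ω, hβ, hω, hbw, hsep⟩ := hP 1 one_pos
    obtain ⟨N, hN1, hN2, hN3⟩ := GLX_core P y0 1 (max 1 (a⁻¹ * b)) β ω one_pos (le_max_left _ _)
      hβ hω hbw hsep hcl' ⟨a, b, a⁻¹, inv_pos.2 ha, hSN, le_max_right _ _, by
        rw [inv_mul_cancel₀ ha.ne', mul_one]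
        linarith [hω y0]⟩
    refine ⟨(1 + 1)⁻¹, max 1 (a⁻¹ * b), by norm_num, lt_of_lt_of_le one_pos (le_max_left _ _), N, ?_, hN3⟩
    intro f
    refine ⟨?_, hN2 f⟩
    rw [inv_mul_le_iff₀ (by norm_num)]
    exact hN1 f
  · intro h ε hε
    obtain ⟨β, ω, hβ, hω, hbw, hsep⟩ := hP ε hε
    have hb := hβ y0
    have hw := hω y0
    have hbp : 0 < β y0 + ω y0 / 2 := by linarith
    have hδp : 0 < (ω y0 / 2) / (β y0 + ω y0 / 2) := div_pos (by linarith) hbp
    obtain ⟨N, hN1, hN2, hN3⟩ := GLX_core P y0 ε 1 β ω hε le_rfl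
      hβ hω hbw hsep hcl' ⟨1, 1 + (ω y0 / 2) / (β y0 + ω y0 / 2),
        (1 + (ω y0 / 2) / (β y0 + ω y0 / 2))⁻¹, inv_pos.2 (by linarith), h (hF y0) _ hδp, by
          rw [inv_mul_cancel₀ (by linarith : (1 + (ω y0 / 2) / (β y0 + ω y0 / 2)) ≠ 0)], by
          have h1 : (1 + (ω y0 / 2) / (β y0 + ω y0 / 2)) * (β y0 + ω y0 / 2) = β y0 + ω y0 := by
            have : (ω y0 / 2) / (β y0 + ω y0 / 2) * (β y0 + ω y0 / 2) = ω y0 / 2 :=
              div_mul_cancel₀ _ hbp.ne'
            linarith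
          rw [mul_one, ← h1, mul_comm (1 + _) (β y0 + ω y0 / 2), mul_assoc,
            mul_inv_cancel₀ (by linarith : (1 + (ω y0 / 2) / (β y0 + ω y0 / 2)) ≠ 0), mul_one]⟩
    obtain ⟨R, hR⟩ : ∃ R : C(K, X) →L[ℝ] C(K, X), ∀ f, R f = (1 + ε) • f :=
      ⟨(1 + ε) • ContinuousLinearMap.id ℝ _, fun f => rfl⟩
    have hq : ∀ f, N.comp R.toLinearMap f = (1 + ε) * N f := by
      intro f
      rw [Seminorm.comp_apply]
      change N (R f) = _
      rw [hR, map_smul_eq_mul, Real.norm_of_nonneg (by linarith)]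
    refine ⟨N.comp R.toLinearMap, ?_, ?_⟩
    · intro f
      rw [hq, one_mul]
      refine ⟨hN1 f, mul_le_mul_of_nonneg_left ?_ (by linarith)⟩
      simpa using hN2 f
    · intro f hf
      have h1 : R f ≠ 0 := by
        rw [hR]
        exact smul_ne_zero (by linarith) hf
      exact (hN3 _ h1).comp f R.contDiff.contDiffAt

theorem GLX_empty (X : Type) [NormedAddCommGroup X] [NormedSpace ℝ X] (K : Type) [TopologicalSpace K] [CompactSpace K]
    [IsEmpty K] : CloseX K X := by
  intro ε hε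
  have h0 : ∀ f : C(K, X), f = 0 := fun f => ContinuousMap.ext fun x => isEmptyElim x
  refine ⟨0, ?_, fun f hf => absurd (h0 f) hf⟩
  intro f
  rw [h0 f]
  simp

theorem GLX_main (K X : Type) [TopologicalSpace K] [CompactSpace K] [T2Space K] [NormedAddCommGroup X]
    [NormedSpace ℝ X] [CompleteSpace X] (F : Set K) [hFc : CompactSpace F]
    (A B : ℕ → Set K) (I : ℕ → Type) (E : ∀ n, I n → Set K) (hS : Strata F A B I E)
    (h : ∀ n (i : I n), ∀ x ∈ E n i, x ∉ F → (∀ m < n, x ∉ A m \ B m) →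
      ∀ h : CompactSpace (closure (cell F A B I E n i x)), @CloseX (closure (cell F A B I E n i x)) X _ h _ _) :
      (SmoothX F X → SmoothX K X) ∧ (CloseX F X → CloseX K X) := by
  obtain ⟨Γ, P, y0, hP0, hP1, hP2⟩ := GLU_pieces F A B I E hS
  have h3 : closure (P y0) = F := by rw [hP0, hS.closed.closure_eq]
  have hcl : ∀ y, y ≠ y0 → ∀ h : CompactSpace (closure (P y)), @CloseX (closure (P y)) X _ h _ _ := by
    intro y hy hc
    rcases hP2 y hy with h4 | ⟨n, i, x, hx1, hx2, hx3, h4⟩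
    · have h5 : IsEmpty (closure (P y)) := by
        rw [h4, closure_empty]
        exact ⟨fun z => z.2.elim⟩
      exact GLX_empty X _
    · have h5 := h n i x hx1 hx2 hx3
      rw [← h4] at h5
      exact h5 hc
  obtain ⟨m1, m2⟩ := GLX_sep (X := X) P hP1 y0 hcl
  rw [h3] at m1 m2
  exact ⟨fun h => m1 fun _ => h, fun h => m2 fun _ => h⟩

end HCL
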