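import Pool.Agent.HCL.Defs

/-!
# HCL, module REG: regular closed subsets of closed well-ordered sets (helper42)
-/

set_option autoImplicit false

namespace HCL

open Set Topology Cardinal Ordinal

theorem REG_main {L : Type} [LinearOrder L] [TopologicalSpace L] [OrderTopology L] [CompactSpace L]
    (S : Set L) (hS : IsClosed S) (hwf : ∀ T : Set L, T ⊆ S → T.Nonempty → ∃ m ∈ T, ∀ t ∈ T, m ≤ t) (b : L)
    (_hb : b ∈ S) (hne : ∃ x ∈ S, x < b) (hlim : ∀ x ∈ S, x < b → ∃ y ∈ S, x < y ∧ y < b) :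
    ∃ R : Set L, R ⊆ S ∩ Iic b ∧ IsClosed R ∧ b ∈ R ∧ Reg R ∧ ∀ x ∈ S, x < b → ∃ r ∈ R, x < r ∧ r < b := by
  classical
  let T : Type := {x : L // x ∈ S ∧ x < b}
  have hwT : ∀ A : Set T, A.Nonempty → ∃ m ∈ A, ∀ t ∈ A, m ≤ t := by
    intro A hA
    obtain ⟨m, ⟨a, ha, rfl⟩, hm⟩ := hwf (Subtype.val '' A) (by rintro _ ⟨a, -, rfl⟩; exact a.2.1) (hA.image _)
    exact ⟨a, ha, fun t ht => hm t.1 ⟨t, ht, rfl⟩⟩
  have hWF : WellFoundedLT T := by
    refine ⟨WellFounded.wellFounded_iff_has_min.2 ?_⟩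
    intro A hA
    obtain ⟨m, hm, hm2⟩ := hwT A hA
    exact ⟨m, hm, fun t ht => not_lt.2 (hm2 t ht)⟩
  have hTne : Nonempty T := by
    obtain ⟨x, hx, hxb⟩ := hne
    exact ⟨⟨x, hx, hxb⟩⟩
  have hNM : NoMaxOrder T := by
    refine ⟨?_⟩
    rintro ⟨x, hx, hxb⟩
    obtain ⟨y, hy, h1, h2⟩ := hlim x hx hxb
    exact ⟨⟨y, hy, h2⟩, h1⟩
  obtain ⟨D0, hcof, htype⟩ := Ordinal.exists_ord_cof_eq T
  have hreg : (Order.cof T).IsRegular := ⟨Order.aleph0_le_cof, (Order.cof_ord_cof T).ge⟩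
  let D : Set L := Subtype.val '' D0
  let R : Set L := closure D
  have hDS : D ⊆ S ∩ Iic b := by
    rintro _ ⟨d, -, rfl⟩
    exact ⟨d.2.1, d.2.2.le⟩
  have hRS : R ⊆ S ∩ Iic b := closure_minimal hDS (hS.inter isClosed_Iic)
  have hRc : IsClosed R := isClosed_closure
  have hDc : ∀ x ∈ S, x < b → ∃ d ∈ D0, x < d.1 := by
    intro x hx hxb
    obtain ⟨y, hy, h1, h2⟩ := hlim x hx hxb
    obtain ⟨d, hd, h3⟩ := hcof (⟨y, hy, h2⟩ : T)
    exact ⟨d, hd, lt_of_lt_of_le h1 h3⟩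
  have hbR : b ∈ R := by
    by_contra hcon
    obtain ⟨x0, hx0, hx0b⟩ := hne
    obtain ⟨d0, hd0, -⟩ := hDc x0 hx0 hx0b
    obtain ⟨r, hr, hrm⟩ := hRc.isCompact.exists_isGreatest ⟨d0.1, subset_closure ⟨d0, hd0, rfl⟩⟩
    have hrb : r < b := lt_of_le_of_ne (hRS hr).2 (fun h => hcon (h ▸ hr))
    obtain ⟨d, hd, h1⟩ := hDc r (hRS hr).1 hrb
    exact absurd (hrm (subset_closure ⟨d, hd, rfl⟩)) (not_le.2 h1)
  let R0 : Type := {x : L // x ∈ R ∧ x < b}
  have hmid : ∀ x1 x2 : L, x1 < x2 → x2 ∈ R → x2 < b → ∃ d ∈ D0, x1 < d.1 ∧ d.1 ≤ x2 := by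
    intro x1 x2 h12 hx2 hx2b
    by_contra hcon
    push Not at hcon
    obtain ⟨d1, hd1, h1⟩ := hDc x2 (hRS hx2).1 hx2b
    obtain ⟨d0, ⟨hd0, h0⟩, hm⟩ := hwT {d | d ∈ D0 ∧ x2 < d.1} ⟨d1, hd1, h1⟩
    have h3 : D ⊆ Iic x1 ∪ Ici d0.1 := by
      rintro _ ⟨d, hd, rfl⟩
      rcases le_or_gt d.1 x1 with h | h
      · exact Or.inl h
      · exact Or.inr (hm d ⟨hd, hcon d hd h⟩)
    have h4 := closure_minimal h3 (isClosed_Iic.union isClosed_Ici) hx2
    rcases h4 with h | h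
    · exact absurd (show x2 ≤ x1 from h) (not_le.2 h12)
    · exact absurd (show d0.1 ≤ x2 from h) (not_le.2 h0)
  have hnu : ∀ x : R0, ∃ d : D0, x.1 < d.1.1 ∧ ∀ d' : D0, x.1 < d'.1.1 → d ≤ d' := by
    intro x
    obtain ⟨d1, hd1, h1⟩ := hDc x.1 (hRS x.2.1).1 x.2.2
    obtain ⟨d0, ⟨hd0, h0⟩, hm⟩ := hwT {d | d ∈ D0 ∧ x.1 < d.1} ⟨d1, hd1, h1⟩
    exact ⟨⟨d0, hd0⟩, h0, fun d' hd' => hm d'.1 ⟨d'.2, hd'⟩⟩
  choose ν hν1 hν2 using hnu
  have hνm : StrictMono ν := by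
    intro x1 x2 h12
    obtain ⟨d, hd, h1, h2⟩ := hmid x1.1 x2.1 h12 x2.2.1 x2.2.2
    have h3 : ν x1 ≤ ⟨d, hd⟩ := hν2 x1 ⟨d, hd⟩ h1
    have h4 : (⟨d, hd⟩ : D0) < ν x2 := by
      change d.1 < (ν x2).1.1
      exact lt_of_le_of_lt h2 (hν1 x2)
    exact lt_of_le_of_lt h3 h4
  have hWF0 : WellFoundedLT R0 := hνm.wellFoundedLT
  let j : D0 → R0 := fun d => ⟨d.1.1, subset_closure ⟨d.1, d.2, rfl⟩, d.1.2.2⟩
  have hj : StrictMono j := fun d1 d2 h => h
  have ht : typeLT R0 = (Order.cof T).ord := by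
    rw [← htype]
    exact le_antisymm (RelEmbedding.ordinal_type_le (OrderEmbedding.ofStrictMono ν hνm).ltEmbedding)
      (RelEmbedding.ordinal_type_le (OrderEmbedding.ofStrictMono j hj).ltEmbedding)
  refine ⟨R, hRS, hRc, hbR, ?_, ?_⟩
  · rcases hreg.aleph0_le.eq_or_lt with h | h
    · left
      have h1 : #R0 = ℵ₀ := by
        have h2 := congrArg Ordinal.card ht
        rw [Ordinal.card_type, Cardinal.card_ord] at h2
        rw [h2, ← h]
      have h3 : Countable R0 := Cardinal.mk_le_aleph0_iff.1 h1.le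
      have h4 : R ⊆ (Subtype.val '' (univ : Set R0)) ∪ {b} := by
        intro x hx
        rcases (hRS hx).2.lt_or_eq with h5 | h5
        · exact Or.inl ⟨⟨x, hx, h5⟩, trivial, rfl⟩
        · exact Or.inr h5
      exact ((countable_univ.image _).union (countable_singleton b)).mono h4
    · right
      obtain ⟨f⟩ := Ordinal.type_eq.1 ((Ordinal.type_toType (Order.cof T).ord).trans ht.symm)
      let f' : (Order.cof T).ord.ToType ≃o R0 := OrderIso.ofRelIsoLT f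
      refine ⟨Order.cof T, hreg, h, fun w => WithTop.recTopCoe b (fun a => (f' a).1) w, Or.inl ?_, ?_⟩
      · intro w1 w2 h12
        induction w1 using WithTop.recTopCoe with
        | top => exact absurd h12 not_top_lt
        | coe a1 =>
          induction w2 using WithTop.recTopCoe with
          | top => exact (f' a1).2.2
          | coe a2 => exact f'.strictMono (WithTop.coe_lt_coe.1 h12)
      · ext x
        constructor
        · rintro ⟨w, rfl⟩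
          induction w using WithTop.recTopCoe with
          | top => exact hbR
          | coe a => exact (f' a).2.1
        · intro hx
          rcases (hRS hx).2.lt_or_eq with h5 | h5
          · refine ⟨((f'.symm ⟨x, hx, h5⟩ : (Order.cof T).ord.ToType) : WithTop _), ?_⟩
            change (f' (f'.symm ⟨x, hx, h5⟩)).1 = x
            rw [OrderIso.apply_symm_apply]
          · exact ⟨⊤, h5.symm⟩
  · intro x hx hxb
    obtain ⟨d, hd, h1⟩ := hDc x hx hxb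
    exact ⟨d.1, subset_closure ⟨d, hd, rfl⟩, h1, d.2.2⟩

end HCL
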