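import Pool.Agent.HCL.GAP
import Pool.Agent.HCL.REG

/-!
# HCL, module LOI: reduction to regular sets of values (helper42)
-/

set_option autoImplicit false

namespace HCL

open Set Topology SDN Cardinal

/-- closed well-ordered sets of values -/
theorem LOI_wo {X L : Type} [TopologicalSpace X] [CompactSpace X] [T2Space X] [LinearOrder L]
    [TopologicalSpace L] [OrderTopology L] [CompactSpace L] (u : X → L) (hu : Continuous u) (S : Set L)
    (hS : IsClosed S) (hwf : ∀ T : Set L, T ⊆ S → T.Nonempty → ∃ m ∈ T, ∀ t ∈ T, m ≤ t)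
    (h : ∀ R : Set L, R ⊆ S → IsClosed R → Reg R → PG u R) : PG u S := by
  have key : ∀ b ∈ S, PG u (S ∩ Iic b) := by
    by_contra hcon
    push Not at hcon
    obtain ⟨b1, hb1, hb1'⟩ := hcon
    obtain ⟨m, ⟨hmS, hm⟩, hmin⟩ := hwf {b | b ∈ S ∧ ¬ PG u (S ∩ Iic b)} (fun b hb => hb.1) ⟨b1, hb1, hb1'⟩
    have hlt : ∀ b ∈ S, b < m → PG u (S ∩ Iic b) := by
      intro b hb hbm
      by_contra h2
      exact absurd (hmin b ⟨hb, h2⟩) (not_le.2 hbm)
    apply hm
    have hsing : PG u {m} :=
      h {m} (singleton_subset_iff.2 hmS) isClosed_singleton (Or.inl (countable_singleton m))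
    by_cases hA : ∃ x ∈ S, x < m
    · by_cases hB : ∃ x ∈ S, x < m ∧ ∀ y ∈ S, ¬ (x < y ∧ y < m)
      · obtain ⟨x, hx, hxm, hno⟩ := hB
        intro G hG hGu
        have h1 : G = (G ∩ u ⁻¹' Iic x) ∪ (G ∩ u ⁻¹' {m}) := by
          ext y
          constructor
          · intro hy
            have h2 := hGu y hy
            rcases (show u y ≤ m from h2.2).lt_or_eq with h3 | h3
            · left
              refine ⟨hy, ?_⟩
              by_contra h4
              exact hno (u y) h2.1 ⟨not_le.1 h4, h3⟩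
            · exact Or.inr ⟨hy, h3⟩
          · rintro (hy | hy)
            · exact hy.1
            · exact hy.1
        rw [h1]
        have c1 : IsClosed (G ∩ u ⁻¹' Iic x) := hG.inter (isClosed_Iic.preimage hu)
        have c2 : IsClosed (G ∩ u ⁻¹' {m}) := hG.inter (isClosed_singleton.preimage hu)
        exact CSL_union c1 c2 (hlt x hx hxm _ c1 (fun y hy => ⟨(hGu y hy.1).1, hy.2⟩))
          (hsing _ c2 (fun y hy => hy.2))
      · push Not at hB
        obtain ⟨R, hRS, hRc, hmR, hRr, hRl⟩ := REG_main S hS hwf m hmS hA hB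
        obtain ⟨a0, ha0, ha0'⟩ := hwf S subset_rfl ⟨m, hmS⟩
        intro G hG hGu
        have hR'S : R ∪ {a0} ⊆ S ∩ Iic m := by
          rintro x (hx | hx)
          · exact hRS hx
          · rw [mem_singleton_iff] at hx
            rw [hx]
            exact ⟨ha0, ha0' m hmS⟩
        refine GAP_main u hu (R ∪ {a0}) (hRc.union isClosed_singleton) G hG ?_ ?_ ?_
        · intro x hx
          exact ⟨a0, Or.inr rfl, m, Or.inl hmR, ha0' _ (hGu x hx).1, (hGu x hx).2⟩
        · rw [preimage_union, inter_union_distrib_left]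
          have c1 : IsClosed (G ∩ u ⁻¹' R) := hG.inter (hRc.preimage hu)
          have c2 : IsClosed (G ∩ u ⁻¹' {a0}) := hG.inter (isClosed_singleton.preimage hu)
          refine CSL_union c1 c2 (h R (fun x hx => (hRS hx).1) hRc hRr _ c1 (fun y hy => hy.2)) ?_
          exact h {a0} (singleton_subset_iff.2 ha0) isClosed_singleton (Or.inl (countable_singleton a0)) _ c2
            (fun y hy => hy.2)
        · intro s hs t ht hst hno hex
          have c1 : IsClosed (G ∩ u ⁻¹' Icc s t) := hG.inter (isClosed_Icc.preimage hu)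
          rcases (show t ≤ m from (hR'S ht).2).lt_or_eq with h3 | h3
          · exact hlt t (hR'S ht).1 h3 _ c1 (fun y hy => ⟨(hGu y hy.1).1, hy.2.2⟩)
          · subst h3
            obtain ⟨r, hr, h4, h5⟩ := hRl s (hR'S hs).1 hst
            exact absurd ⟨h4, h5⟩ (hno r (Or.inl hr))
    · push Not at hA
      intro G hG hGu
      refine hsing G hG (fun x hx => ?_)
      have h2 := hGu x hx
      exact le_antisymm h2.2 (hA _ h2.1)
  intro G hG hGu
  rcases S.eq_empty_or_nonempty with hE | hN
  · refine CSL_sub G ?_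
    intro x hx
    have h2 := hGu x hx
    rw [hE] at h2
    exact absurd h2 (notMem_empty _)
  · obtain ⟨b, hb, hbm⟩ := hS.isCompact.exists_isGreatest hN
    exact key b hb G hG (fun x hx => ⟨hGu x hx, hbm (hGu x hx)⟩)

theorem LOI_dual {L : Type} [LinearOrder L] (R : Set L) (h : Reg R) :
    Reg (L := Lᵒᵈ) (OrderDual.ofDual ⁻¹' R) := by
  rcases h with h | ⟨κ, h1, h2, e, h3, h4⟩
  · left
    exact h.preimage OrderDual.ofDual.injective
  · right
    refine ⟨κ, h1, h2, fun w => OrderDual.toDual (e w), ?_, ?_⟩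
    · rcases h3 with h3 | h3
      · exact Or.inr (fun a b hab => h3 hab)
      · exact Or.inl (fun a b hab => h3 hab)
    · ext x
      constructor
      · rintro ⟨w, rfl⟩
        exact h4 ▸ mem_range_self w
      · intro hx
        have h5 : OrderDual.ofDual x ∈ range e := by
          rw [h4]
          exact hx
        obtain ⟨w, hw⟩ := h5
        exact ⟨w, congrArg OrderDual.toDual hw⟩

/-- closed sets of values which are well-ordered by the reverse order -/
theorem LOI_dn {X L : Type} [TopologicalSpace X] [CompactSpace X] [T2Space X] [LinearOrder L]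
    [TopologicalSpace L] [OrderTopology L] [CompactSpace L] (u : X → L) (hu : Continuous u) (S : Set L)
    (hS : IsClosed S) (hwf : ∀ T : Set L, T ⊆ S → T.Nonempty → ∃ m ∈ T, ∀ t ∈ T, t ≤ m)
    (h : ∀ R : Set L, R ⊆ S → IsClosed R → Reg R → PG u R) : PG u S := by
  have hcd : CompactSpace Lᵒᵈ := inferInstanceAs (CompactSpace L)
  have h1 : PG (L := Lᵒᵈ) (fun x => OrderDual.toDual (u x)) (OrderDual.ofDual ⁻¹' S) := by
    refine LOI_wo (L := Lᵒᵈ) (fun x => OrderDual.toDual (u x)) (continuous_toDual.comp hu) _ hS ?_ ?_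
    · intro T hT hTn
      obtain ⟨m, hm, hm2⟩ := hwf (OrderDual.toDual ⁻¹' T) (fun t ht => hT ht) hTn
      exact ⟨OrderDual.toDual m, hm, fun t ht => hm2 (OrderDual.ofDual t) ht⟩
    · intro R hR hRc hRr
      have h2 := h (OrderDual.toDual ⁻¹' R) (fun x hx => hR hx) hRc ?_
      · exact h2
      · exact LOI_dual (L := Lᵒᵈ) R hRr
  exact h1

/-- closed sets of values in a scattered compact linearly ordered space -/
theorem LOI_main {X L : Type} [TopologicalSpace X] [CompactSpace X] [T2Space X] [LinearOrder L]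
    [TopologicalSpace L] [OrderTopology L] [CompactSpace L] (hL : Scat L) (u : X → L) (hu : Continuous u)
    (S : Set L) (hS : IsClosed S) (h : ∀ R : Set L, R ⊆ S → IsClosed R → Reg R → PG u R) : PG u S := by
  rcases isEmpty_or_nonempty L with hE | hN
  · intro G hG hGu
    exact CSL_sub G (fun x _ => (hE.false (u x)).elim)
  have gen : ∀ (a b : L) (C : Set L), IsClosed C → a ∈ C → b ∈ C → PG u (S ∩ C) →
      (∀ s ∈ C, ∀ t ∈ C, s < t → (∀ r ∈ C, ¬ (s < r ∧ r < t)) →
        PG u (S ∩ Icc s t) ∨ ∀ r : L, ¬ (s < r ∧ r < t)) → PG u (S ∩ Icc a b) := by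
    intro a b C hC ha hb hSC hst G hG hGu
    refine GAP_main u hu C hC G hG ?_ ?_ ?_
    · intro x hx
      exact ⟨a, ha, b, hb, (hGu x hx).2.1, (hGu x hx).2.2⟩
    · exact hSC _ (hG.inter (hC.preimage hu)) (fun y hy => ⟨(hGu y hy.1).1, hy.2⟩)
    · intro s hs t ht hlt hno hex
      obtain ⟨x, hx, h1, h2⟩ := hex
      rcases hst s hs t ht hlt hno with h3 | h3
      · exact h3 _ (hG.inter (isClosed_Icc.preimage hu)) (fun y hy => ⟨(hGu y hy.1).1, hy.2⟩)
      · exact absurd ⟨h1, h2⟩ (h3 (u x))
  have hup : ChainUp (fun a b : L => PG u (S ∩ Icc a b)) := by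
    intro a b C _ ha hb _ hC hwf hst
    refine gen a b C hC ha hb ?_ hst
    exact LOI_wo u hu (S ∩ C) (hS.inter hC) (fun T hT hTn => hwf T (fun t ht => (hT ht).2) hTn)
      (fun R hR hRc hRr => h R (fun x hx => (hR hx).1) hRc hRr)
  have hdn : ChainDn (fun a b : L => PG u (S ∩ Icc a b)) := by
    intro a b C _ ha hb _ hC hwf hst
    refine gen a b C hC ha hb ?_ hst
    exact LOI_dn u hu (S ∩ C) (hS.inter hC) (fun T hT hTn => hwf T (fun t ht => (hT ht).2) hTn)
      (fun R hR hRc hRr => h R (fun x hx => (hR hx).1) hRc hRr)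
  obtain ⟨a, -, ha⟩ := (isCompact_univ (X := L)).exists_isLeast univ_nonempty
  obtain ⟨b, -, hb⟩ := (isCompact_univ (X := L)).exists_isGreatest univ_nonempty
  have h5 := thm_SI L hL (fun a b : L => PG u (S ∩ Icc a b)) hup hdn a b (ha (mem_univ b))
  intro G hG hGu
  exact h5 G hG (fun x hx => ⟨hGu x hx, ha (mem_univ _), hb (mem_univ _)⟩)

end HCL
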