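import Pool.Agent.HCL.MSP

/-!
# HCL, module PCS: separated pieces with closures in the class (helper42)
-/

set_option autoImplicit false

namespace HCL

open Set Topology Filter SDN

/-- a smooth seminorm times a positive number -/
theorem PCS_scale {E : Type} [NormedAddCommGroup E] [NormedSpace ℝ E] (N : Seminorm ℝ E) (s : ℝ)
    (hs : 0 < s) (hN : ∀ f, N f ≠ 0 → ContDiffAt ℝ ((⊤ : ℕ∞) : WithTop ℕ∞) (⇑N) f) :
    ∃ q : Seminorm ℝ E, (∀ f, q f = s * N f) ∧
      ∀ f, q f ≠ 0 → ContDiffAt ℝ ((⊤ : ℕ∞) : WithTop ℕ∞) (⇑q) f := by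
  have hq : ∀ f, (Real.toNNReal s • N) f = s * N f := by
    intro f
    change (Real.toNNReal s : ℝ) * N f = s * N f
    rw [Real.coe_toNNReal s hs.le]
  refine ⟨Real.toNNReal s • N, hq, fun f hf => ?_⟩
  have h1 : N f ≠ 0 := by
    intro h0
    apply hf
    rw [hq, h0, mul_zero]
  have h2 : ContDiffAt ℝ ((⊤ : ℕ∞) : WithTop ℕ∞) (fun g => s * N g) f := contDiffAt_const.mul (hN f h1)
  have h3 : (⇑(Real.toNNReal s • N) : E → ℝ) = fun g => s * N g := funext hq
  rw [h3]
  exact h2

/-- bounded seminorms are continuous -/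
theorem PCS_cont {X : Type} [NormedAddCommGroup X] [NormedSpace ℝ X] (q : Seminorm ℝ X) (C : ℝ)
    (hC : 0 < C) (hq : ∀ x, q x ≤ C * ‖x‖) : Continuous q := by
  refine continuous_iff_continuousAt.2 fun x => ?_
  rw [Metric.continuousAt_iff]
  intro e he
  refine ⟨e / C, div_pos he hC, fun {y} hy => ?_⟩
  rw [Real.dist_eq]
  have h1 : |q y - q x| ≤ q (y - x) := abs_sub_map_le_sub q y x
  have h2 := hq (y - x)
  rw [dist_eq_norm, lt_div_iff₀ hC] at hy
  linarith [mul_comm ‖y - x‖ C]

/-- the supremum over a set -/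
noncomputable def PCS_m {K X : Type} [TopologicalSpace K]
    [NormedAddCommGroup X] [NormedSpace ℝ X] (q : Seminorm ℝ X) (S : Set K) (f : C(K, X)) : ℝ :=
  ⨆ k : S, q (f k)

theorem PCS_m_nonneg {K X : Type} [TopologicalSpace K]
    [NormedAddCommGroup X] [NormedSpace ℝ X] (q : Seminorm ℝ X) (S : Set K) (f : C(K, X)) :
    0 ≤ PCS_m q S f := Real.iSup_nonneg fun _ => apply_nonneg q _

theorem PCS_m_le {K X : Type} [TopologicalSpace K]
    [NormedAddCommGroup X] [NormedSpace ℝ X] (q : Seminorm ℝ X) (S : Set K) (f : C(K, X)) (c : ℝ)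
    (hc : 0 ≤ c) (h : ∀ k ∈ S, q (f k) ≤ c) : PCS_m q S f ≤ c :=
  Real.iSup_le (fun k => h k k.2) hc

theorem PCS_le_m {K X : Type} [TopologicalSpace K] [CompactSpace K]
    [NormedAddCommGroup X] [NormedSpace ℝ X] (q : Seminorm ℝ X) (C : ℝ)
    (hC : 0 < C) (hq : ∀ x, q x ≤ C * ‖x‖) (S : Set K) (f : C(K, X)) (k : K) (hk : k ∈ S) :
    q (f k) ≤ PCS_m q S f := by
  have h1 : BddAbove (range fun k : S => q (f k)) := by
    refine ⟨C * ‖f‖, ?_⟩
    rintro _ ⟨k, rfl⟩
    exact (hq _).trans (mul_le_mul_of_nonneg_left (f.norm_coe_le_norm k) hC.le)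
  exact le_ciSup h1 (⟨k, hk⟩ : S)

theorem PCS_good (K : Type) [TopologicalSpace K] [CompactSpace K] [T2Space K] (Γ : Type) (P : Γ → Set K)
    (hP : ∀ W : ℝ, 0 < W → ∃ β ω : Γ → ℝ, (∀ y, 1 ≤ β y) ∧ (∀ y, 0 < ω y) ∧ (∀ y, β y + ω y ≤ 1 + W) ∧
      ∀ t : K, ∃ γ, t ∈ P γ ∧ ∃ V ∈ 𝓝 t, ∀ γ', γ' ≠ γ → (P γ' ∩ V).Nonempty → β γ + ω γ ≤ β γ')
    (hG : ∀ γ, GdS (closure (P γ))) : GoodK K := by
  classical
  intro X _ _ _ q C hC hqC hqs ε hε hε1
  have hF : ∀ y, CompactSpace (closure (P y)) := fun y =>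
    isCompact_iff_compactSpace.1 (isClosed_closure.isCompact)
  rcases isEmpty_or_nonempty K with hK | ⟨⟨v⟩⟩
  · refine ⟨0, fun f x => (hK.false x).elim, fun f r hr _ => ?_, fun f hf => absurd rfl hf,
      fun f x => (hK.false x).elim⟩
    change (0 : ℝ) ≤ _
    positivity
  obtain ⟨β, ω, hβ, hω, hbw, hsep⟩ := hP ε hε
  -- the seminorms of the pieces
  have key : ∀ y, ∃ Q : Seminorm ℝ C(K, X),
      (∀ f, Q f ≤ PCS_m q (closure (P y)) f) ∧
      (∀ f, PCS_m q (closure (P y)) f * (β y + ω y / 2) ≤ (β y + ω y) * Q f) ∧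
      (∀ f, Q f ≠ 0 → ContDiffAt ℝ ((⊤ : ℕ∞) : WithTop ℕ∞) (⇑Q) f) ∧
      (∀ f g : C(K, X), (∀ x, f x = f v) → (∀ x, g x = g v) → q (f v) = q (g v) → Q f = Q g) := by
    intro y
    have hb := hβ y
    have hw := hω y
    have hbp : 0 < β y + ω y / 2 := by linarith
    set δ : ℝ := (ω y / 2) / (β y + ω y / 2) / 3 with hδ
    have hδp : 0 < δ := div_pos (div_pos (by linarith) hbp) (by norm_num)
    have hδ3 : 3 * δ * (β y + ω y / 2) = ω y / 2 := by
      have h1 : 3 * δ = (ω y / 2) / (β y + ω y / 2) := by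
        rw [hδ]
        ring
      rw [h1]
      exact div_mul_cancel₀ _ hbp.ne'
    have hδ1 : δ < 1 := by
      by_contra hcon
      have h1 : 1 ≤ δ := not_lt.1 hcon
      nlinarith
    have := hF y
    obtain ⟨N, hN1, hN2, hN3, hN4⟩ :=
      thm_PL K X q (closure (P y)) (hG y (hF y) X q C hC hqC hqs) δ hδp hδ1
    obtain ⟨Q, hQ, hQs⟩ := PCS_scale N (1 + δ)⁻¹ (inv_pos.2 (by linarith)) hN3
    have hd : (0 : ℝ) < 1 + δ := by linarith
    have hNQ : ∀ f, N f = (1 + δ) * Q f := by
      intro f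
      rw [hQ, ← mul_assoc, mul_inv_cancel₀ hd.ne', one_mul]
    refine ⟨Q, fun f => ?_, fun f => ?_, hQs, fun f g hf hg hfg => ?_⟩
    · have h1 := hN2 f (PCS_m q (closure (P y)) f) (PCS_m_nonneg q (closure (P y)) f)
        (fun k hk => PCS_le_m q C hC hqC (closure (P y)) f k hk)
      rw [hNQ] at h1
      exact le_of_mul_le_mul_left h1 hd
    · have h0 : 0 ≤ Q f := apply_nonneg Q f
      have h1 : PCS_m q (closure (P y)) f ≤ (1 + δ) * N f :=
        PCS_m_le q (closure (P y)) f _ (mul_nonneg hd.le (apply_nonneg N f)) fun k hk => hN1 f k hk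
      rw [hNQ] at h1
      have h5 : (1 + δ) * (1 + δ) ≤ 1 + 3 * δ := by nlinarith
      have h2 : (1 + δ) * ((1 + δ) * Q f) ≤ (1 + 3 * δ) * Q f := by
        rw [← mul_assoc]
        exact mul_le_mul_of_nonneg_right h5 h0
      calc PCS_m q (closure (P y)) f * (β y + ω y / 2) ≤ (1 + 3 * δ) * Q f * (β y + ω y / 2) :=
            mul_le_mul_of_nonneg_right (h1.trans h2) hbp.le
        _ = ((β y + ω y / 2) + 3 * δ * (β y + ω y / 2)) * Q f := by ring
        _ = (β y + ω y) * Q f := by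
            rw [hδ3]
            ring
    · rw [hQ, hQ]
      congr 1
      by_cases hne : ∃ k, k ∈ closure (P y)
      · obtain ⟨k, hk⟩ := hne
        have h1 : N f = q (f k) := hN4 f k hk fun x _ => (hf x).trans (hf k).symm
        have h2 : N g = q (g k) := hN4 g k hk fun x _ => (hg x).trans (hg k).symm
        rw [h1, h2, hf k, hg k]
        exact hfg
      · have h0 : ∀ f : C(K, X), N f = 0 := by
          intro f
          have h1 := hN2 f 0 le_rfl (fun k hk => absurd ⟨k, hk⟩ hne)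
          rw [mul_zero] at h1
          exact le_antisymm h1 (apply_nonneg N f)
        rw [h0, h0]
  choose Q hQ1 hQ2 hQ3 hQ4 using key
  have hqcont := PCS_cont q C hC hqC
  have hLF : ∀ f : C(K, X), (∀ y, PCS_m q (closure (P y)) f < β y + ω y) →
      ∃ (T : Finset Γ) (d : ℝ), 0 < d ∧ ∀ y, y ∉ T → Q y f < β y - d := by
    intro f hf
    choose γ hγ V hV hVs using hsep
    set e : K → ℝ := fun t => (β (γ t) + ω (γ t) - PCS_m q (closure (P (γ t))) f) / 2 with he
    have hep : ∀ t, 0 < e t := fun t => by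
      have := hf (γ t)
      simp only [he]
      linarith
    have hloc : ∀ t, interior (V t) ∩ {s | q (f s) < β (γ t) + ω (γ t) - e t} ∈ 𝓝 t := by
      intro t
      refine Filter.inter_mem (interior_mem_nhds.2 (hV t)) ?_
      refine (isOpen_lt (hqcont.comp f.continuous) continuous_const).mem_nhds ?_
      have h1 := PCS_le_m q C hC hqC (closure (P (γ t))) f t (subset_closure (hγ t))
      have h2 := hep t
      have h3 : PCS_m q (closure (P (γ t))) f = β (γ t) + ω (γ t) - 2 * e t := by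
        simp only [he]
        ring
      change q (f t) < β (γ t) + ω (γ t) - e t
      linarith
    obtain ⟨T0, hT0⟩ := CompactSpace.elim_nhds_subcover _ hloc
    obtain ⟨d, hd, hd2⟩ := MK_finmin T0 e hep
    refine ⟨T0.image γ, d / 2, by linarith, ?_⟩
    intro y hy
    refine lt_of_le_of_lt (hQ1 y f) ?_
    rcases (P y).eq_empty_or_nonempty with hE | ⟨s0, hs0⟩
    · have h1 : PCS_m q (closure (P y)) f ≤ 0 := by
        refine PCS_m_le q _ f 0 le_rfl ?_
        intro k hk
        rw [hE, closure_empty] at hk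
        exact absurd hk (notMem_empty _)
      -- `d` is small
      obtain ⟨t, ht, -⟩ : ∃ t ∈ T0, v ∈ interior (V t) ∩ {s | q (f s) < β (γ t) + ω (γ t) - e t} := by
        have h2 : v ∈ ⋃ x ∈ T0, interior (V x) ∩ {s | q (f s) < β (γ x) + ω (γ x) - e x} := by
          rw [hT0]
          trivial
        simpa only [mem_iUnion, exists_prop] using h2
      have h3 := hd2 t ht
      have h4 : e t ≤ (1 + ε) / 2 := by
        have h5 := hbw (γ t)
        have h6 := PCS_m_nonneg q (closure (P (γ t))) f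
        simp only [he]
        linarith
      have h7 := hβ y
      linarith
    · have h1 : PCS_m q (closure (P y)) f ≤ β y - d := by
        have hpt : ∀ k ∈ closure (P y), q (f k) ≤ β y - d := by
          intro k hk
          have h2 : k ∈ ⋃ x ∈ T0, interior (V x) ∩ {s | q (f s) < β (γ x) + ω (γ x) - e x} := by
            rw [hT0]
            trivial
          simp only [mem_iUnion, exists_prop] at h2
          obtain ⟨t, ht, hk1, hk2⟩ := h2
          have h3 : (P y ∩ V t).Nonempty := by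
            obtain ⟨z, hz1, hz2⟩ := mem_closure_iff.1 hk (interior (V t)) isOpen_interior hk1
            exact ⟨z, hz2, interior_subset hz1⟩
          have h4 : y ≠ γ t := by
            rintro rfl
            exact hy (Finset.mem_image_of_mem γ ht)
          have h5 := hVs t y h4 h3
          have h6 := hd2 t ht
          have h7 : q (f k) < β (γ t) + ω (γ t) - e t := hk2
          linarith
        refine PCS_m_le q _ f _ ?_ hpt
        exact (apply_nonneg q _).trans (hpt s0 (subset_closure hs0))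
      linarith
  obtain ⟨N, hN1, hN2, hN3, hN4⟩ := MSP_main C(K, X) Γ ε C β ω (fun y f => PCS_m q (closure (P y)) f) Q hε hC
    hβ hω hbw hLF
    (fun y f => (hQ1 y f).trans (PCS_m_le q (closure (P y)) f _ (by positivity) fun k _ =>
      (hqC _).trans (mul_le_mul_of_nonneg_left (f.norm_coe_le_norm k) hC.le)))
    (fun y f => hQ2 y f) hQ3
  have hNu : ∀ f : C(K, X), ∀ k ∈ (univ : Set K), q (f k) ≤ (1 + ε) * N f := by
    intro f k _
    obtain ⟨γ, hγ, -⟩ := hsep k
    have h1 := hN1 (q.comp (ContinuousMap.evalCLM ℝ k : C(K, X) →L[ℝ] X).toLinearMap)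
      (fun f c h => (PCS_le_m q C hC hqC (closure (P γ)) f k (subset_closure hγ)).trans (h γ).le) f
    exact h1
  exact thm_NRM K X q univ v N ε 0 ε (mem_univ v) hε.le le_rfl (by linarith) hNu
    (fun f r hr h => by
      rw [add_zero, one_mul]
      exact hN2 f r hr fun y => (hQ1 y f).trans (PCS_m_le q (closure (P y)) f r hr fun k _ => h k (mem_univ k)))
    hN3
    (fun f g hf hg hfg => hN4 f g fun y =>
      hQ4 y f g (fun x => hf x (mem_univ x)) (fun x => hg x (mem_univ x)) hfg)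

end HCL
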