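import Pool.Agent.HCL.PCS

/-!
# HCL, module SIG: countable unions of locally closed topological sums (helper42)
-/

set_option autoImplicit false

namespace HCL

open Set Topology Filter SDN

theorem SIG_tail (a : ℕ → ℝ) (ha : ∀ j, a j = 3 * a (j + 1)) (j0 k : ℕ) :
    ∑ j ∈ Finset.range k, a (j0 + 1 + j) ≤ a j0 / 2 - a (j0 + k) / 2 := by
  induction k with
  | zero => simp
  | succ k ih =>
    rw [Finset.sum_range_succ]
    have h1 := ha (j0 + k)
    have h2 : j0 + 1 + k = j0 + k + 1 := by ring
    rw [h2]
    have h3 : j0 + (k + 1) = j0 + k + 1 := by ring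
    rw [h3]
    linarith

/-- `F` is closed and the complement is the union of the locally closed sets `⋃ i, E n i`, each of them the
topological sum of the sets `E n i` -/
structure SigSum {K : Type} [TopologicalSpace K] (F : Set K) (I : ℕ → Type) (E : ∀ n, I n → Set K) : Prop where
  closed : IsClosed F
  lc : ∀ n, ∃ A B : Set K, IsClosed A ∧ IsClosed B ∧ (⋃ i, E n i) = A \ B
  dis : ∀ n (i j : I n) (x : K), x ∈ E n i → x ∈ E n j → i = j
  op : ∀ n (i : I n), ∀ t ∈ E n i, ∃ V ∈ 𝓝 t, ∀ s ∈ V, s ∈ (⋃ j, E n j) → s ∈ E n i
  cov : ∀ x, x ∉ F → ∃ n, x ∈ ⋃ i, E n i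

/-- thresholds for the pieces `P` -/
def Sep {K Γ : Type} [TopologicalSpace K] (P : Γ → Set K) : Prop :=
  ∀ W : ℝ, 0 < W → ∃ β ω : Γ → ℝ, (∀ y, 1 ≤ β y) ∧ (∀ y, 0 < ω y) ∧ (∀ y, β y + ω y ≤ 1 + W) ∧
    ∀ t : K, ∃ γ, t ∈ P γ ∧ ∃ V ∈ 𝓝 t, ∀ γ', γ' ≠ γ → (P γ' ∩ V).Nonempty → β γ + ω γ ≤ β γ'

theorem SIG_pieces {K : Type} [TopologicalSpace K] (F : Set K) (I : ℕ → Type) (E : ∀ n, I n → Set K)
    (hS : SigSum F I E) : ∃ (Γ : Type) (P : Γ → Set K) (y0 : Γ), P y0 = F ∧ Sep P ∧
      ∀ γ, γ ≠ y0 → ∃ n, ∃ i : I n, P γ ⊆ E n i := by
  classical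
  obtain ⟨hF, hlc, hdis, hop, hcov⟩ := hS
  choose A B hA hB hAB using hlc
  let D : ℕ → Set K := fun n => ⋃ i, E n i
  let H : ℕ → Set K := fun j => if j % 2 = 0 then A (j / 2) else B (j / 2)
  have hHc : ∀ j, IsClosed (H j) := by
    intro j
    by_cases h : j % 2 = 0
    · simp only [H, if_pos h]
      exact hA _
    · simp only [H, if_neg h]
      exact hB _
  have hH0 : ∀ n, H (2 * n) = A n := by
    intro n
    have h2 : 2 * n % 2 = 0 := by omega
    have h3 : 2 * n / 2 = n := by omega
    simp only [H, if_pos h2, h3]
  have hH1 : ∀ n, H (2 * n + 1) = B n := by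
    intro n
    have h2 : ¬ (2 * n + 1) % 2 = 0 := by omega
    have h3 : (2 * n + 1) / 2 = n := by omega
    simp only [H, if_neg h2, h3]
  have hD : ∀ n x, x ∈ D n ↔ x ∈ H (2 * n) ∧ x ∉ H (2 * n + 1) := by
    intro n x
    rw [hH0, hH1]
    change x ∈ (⋃ i, E n i) ↔ _
    rw [hAB n]
    exact Iff.rfl
  let Γ : Type := Option (Σ n : ℕ, I n × Set ℕ)
  let P : Γ → Set K := fun g => match g with
    | none => F
    | some ⟨n, i, p⟩ => {x | x ∉ F ∧ x ∈ E n i ∧ (∀ m < n, x ∉ D m) ∧ p = {j | j < 2 * n + 2 ∧ x ∈ H j}}
  refine ⟨Γ, P, none, rfl, ?_, ?_⟩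
  · intro W hW
    let a : ℕ → ℝ := fun j => W / 4 * (1 / 3) ^ j
    have ha3 : ∀ j, a j = 3 * a (j + 1) := by
      intro j
      simp only [a]
      rw [pow_succ]
      ring
    have hap : ∀ j, 0 < a j := by
      intro j
      simp only [a]
      positivity
    have hadec : ∀ j k, j ≤ k → a k ≤ a j := by
      intro j k hjk
      have h2 : Antitone a := by
        refine antitone_nat_of_succ_le fun m => ?_
        have h4 := ha3 m
        have h5 := hap (m + 1)
        linarith
      exact h2 hjk
    let w : Set ℕ → ℕ → ℝ := fun p j => if j ∈ p then 0 else a j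
    have hw0 : ∀ p j, 0 ≤ w p j := by
      intro p j
      by_cases h : j ∈ p
      · simp only [w, if_pos h]
        exact le_rfl
      · simp only [w, if_neg h]
        exact (hap j).le
    have hwa : ∀ p j, w p j ≤ a j := by
      intro p j
      by_cases h : j ∈ p
      · simp only [w, if_pos h]
        exact (hap j).le
      · simp only [w, if_neg h]
        exact le_rfl
    let β : Γ → ℝ := fun g => match g with
      | none => 1
      | some ⟨n, i, p⟩ => 1 + W / 2 + ∑ j ∈ Finset.range (2 * n + 2), w p j
    let ω : Γ → ℝ := fun g => match g with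
      | none => W / 2
      | some ⟨n, i, p⟩ => a (2 * n + 1) / 2
    have hsum0 : ∀ p n, 0 ≤ ∑ j ∈ Finset.range n, w p j := fun p n => Finset.sum_nonneg fun j _ => hw0 p j
    refine ⟨β, ω, ?_, ?_, ?_, ?_⟩
    · intro g
      rcases g with _ | ⟨n, i, p⟩
      · exact le_rfl
      · change 1 ≤ 1 + W / 2 + ∑ j ∈ Finset.range (2 * n + 2), w p j
        have := hsum0 p (2 * n + 2)
        linarith
    · intro g
      rcases g with _ | ⟨n, i, p⟩
      · change 0 < W / 2
        linarith
      · change 0 < a (2 * n + 1) / 2
        have := hap (2 * n + 1)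
        linarith
    · intro g
      rcases g with _ | ⟨n, i, p⟩
      · change 1 + W / 2 ≤ 1 + W
        linarith
      · change 1 + W / 2 + ∑ j ∈ Finset.range (2 * n + 2), w p j + a (2 * n + 1) / 2 ≤ 1 + W
        have h2 : ∑ j ∈ Finset.range (2 * n + 2), w p j ≤ ∑ j ∈ Finset.range (2 * n + 2), a j :=
          Finset.sum_le_sum fun j _ => hwa p j
        have h3 : ∑ j ∈ Finset.range (2 * n + 2), a j ≤ 3 / 2 * a 0 := by
          have h4 : ∑ j ∈ Finset.range (2 * n + 2), a j = a 0 + ∑ j ∈ Finset.range (2 * n + 1), a (0 + 1 + j) := by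
            rw [show 2 * n + 2 = 1 + (2 * n + 1) by ring, Finset.sum_range_add]
            simp
          have h5 := SIG_tail a ha3 0 (2 * n + 1)
          have h6 := hap (0 + (2 * n + 1))
          rw [h4]
          linarith
        have h4 : a 0 = W / 4 := by simp [a]
        have h5 := hadec 0 (2 * n + 1) (Nat.zero_le _)
        linarith
    · intro t
      by_cases htF : t ∈ F
      · refine ⟨none, htF, Set.univ, univ_mem, ?_⟩
        intro g hg _
        rcases g with _ | ⟨n, i, p⟩
        · exact absurd rfl hg
        · change 1 + W / 2 ≤ 1 + W / 2 + ∑ j ∈ Finset.range (2 * n + 2), w p j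
          have := hsum0 p (2 * n + 2)
          linarith
      · have hex := hcov t htF
        let n := Nat.find hex
        have hn : t ∈ D n := Nat.find_spec hex
        have hnm : ∀ m < n, t ∉ D m := fun m hm => Nat.find_min hex hm
        obtain ⟨i, hi⟩ := mem_iUnion.1 hn
        obtain ⟨V, hV, hVi⟩ := hop n i t hi
        refine ⟨some ⟨n, i, {j | j < 2 * n + 2 ∧ t ∈ H j}⟩, ⟨htF, hi, hnm, rfl⟩,
          (Fᶜ ∩ V) ∩ ⋂ j ∈ {j ∈ Finset.range (2 * n + 2) | t ∉ H j}, (H j)ᶜ, ?_, ?_⟩
        · refine Filter.inter_mem (Filter.inter_mem (hF.isOpen_compl.mem_nhds htF) hV) ?_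
          rw [Filter.biInter_finset_mem]
          intro j hj
          exact (hHc j).isOpen_compl.mem_nhds (Finset.mem_filter.1 hj).2
        · intro g hg hne
          obtain ⟨s, hsP, ⟨hsF, hsV⟩, hsH⟩ := hne
          have hst : ∀ j, j < 2 * n + 2 → t ∉ H j → s ∉ H j := by
            intro j hj htj
            have h2 := mem_iInter₂.1 hsH j (Finset.mem_filter.2 ⟨Finset.mem_range.2 hj, htj⟩)
            exact h2
          rcases g with _ | ⟨n', i', p'⟩
          · exact absurd hsP hsF
          · obtain ⟨-, hsE, hsm, hp'⟩ := hsP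
            have hsD : s ∈ D n' := mem_iUnion.2 ⟨i', hsE⟩
            by_cases hcase : ∀ j, j < 2 * n + 2 → t ∈ H j → s ∈ H j
            · exfalso
              have hag : ∀ j, j < 2 * n + 2 → (s ∈ H j ↔ t ∈ H j) := by
                intro j hj
                constructor
                · intro h2
                  by_contra h3
                  exact hst j hj h3 h2
                · exact hcase j hj
              have h2 : s ∈ D n := by
                rw [hD, hag _ (by omega), hag _ (by omega), ← hD]
                exact hn
              have h3 : n' ≤ n := by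
                by_contra h4
                exact hsm n (not_le.1 h4) h2
              have h4 : n' = n := by
                by_contra h5
                have h6 : n' < n := lt_of_le_of_ne h3 h5
                apply hnm n' h6
                rw [hD, ← hag _ (by omega), ← hag _ (by omega), ← hD]
                exact hsD
              subst h4
              have h5 : i' = i := hdis _ i' i s hsE (hVi s hsV h2)
              subst h5
              apply hg
              rw [hp']
              congr 3
              ext j
              constructor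
              · rintro ⟨h6, h7⟩
                exact ⟨h6, (hag j h6).1 h7⟩
              · rintro ⟨h6, h7⟩
                exact ⟨h6, (hag j h6).2 h7⟩
            · push Not at hcase
              have hex2 : ∃ j, j < 2 * n + 2 ∧ t ∈ H j ∧ s ∉ H j := hcase
              let j0 := Nat.find hex2
              obtain ⟨hj1, hj2, hj3⟩ := Nat.find_spec hex2
              have hj0 : ∀ j, j < j0 → (s ∈ H j ↔ t ∈ H j) := by
                intro j hj
                have hjn : j < 2 * n + 2 := lt_trans hj hj1
                constructor
                · intro h2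
                  by_contra h3
                  exact hst j hjn h3 h2
                · intro h2
                  by_contra h3
                  exact Nat.find_min hex2 hj ⟨hjn, h2, h3⟩
              have hj1' : j0 < 2 * n + 2 := hj1
              have hj2' : t ∈ H j0 := hj2
              have hj3' : s ∉ H j0 := hj3
              have hjn' : j0 < 2 * n' + 2 := by
                by_contra h2
                have h3 : n' < n := by omega
                apply hnm n' h3
                rw [hD, ← hj0 _ (by omega), ← hj0 _ (by omega), ← hD]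
                exact hsD
              change 1 + W / 2 + ∑ j ∈ Finset.range (2 * n + 2), w {j | j < 2 * n + 2 ∧ t ∈ H j} j +
                a (2 * n + 1) / 2 ≤ 1 + W / 2 + ∑ j ∈ Finset.range (2 * n' + 2), w p' j
              have e1 : ∑ j ∈ Finset.range (2 * n' + 2), w p' j ≥
                  ∑ j ∈ Finset.range j0, w {j | j < 2 * n + 2 ∧ t ∈ H j} j + a j0 := by
                have h2 : ∑ j ∈ Finset.range (j0 + 1), w p' j ≤ ∑ j ∈ Finset.range (2 * n' + 2), w p' j :=
                  Finset.sum_le_sum_of_subset_of_nonneg
                    (Finset.range_subset_range.2 (by omega)) (fun j _ _ => hw0 p' j)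
                rw [Finset.sum_range_succ] at h2
                have h3 : w p' j0 = a j0 := by
                  have h4 : j0 ∉ p' := by
                    rw [hp']
                    rintro ⟨-, h5⟩
                    exact hj3' h5
                  simp only [w, if_neg h4]
                have h4 : ∑ j ∈ Finset.range j0, w p' j =
                    ∑ j ∈ Finset.range j0, w {j | j < 2 * n + 2 ∧ t ∈ H j} j := by
                  refine Finset.sum_congr rfl ?_
                  intro j hj
                  have hj' : j < j0 := Finset.mem_range.1 hj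
                  have h5 : j ∈ p' ↔ j ∈ {j | j < 2 * n + 2 ∧ t ∈ H j} := by
                    rw [hp']
                    constructor
                    · rintro ⟨-, h6⟩
                      exact ⟨by omega, (hj0 j hj').1 h6⟩
                    · rintro ⟨-, h6⟩
                      exact ⟨by omega, (hj0 j hj').2 h6⟩
                  by_cases h6 : j ∈ p'
                  · simp only [w, if_pos h6, if_pos (h5.1 h6)]
                  · simp only [w, if_neg h6, if_neg (fun h7 => h6 (h5.2 h7))]
                rw [h3, h4] at h2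
                exact h2
              have e2 : ∑ j ∈ Finset.range (2 * n + 2), w {j | j < 2 * n + 2 ∧ t ∈ H j} j ≤
                  ∑ j ∈ Finset.range j0, w {j | j < 2 * n + 2 ∧ t ∈ H j} j + a j0 / 2 := by
                obtain ⟨k, hk⟩ := Nat.exists_eq_add_of_le (show j0 + 1 ≤ 2 * n + 2 by omega)
                rw [hk, Finset.sum_range_add, Finset.sum_range_succ]
                have h3 : w {j | j < j0 + 1 + k ∧ t ∈ H j} j0 = 0 := by
                  have h4 : j0 ∈ {j | j < j0 + 1 + k ∧ t ∈ H j} := ⟨by omega, hj2'⟩
                  simp only [w, if_pos h4]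
                have h4 : ∑ j ∈ Finset.range k, w {j | j < j0 + 1 + k ∧ t ∈ H j} (j0 + 1 + j) ≤
                    ∑ j ∈ Finset.range k, a (j0 + 1 + j) := Finset.sum_le_sum fun j _ => hwa _ _
                have h5 := SIG_tail a ha3 j0 k
                have h6 := hap (j0 + k)
                rw [h3]
                linarith
              have e3 := hadec j0 (2 * n + 1) (by omega)
              have e4 := hap (2 * n + 1)
              linarith
  · intro g hg
    rcases g with _ | ⟨n, i, p⟩
    · exact absurd rfl hg
    · refine ⟨n, i, ?_⟩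
      rintro x ⟨-, hx, -⟩
      exact hx

theorem SIG_good (K : Type) [TopologicalSpace K] [CompactSpace K] [T2Space K] (F : Set K)
    (I : ℕ → Type) (E : ∀ n, I n → Set K) (hS : SigSum F I E) (h0 : GdS F)
    (h1 : ∀ n (i : I n), ∀ G ⊆ closure (E n i), IsClosed G → GdS G) : GoodK K := by
  classical
  obtain ⟨Γ, P, y0, hP0, hP1, hP2⟩ := SIG_pieces F I E hS
  refine PCS_good K Γ P hP1 ?_
  intro g
  by_cases hg : g = y0
  · rw [hg, hP0, hS.closed.closure_eq]
    exact h0
  · obtain ⟨n, i, h2⟩ := hP2 g hg
    exact h1 n i _ (closure_mono h2) isClosed_closure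

end HCL
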