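import Pool.Agent.HCL.GAP
import Pool.Agent.HCL.CLB

/-!
# HCL, module STP: the regular step (helper42)
-/

set_option autoImplicit false

namespace HCL

open Set Topology SDN Cardinal Filter

/-- well-ordered compact spaces are in the class `GoodK` -/
theorem STP_good (Ω : Type) [LinearOrder Ω] [TopologicalSpace Ω] [OrderTopology Ω] [WellFoundedLT Ω]
    [CompactSpace Ω] : GoodK Ω := by
  refine Fin_LO Ω ?_
  intro S hS
  obtain ⟨m, hm, hmin⟩ := WellFounded.has_min (wellFounded_lt (α := Ω)) S hS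
  refine ⟨m, hm, Iic m, (CLB_Iic m).mem_nhds (mem_Iic.2 le_rfl), ?_⟩
  intro z hz hzS
  exact le_antisymm hz (not_lt.1 (hmin z hzS))

/-- the retraction onto a closed set containing the greatest element -/
theorem STP_retr {Ω : Type} [LinearOrder Ω] [OrderTop Ω] [TopologicalSpace Ω] [OrderTopology Ω]
    [WellFoundedLT Ω] (C : Set Ω) (hC : IsClosed C) (hT : ⊤ ∈ C) :
    ∃ c : Ω → Ω, Continuous c ∧ (∀ g, c g ∈ C) ∧ ∀ b ∈ C, c b = b := by
  have h : ∀ g : Ω, ∃ b ∈ C, g ≤ b ∧ ∀ b' ∈ C, g ≤ b' → b ≤ b' := by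
    intro g
    obtain ⟨b, ⟨hb1, hb2⟩, hmin⟩ := WellFounded.has_min (wellFounded_lt (α := Ω)) {b | b ∈ C ∧ g ≤ b}
      ⟨⊤, hT, le_top⟩
    exact ⟨b, hb1, hb2, fun b' h1 h2 => not_lt.1 (hmin b' ⟨h1, h2⟩)⟩
  choose c hc1 hc2 hc3 using h
  have hfix : ∀ b ∈ C, c b = b := fun b hb => le_antisymm (hc3 b b hb le_rfl) (hc2 b)
  have hmono : Monotone c := fun a b hab => hc3 a (c b) (hc1 b) (hab.trans (hc2 b))
  refine ⟨c, ?_, hc1, hfix⟩
  rw [continuous_iff_continuousAt]
  intro g
  have hI : Iic g ∈ 𝓝 g := (CLB_Iic g).mem_nhds (mem_Iic.2 le_rfl)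
  by_cases hg : g ∈ C
  · rw [ContinuousAt, hfix g hg]
    refine tendsto_of_tendsto_of_tendsto_of_le_of_le' tendsto_id tendsto_const_nhds
      (Eventually.of_forall fun x => hc2 x) ?_
    filter_upwards [hI] with x hx
    exact hc3 x g hg hx
  · have h1 : Cᶜ ∈ 𝓝 g := hC.isOpen_compl.mem_nhds hg
    by_cases hmin : ∃ l, l < g
    · obtain ⟨l, hl, hs⟩ := exists_Ioc_subset_of_mem_nhds h1 hmin
      have h2 : ∀ x ∈ Ioc l g, c x = c g := by
        intro x hx
        refine le_antisymm (hmono hx.2) ?_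
        refine hc3 g (c x) (hc1 x) ?_
        by_contra hcon
        exact hs ⟨lt_of_lt_of_le hx.1 (hc2 x), (not_le.1 hcon).le⟩ (hc1 x)
      refine tendsto_const_nhds.congr' ?_
      filter_upwards [hI, Ioi_mem_nhds hl] with x hx1 hx2
      exact (h2 x ⟨hx2, hx1⟩).symm
    · push Not at hmin
      refine tendsto_const_nhds.congr' ?_
      filter_upwards [hI] with x hx
      rw [le_antisymm hx (hmin x)]

theorem STP_main {Ω H A : Type} [LinearOrder Ω] [OrderTop Ω] [TopologicalSpace Ω] [OrderTopology Ω]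
    [WellFoundedLT Ω] [CompactSpace Ω] [TopologicalSpace H] [CompactSpace H] [T2Space H] [Finite A]
    (h1 : ∀ b : Ω, b < ⊤ → #(Iic b) < #Ω)
    (h2 : ∀ S : Set Ω, (∀ s ∈ S, s < ⊤) → #S < #Ω → ∃ b < ⊤, ∀ s ∈ S, s ≤ b) (h3 : ℵ₀ < #Ω) (hH : #H < #Ω)
    (K : Set ((A → Ω) × H)) (hK : IsClosed K)
    (g1 : ∀ b < ⊤, ∀ G ⊆ K, IsClosed G → (∀ x ∈ G, ∀ i, x.1 i ≤ b) → GdS G)
    (g2 : ∀ i, ∀ G ⊆ K, IsClosed G → (∀ x ∈ G, x.1 i = ⊤) → GdS G) : GdS K := by
  classical
  obtain ⟨C, hC, hCT, hCu, hCO, hCU⟩ := CLB_main h1 h2 h3 hH K hK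
  have hne : ∃ a : Ω, a < ⊤ := by
    by_contra hcon
    push Not at hcon
    have h4 : Subsingleton Ω := ⟨fun a b => (top_le_iff.1 (hcon a)).trans (top_le_iff.1 (hcon b)).symm⟩
    exact absurd (Cardinal.le_one_iff_subsingleton.2 h4) (not_le.2 (Cardinal.one_lt_aleph0.trans h3))
  let K0 : Set ((A → Ω) × H) := {z | z ∈ K ∧ ∀ i, z.1 i < ⊤}
  let K1 : Set ((A → Ω) × H) := closure K0
  have hK1 : K1 ⊆ K := closure_minimal (fun z hz => hz.1) hK
  have hK1c : IsClosed K1 := isClosed_closure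
  have hpr : ∀ i, Continuous (fun x : (A → Ω) × H => x.1 i) := fun i => (continuous_apply i).comp continuous_fst
  -- truncation
  have hmin : ∀ b ∈ C, ∀ x ∈ K1, ((fun i => min (x.1 i) b, x.2) : (A → Ω) × H) ∈ K1 := by
    intro b hb x hx
    have hcont : Continuous (fun x : (A → Ω) × H => ((fun i => min (x.1 i) b, x.2) : (A → Ω) × H)) :=
      (continuous_pi fun i => (hpr i).min continuous_const).prodMk continuous_snd
    refine map_mem_closure (f := fun x : (A → Ω) × H => ((fun i => min (x.1 i) b, x.2) : (A → Ω) × H)) hcont hx ?_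
    intro z hz
    rcases eq_or_lt_of_le (le_top : b ≤ ⊤) with h | h
    · have h4 : ((fun i => min (z.1 i) b, z.2) : (A → Ω) × H) = z := by
        refine Prod.ext ?_ rfl
        funext i
        rw [h]
        exact min_eq_left le_top
      change ((fun i => min (z.1 i) b, z.2) : (A → Ω) × H) ∈ K0
      rw [h4]
      exact hz
    · exact ⟨hCO b hb h z hz.1 hz.2, fun i => lt_of_le_of_lt (min_le_right _ _) h⟩
  obtain ⟨c, hcc, hcC, hcf⟩ := STP_retr C hC hCT
  -- the pieces
  have hpiece : ∀ i, GdS {x | x ∈ K1 ∧ ∀ j, x.1 j ≤ x.1 i} := by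
    intro i
    let M : Set ((A → Ω) × H) := {x | x ∈ K1 ∧ ∀ j, x.1 j ≤ x.1 i}
    have hM : IsClosed M := by
      have h4 : M = K1 ∩ ⋂ j, {x : (A → Ω) × H | x.1 j ≤ x.1 i} := by
        ext x
        simp [M]
      rw [h4]
      exact hK1c.inter (isClosed_iInter fun j => isClosed_le (hpr j) (hpr i))
    change GdS M
    obtain ⟨a0, -, ha0⟩ := WellFounded.has_min (wellFounded_lt (α := Ω)) Set.univ ⟨⊤, trivial⟩
    have ha0' : ∀ a, a0 ≤ a := fun a => not_lt.1 (ha0 a trivial)
    have ha0t : a0 < ⊤ := by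
      obtain ⟨a, ha⟩ := hne
      exact lt_of_le_of_lt (ha0' a) ha
    refine GAP_main (fun x : (A → Ω) × H => x.1 i) (hpr i) (C ∪ {a0}) (hC.union isClosed_singleton) M hM ?_ ?_ ?_
    · intro x _
      exact ⟨a0, Or.inr rfl, ⊤, Or.inl hCT, ha0' _, le_top⟩
    · rw [preimage_union, inter_union_distrib_left]
      refine CSL_union (hM.inter (hC.preimage (hpr i))) (hM.inter (isClosed_singleton.preimage (hpr i))) ?_ ?_
      · -- the image of `Ω × ∂`
        let E : Set ((A → Ω) × H) := {x | x ∈ K1 ∧ x.1 i = ⊤}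
        have hE : IsClosed E := hK1c.inter (isClosed_singleton.preimage (hpr i))
        have hEc : CompactSpace E := isCompact_iff_compactSpace.1 hE.isCompact
        have hEg : GoodK E := g2 i E (fun x hx => hK1 hx.1) hE (fun x hx => hx.2) hEc
        have hP : GoodK (Ω × E) := thm_PD.2.1 Ω E (STP_good Ω) hEg
        intro hcs
        let ψ : C(Ω × E, (M ∩ (fun x : (A → Ω) × H => x.1 i) ⁻¹' C : Set ((A → Ω) × H))) :=
          ⟨fun p => ⟨((fun j => min (p.2.1.1 j) (c p.1), p.2.1.2) : (A → Ω) × H), by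
            refine ⟨⟨hmin (c p.1) (hcC p.1) p.2.1 p.2.2.1, ?_⟩, ?_⟩
            · intro j
              change min (p.2.1.1 j) (c p.1) ≤ min (p.2.1.1 i) (c p.1)
              rw [p.2.2.2]
              exact (min_le_right _ _).trans (le_of_eq (min_eq_right le_top).symm)
            · change min (p.2.1.1 i) (c p.1) ∈ C
              rw [p.2.2.2, min_eq_right le_top]
              exact hcC p.1⟩, by
            refine Continuous.subtype_mk ?_ _
            refine Continuous.prodMk ?_ (continuous_snd.comp (continuous_subtype_val.comp continuous_snd))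
            refine continuous_pi fun j => Continuous.min ?_ (hcc.comp continuous_fst)
            exact (hpr j).comp (continuous_subtype_val.comp continuous_snd)⟩
        refine thm_PD.2.2.1 _ _ ψ ?_ hP
        rintro ⟨x, ⟨hx1, hx2⟩, hx3⟩
        have hx3' : x.1 i ∈ C := hx3
        rcases eq_or_lt_of_le (le_top : x.1 i ≤ ⊤) with h | h
        · refine ⟨(⊤, ⟨x, hx1, h⟩), ?_⟩
          refine Subtype.ext (Prod.ext ?_ rfl)
          funext j
          change min (x.1 j) (c ⊤) = x.1 j
          rw [hcf ⊤ hCT]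
          exact min_eq_left le_top
        · let x' : A → Ω := fun j => if x.1 j = x.1 i then ⊤ else x.1 j
          have hxt : ∀ j, x.1 j < ⊤ := fun j => lt_of_le_of_lt (hx2 j) h
          have h5 : ((x', x.2) : (A → Ω) × H) ∈ K1 := by
            refine hCU (x.1 i) hx3' h x (hK1 hx1) hxt hx2 x' ?_ ?_
            · intro j hj
              simp only [x', if_pos hj]
            · intro j hj
              simp only [x', if_neg hj]
          have h6 : x' i = ⊤ := by
            simp only [x', if_pos]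
          refine ⟨(x.1 i, ⟨(x', x.2), h5, h6⟩), ?_⟩
          refine Subtype.ext (Prod.ext ?_ rfl)
          funext j
          change min (x' j) (c (x.1 i)) = x.1 j
          rw [hcf _ hx3']
          by_cases hj : x.1 j = x.1 i
          · simp only [x', if_pos hj]
            rw [min_eq_right le_top, hj]
          · simp only [x', if_neg hj]
            exact min_eq_left (hx2 j)
      · refine g1 a0 ha0t _ (fun x hx => hK1 hx.1.1) (hM.inter (isClosed_singleton.preimage (hpr i))) ?_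
        intro x hx j
        have h5 : x.1 i = a0 := hx.2
        exact (hx.1.2 j).trans h5.le
    · intro s hs t ht hst hno hex
      have c1 : IsClosed (M ∩ (fun x : (A → Ω) × H => x.1 i) ⁻¹' Icc s t) :=
        hM.inter (isClosed_Icc.preimage (hpr i))
      rcases eq_or_lt_of_le (le_top : t ≤ ⊤) with h | h
      · subst h
        obtain ⟨b, hb, h5, h6⟩ := hCu s hst
        exact absurd ⟨h5, h6⟩ (hno b (Or.inl hb))
      · exact g1 t h _ (fun x hx => hK1 hx.1.1) c1 (fun x hx j => (hx.1.2 j).trans hx.2.2)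
  rcases isEmpty_or_nonempty A with hA | hA
  · obtain ⟨a, ha⟩ := hne
    exact g1 a ha K subset_rfl hK (fun x _ i => hA.elim i)
  · have hK1g : GdS K1 := by
      have h4 : K1 = ⋃ i, {x | x ∈ K1 ∧ ∀ j, x.1 j ≤ x.1 i} := by
        ext x
        simp only [mem_iUnion, mem_ofPred_eq]
        constructor
        · intro hx
          obtain ⟨i, hi⟩ := Finite.exists_max x.1
          exact ⟨i, hx, hi⟩
        · rintro ⟨i, hx, -⟩
          exact hx
      rw [h4]
      refine CSL_iUnion _ (fun i => ?_) hpiece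
      have h5 : {x | x ∈ K1 ∧ ∀ j, x.1 j ≤ x.1 i} = K1 ∩ ⋂ j, {x : (A → Ω) × H | x.1 j ≤ x.1 i} := by
        ext x
        simp
      rw [h5]
      exact hK1c.inter (isClosed_iInter fun j => isClosed_le (hpr j) (hpr i))
    have h5 : K = K1 ∪ ⋃ i, (K ∩ {x | x.1 i = ⊤}) := by
      ext x
      constructor
      · intro hx
        by_cases h : ∀ i, x.1 i < ⊤
        · exact Or.inl (subset_closure ⟨hx, h⟩)
        · push Not at h
          obtain ⟨i, hi⟩ := h
          exact Or.inr (mem_iUnion.2 ⟨i, hx, top_le_iff.1 hi⟩)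
      · rintro (hx | hx)
        · exact hK1 hx
        · obtain ⟨i, hi⟩ := mem_iUnion.1 hx
          exact hi.1
    have h6 : ∀ i, IsClosed (K ∩ {x | x.1 i = ⊤}) := fun i => hK.inter (isClosed_singleton.preimage (hpr i))
    rw [h5]
    refine CSL_union hK1c (isClosed_iUnion_of_finite h6) hK1g (CSL_iUnion _ h6 (fun i => ?_))
    exact g2 i _ inter_subset_left (h6 i) (fun x hx => hx.2)

end HCL
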