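import Pool.Agent.HCL.LOI
import Pool.Agent.HCL.STP

/-!
# HCL, module TUP: closed subspaces of finite powers of scattered ordered spaces (helper42)
-/

set_option autoImplicit false

namespace HCL

open Set Topology SDN Cardinal Filter

theorem TUP_cont {Ω L : Type} [LinearOrder Ω] [TopologicalSpace Ω] [OrderTopology Ω] [LinearOrder L]
    [TopologicalSpace L] [OrderTopology L] [CompactSpace L] (e : Ω → L) (he : StrictMono e ∨ StrictAnti e)
    (hc : IsClosed (range e)) : Continuous e ∧ CompactSpace Ω := by
  have hinj : Function.Injective e := by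
    rcases he with h | h
    · exact h.injective
    · exact h.injective
  let E : Ω ≃ range e := Equiv.ofInjective e hinj
  have hE : ∀ x : range e, e (E.symm x) = x.1 := fun x => congrArg Subtype.val (E.apply_symm_apply x)
  have hcomp : CompactSpace (range e) := isCompact_iff_compactSpace.1 hc.isCompact
  have h1 : Continuous E.symm := by
    rw [OrderTopology.continuous_iff]
    intro a
    rcases he with h | h
    · constructor
      · have h2 : E.symm ⁻¹' Ioi a = Subtype.val ⁻¹' Ioi (e a) := by
          ext x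
          change a < E.symm x ↔ e a < x.1
          rw [← hE x, h.lt_iff_lt]
        rw [h2]
        exact isOpen_Ioi.preimage continuous_subtype_val
      · have h2 : E.symm ⁻¹' Iio a = Subtype.val ⁻¹' Iio (e a) := by
          ext x
          change E.symm x < a ↔ x.1 < e a
          rw [← hE x, h.lt_iff_lt]
        rw [h2]
        exact isOpen_Iio.preimage continuous_subtype_val
    · constructor
      · have h2 : E.symm ⁻¹' Ioi a = Subtype.val ⁻¹' Iio (e a) := by
          ext x
          change a < E.symm x ↔ x.1 < e a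
          rw [← hE x, h.lt_iff_gt]
        rw [h2]
        exact isOpen_Iio.preimage continuous_subtype_val
      · have h2 : E.symm ⁻¹' Iio a = Subtype.val ⁻¹' Ioi (e a) := by
          ext x
          change E.symm x < a ↔ e a < x.1
          rw [← hE x, h.lt_iff_gt]
        rw [h2]
        exact isOpen_Ioi.preimage continuous_subtype_val
  let ho : range e ≃ₜ Ω := h1.homeoOfEquivCompactToT2
  refine ⟨continuous_subtype_val.comp ho.symm.continuous, ho.compactSpace⟩

theorem TUP_top (κ : Cardinal.{0}) (hκ : κ.IsRegular) (h : ℵ₀ < κ) :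
    #(WithTop κ.ord.ToType) = κ ∧ (∀ b : WithTop κ.ord.ToType, b < ⊤ → #(Iic b) < κ) ∧
      (∀ S : Set (WithTop κ.ord.ToType), (∀ s ∈ S, s < ⊤) → #S < κ → ∃ b < ⊤, ∀ s ∈ S, s ≤ b) := by
  have h0 : #(κ.ord.ToType) = κ := by
    rw [Cardinal.mk_toType, Cardinal.card_ord]
  refine ⟨?_, ?_, ?_⟩
  · have h1 : #(WithTop κ.ord.ToType) = #(κ.ord.ToType) + 1 := Cardinal.mk_option
    rw [h1, h0]
    exact Cardinal.add_one_eq h.le
  · intro b hb
    induction b using WithTop.recTopCoe with
    | top => exact absurd hb (lt_irrefl _)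
    | coe a =>
      have h1 : Iic (a : WithTop κ.ord.ToType) ⊆ (fun x : κ.ord.ToType => (x : WithTop κ.ord.ToType)) '' (Iio a ∪ {a}) := by
        intro x hx
        induction x using WithTop.recTopCoe with
        | top => exact absurd (top_le_iff.1 hx) hb.ne
        | coe y =>
          refine ⟨y, ?_, rfl⟩
          rcases (WithTop.coe_le_coe.1 hx).lt_or_eq with h2 | h2
          · exact Or.inl h2
          · exact Or.inr h2
      refine (Cardinal.mk_le_mk_of_subset h1).trans_lt (Cardinal.mk_image_le.trans_lt ?_)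
      refine (Cardinal.mk_union_le _ _).trans_lt (Cardinal.add_lt_of_lt h.le ?_ ?_)
      · exact Cardinal.mk_Iio_toType_ord_lt a
      · rw [Cardinal.mk_singleton]
        exact Cardinal.one_lt_aleph0.trans h
  · intro S hS hSc
    let S' : Set κ.ord.ToType := {a | (a : WithTop κ.ord.ToType) ∈ S}
    have h1 : #S' ≤ #S := by
      refine Cardinal.mk_le_of_injective (f := fun a : S' => (⟨(a.1 : WithTop κ.ord.ToType), a.2⟩ : S)) ?_
      intro a b hab
      have h2 := congrArg (fun z : S => z.1) hab
      exact Subtype.ext (WithTop.coe_injective h2)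
    have h2 : ¬ IsCofinal S' := by
      intro hcof
      have h3 := Order.cof_le hcof
      rw [Ordinal.cof_toType, hκ.cof_ord] at h3
      exact absurd (h3.trans h1) (not_le.2 hSc)
    have h3 : ∃ a, ∀ s ∈ S', ¬ a ≤ s := by
      by_contra hcon
      push Not at hcon
      exact h2 hcon
    obtain ⟨a, ha⟩ := h3
    refine ⟨(a : WithTop κ.ord.ToType), WithTop.coe_lt_top a, ?_⟩
    intro s hs
    induction s using WithTop.recTopCoe with
    | top => exact absurd (hS _ hs) (lt_irrefl _)
    | coe y => exact WithTop.coe_le_coe.2 (not_le.1 (ha y hs)).le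

/-- closed sets with coordinates in given sets -/
def TUP_P {ι : Type} {L : ι → Type} [∀ i, TopologicalSpace (L i)] (S : ∀ i, Set (L i)) : Prop :=
  ∀ G : Set (∀ i, L i), IsClosed G → (∀ x ∈ G, ∀ i, x i ∈ S i) → GdS G

theorem TUP_core {ι : Type} [Finite ι] {L : ι → Type} [∀ i, LinearOrder (L i)] [∀ i, TopologicalSpace (L i)]
    [∀ i, OrderTopology (L i)] [∀ i, CompactSpace (L i)]
    (IH : ∀ i : ι, ∀ G : Set (∀ j : {j : ι // j ≠ i}, L j.1), IsClosed G → GdS G) (κ : Cardinal.{0})
    (hQ : ∀ S : ∀ i, Set (L i), (∀ i, IsClosed (S i)) → (∀ i, #(S i) < κ) → TUP_P S) (R : ∀ i, Set (L i))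
    (hRc : ∀ i, IsClosed (R i)) (hRκ : ∀ i, #(R i) ≤ κ) (hRr : ∀ i, Reg (R i)) : TUP_P R := by
  classical
  rcases le_or_gt κ ℵ₀ with hκ0 | hκ0
  · intro G hG hGR
    refine CSL_count G ?_
    have h1 : (Set.univ.pi R).Countable :=
      Set.countable_univ_pi (fun i => Cardinal.mk_le_aleph0_iff.1 ((hRκ i).trans hκ0))
    exact h1.mono (fun x hx => mem_univ_pi.2 (hGR x hx))
  let A : Type := {i : ι // #(R i) = κ}
  let B : Type := {i : ι // #(R i) ≠ κ}
  rcases isEmpty_or_nonempty A with hA | hA
  · refine hQ R hRc (fun i => lt_of_le_of_ne (hRκ i) (fun h => hA.false ⟨i, h⟩))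
  have hex : ∀ a : A, κ.IsRegular ∧ ∃ e : WithTop κ.ord.ToType → L a.1,
      (StrictMono e ∨ StrictAnti e) ∧ range e = R a.1 := by
    rintro ⟨i, hi⟩
    rcases hRr i with h | ⟨κ', h1, h2, e, h3, h4⟩
    · have h5 : #(R i) ≤ ℵ₀ := Cardinal.mk_le_aleph0_iff.2 h
      rw [hi] at h5
      exact absurd h5 (not_le.2 hκ0)
    · have hinj : Function.Injective e := by
        rcases h3 with h3 | h3
        · exact h3.injective
        · exact h3.injective
      have h5 : #(R i) = κ' := by
        rw [← h4, Cardinal.mk_range_eq e hinj]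
        exact (TUP_top κ' h1 h2).1
      have h6 : κ' = κ := h5.symm.trans hi
      subst h6
      exact ⟨h1, e, h3, h4⟩
  obtain ⟨a0⟩ := hA
  have hreg : κ.IsRegular := (hex a0).1
  choose hreg' e he1 he2 using hex
  let Ω : Type := WithTop κ.ord.ToType
  let _ : TopologicalSpace Ω := Preorder.topology Ω
  have hOT : OrderTopology Ω := ⟨rfl⟩
  have hcont : ∀ a : A, Continuous (e a : Ω → L a.1) := fun a =>
    (TUP_cont (Ω := Ω) (e a) (he1 a) ((he2 a).symm ▸ hRc a.1)).1
  have hcomp : CompactSpace Ω := (TUP_cont (Ω := Ω) (e a0) (he1 a0) ((he2 a0).symm ▸ hRc a0.1)).2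
  have hinj : ∀ a : A, Function.Injective (e a) := by
    intro a
    rcases he1 a with h | h
    · exact h.injective
    · exact h.injective
  obtain ⟨t1, t2, t3⟩ := TUP_top κ hreg hκ0
  let H : Set (∀ j : B, L j.1) := {h | ∀ j, h j ∈ R j.1}
  have hHc : IsClosed H := by
    have h1 : H = ⋂ j, {h : ∀ j : B, L j.1 | h j ∈ R j.1} := by
      ext h
      simp [H]
    rw [h1]
    exact isClosed_iInter fun j => (hRc j.1).preimage (continuous_apply j)
  have hHcomp : CompactSpace H := isCompact_iff_compactSpace.1 hHc.isCompact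
  have hHκ : #H < κ := by
    have h1 : #(Σ j : B, R j.1) < κ := by
      rw [Cardinal.mk_sigma]
      refine Cardinal.sum_lt_of_isRegular hreg ((Cardinal.lt_aleph0_of_finite B).trans hκ0) ?_
      exact fun j => lt_of_le_of_ne (hRκ j.1) j.2
    refine lt_of_le_of_lt ?_ (CLB_card (A := B) hκ0.le h1)
    refine Cardinal.mk_le_of_injective (f := fun (h : H) (j : B) => (⟨j, ⟨h.1 j, h.2 j⟩⟩ : Σ j : B, R j.1)) ?_
    intro h h' hhh
    apply Subtype.ext
    funext j
    have h2 := congrFun hhh j
    simp only [Sigma.mk.injEq, heq_eq_eq, true_and, Subtype.mk.injEq] at h2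
    exact h2
  let Φ : (A → Ω) × H → (∀ i, L i) := fun p i =>
    if h : #(R i) = κ then e ⟨i, h⟩ (p.1 ⟨i, h⟩) else p.2.1 ⟨i, h⟩
  have hΦ1 : ∀ p (a : A), Φ p a.1 = e a (p.1 a) := by
    intro p a
    simp only [Φ, dif_pos a.2]
    rfl
  have hΦ2 : ∀ p (j : B), Φ p j.1 = p.2.1 j := by
    intro p j
    simp only [Φ, dif_neg j.2]
    rfl
  have hΦc : Continuous Φ := by
    refine continuous_pi fun i => ?_
    by_cases h : #(R i) = κ
    · have h1 : (fun p => Φ p i) = fun p => e ⟨i, h⟩ (p.1 ⟨i, h⟩) := by
        funext p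
        exact hΦ1 p ⟨i, h⟩
      rw [h1]
      exact (hcont ⟨i, h⟩).comp ((continuous_apply _).comp continuous_fst)
    · have h1 : (fun p => Φ p i) = fun p => p.2.1 ⟨i, h⟩ := by
        funext p
        exact hΦ2 p ⟨i, h⟩
      rw [h1]
      exact (continuous_apply (⟨i, h⟩ : B)).comp (continuous_subtype_val.comp continuous_snd)
  have hΦi : Function.Injective Φ := by
    intro p q hpq
    refine Prod.ext ?_ (Subtype.ext ?_)
    · funext a
      have h1 := congrFun hpq a.1
      rw [hΦ1, hΦ1] at h1
      exact hinj a h1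
    · funext j
      have h1 := congrFun hpq j.1
      rwa [hΦ2, hΦ2] at h1
  intro G hG hGR
  let K : Set ((A → Ω) × H) := Φ ⁻¹' G
  have hK : IsClosed K := hG.preimage hΦc
  have himg : Φ '' K = G := by
    refine subset_antisymm (image_preimage_subset _ _) ?_
    intro x hx
    have h1 : ∀ a : A, ∃ z, e a z = x a.1 := by
      intro a
      have h2 := hGR x hx a.1
      rw [← he2 a] at h2
      exact h2
    choose z hz using h1
    have h3 : Φ (z, ⟨fun j => x j.1, fun j => hGR x hx j.1⟩) = x := by
      funext i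
      by_cases h : #(R i) = κ
      · exact (hΦ1 _ ⟨i, h⟩).trans (hz ⟨i, h⟩)
      · exact hΦ2 _ ⟨i, h⟩
    refine ⟨_, ?_, h3⟩
    change Φ _ ∈ G
    rw [h3]
    exact hx
  refine CSL_image Φ hΦc.continuousOn hK.isCompact himg ?_
  refine STP_main (Ω := Ω) (H := H) (A := A) ?_ ?_ ?_ ?_ K hK ?_ ?_
  · intro b hb
    rw [t1]
    exact t2 b hb
  · intro S hS hSc
    rw [t1] at hSc
    exact t3 S hS hSc
  · rw [t1]
    exact hκ0
  · rw [t1]
    exact hHκ
  · intro b hb G' hG'K hG' hG'b
    refine CSL_inj Φ hΦc.continuousOn hG'.isCompact hΦi.injOn ?_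
    let S : ∀ i, Set (L i) := fun i => if h : #(R i) = κ then e ⟨i, h⟩ '' Iic b else R i
    have hS1 : ∀ (i : ι) (h : #(R i) = κ), S i = e ⟨i, h⟩ '' Iic b := by
      intro i h
      simp only [S, dif_pos h]
    have hS2 : ∀ (i : ι) (h : ¬ #(R i) = κ), S i = R i := by
      intro i h
      simp only [S, dif_neg h]
    refine hQ S ?_ ?_ (Φ '' G') (hG'.isCompact.image hΦc).isClosed ?_
    · intro i
      by_cases h : #(R i) = κ
      · rw [hS1 i h]
        exact ((isClosed_Iic (a := (b : Ω))).isCompact.image (hcont ⟨i, h⟩)).isClosed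
      · rw [hS2 i h]
        exact hRc i
    · intro i
      by_cases h : #(R i) = κ
      · rw [hS1 i h]
        exact Cardinal.mk_image_le.trans_lt (t2 b hb)
      · rw [hS2 i h]
        exact lt_of_le_of_ne (hRκ i) h
    · rintro _ ⟨p, hp, rfl⟩ i
      by_cases h : #(R i) = κ
      · rw [hS1 i h]
        exact ⟨p.1 ⟨i, h⟩, hG'b p hp ⟨i, h⟩, (hΦ1 p ⟨i, h⟩).symm⟩
      · rw [hS2 i h]
        exact hGR _ (hG'K hp) i
  · intro a G' hG'K hG' hG'a
    let ρ : (∀ i, L i) → (∀ j : {j : ι // j ≠ a.1}, L j.1) := fun x j => x j.1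
    have hρ : Continuous ρ := continuous_pi fun j => continuous_apply j.1
    refine CSL_inj (ρ ∘ Φ) (hρ.comp hΦc).continuousOn hG'.isCompact ?_ ?_
    · intro p hp q hq hpq
      apply hΦi
      funext i
      by_cases h : i = a.1
      · subst h
        rw [hΦ1, hΦ1, hG'a p hp, hG'a q hq]
      · exact congrFun hpq ⟨i, h⟩
    · exact IH a.1 _ (hG'.isCompact.image (hρ.comp hΦc)).isClosed

theorem TUP_le {ι : Type} [Finite ι] {L : ι → Type} [∀ i, LinearOrder (L i)] [∀ i, TopologicalSpace (L i)]
    [∀ i, OrderTopology (L i)] [∀ i, CompactSpace (L i)] (hL : ∀ i, Scat (L i))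
    (IH : ∀ i : ι, ∀ G : Set (∀ j : {j : ι // j ≠ i}, L j.1), IsClosed G → GdS G) (κ : Cardinal.{0})
    (hQ : ∀ S : ∀ i, Set (L i), (∀ i, IsClosed (S i)) → (∀ i, #(S i) < κ) → TUP_P S) (S : ∀ i, Set (L i))
    (hSc : ∀ i, IsClosed (S i)) (hSκ : ∀ i, #(S i) ≤ κ) : TUP_P S := by
  classical
  have := Fintype.ofFinite ι
  have key : ∀ (s : Finset ι) (S : ∀ i, Set (L i)), (∀ i, IsClosed (S i)) → (∀ i, #(S i) ≤ κ) →
      (∀ i, i ∉ s → Reg (S i)) → TUP_P S := by
    intro s
    induction s using Finset.induction_on with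
    | empty =>
      intro S h1 h2 h3
      exact TUP_core IH κ hQ S h1 h2 (fun i => h3 i (Finset.notMem_empty i))
    | insert j s hj ih =>
      intro S h1 h2 h3 G hG hGS
      have hGc : CompactSpace G := isCompact_iff_compactSpace.1 hG.isCompact
      have hu : Continuous (fun x : G => x.1 j) := (continuous_apply j).comp continuous_subtype_val
      have h4 : PG (fun x : G => x.1 j) (S j) := by
        refine LOI_main (hL j) (fun x : G => x.1 j) hu (S j) (h1 j) ?_
        intro R hRS hRc hRr G' hG' hG'R
        refine CSL_inj (Subtype.val : G → (∀ i, L i)) continuous_subtype_val.continuousOn hG'.isCompact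
          Subtype.val_injective.injOn ?_
        refine ih (Function.update S j R) ?_ ?_ ?_ (Subtype.val '' G')
          (hG'.isCompact.image continuous_subtype_val).isClosed ?_
        · intro i
          by_cases h : i = j
          · subst h
            rwa [Function.update_self]
          · rw [Function.update_of_ne h]
            exact h1 i
        · intro i
          by_cases h : i = j
          · subst h
            rw [Function.update_self]
            exact (Cardinal.mk_le_mk_of_subset hRS).trans (h2 i)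
          · rw [Function.update_of_ne h]
            exact h2 i
        · intro i hi
          by_cases h : i = j
          · subst h
            rwa [Function.update_self]
          · rw [Function.update_of_ne h]
            exact h3 i (fun h5 => (Finset.mem_insert.1 h5).elim h hi)
        · rintro _ ⟨x, hx, rfl⟩ i
          by_cases h : i = j
          · subst h
            rw [Function.update_self]
            exact hG'R x hx
          · rw [Function.update_of_ne h]
            exact hGS x.1 x.2 i
      have h5 := h4 Set.univ isClosed_univ (fun x _ => hGS x.1 x.2 j)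
      exact CSL_image (Subtype.val : G → (∀ i, L i)) continuous_subtype_val.continuousOn isCompact_univ
        (by rw [image_univ, Subtype.range_coe]) h5
  exact key Finset.univ S hSc hSκ (fun i hi => absurd (Finset.mem_univ i) hi)

/-- closed subspaces of finite products of scattered compact linearly ordered spaces -/
theorem TUP_main {ι : Type} [Finite ι] {L : ι → Type} [∀ i, LinearOrder (L i)] [∀ i, TopologicalSpace (L i)]
    [∀ i, OrderTopology (L i)] [∀ i, CompactSpace (L i)] (hL : ∀ i, Scat (L i)) (G : Set (∀ i, L i))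
    (hG : IsClosed G) : GdS G := by
  classical
  have key : ∀ n : ℕ, ∀ (ι : Type) [Finite ι] (L : ι → Type) [∀ i, LinearOrder (L i)]
      [∀ i, TopologicalSpace (L i)] [∀ i, OrderTopology (L i)] [∀ i, CompactSpace (L i)],
      (∀ i, Scat (L i)) → Nat.card ι = n → ∀ G : Set (∀ i, L i), IsClosed G → GdS G := by
    intro n
    induction n with
    | zero =>
      intro ι _ L _ _ _ _ hL hn G hG
      have h1 : IsEmpty ι := by
        rcases isEmpty_or_nonempty ι with h | h
        · exact h
        · exact absurd hn (Nat.card_pos).ne'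
      exact CSL_sub G (fun x _ y _ => funext fun i => h1.elim i)
    | succ n ih =>
      intro ι _ L _ _ _ _ hL hn G hG
      have hne : Nonempty ι := by
        by_contra hcon
        rw [not_nonempty_iff] at hcon
        rw [Nat.card_of_isEmpty] at hn
        exact absurd hn (Nat.succ_ne_zero n).symm
      have IH : ∀ i : ι, ∀ G : Set (∀ j : {j : ι // j ≠ i}, L j.1), IsClosed G → GdS G := by
        intro i G hG
        refine ih {j : ι // j ≠ i} (fun j => L j.1) (fun j => hL j.1) ?_ G hG
        have := Fintype.ofFinite ι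
        rw [Nat.card_eq_fintype_card, Fintype.card_subtype_compl, Fintype.card_subtype_eq,
          ← Nat.card_eq_fintype_card, hn, Nat.add_sub_cancel]
      have hQ : ∀ θ : Cardinal.{0}, ∀ S : ∀ i, Set (L i), (∀ i, IsClosed (S i)) → (∀ i, #(S i) < θ) →
          TUP_P S := by
        intro θ
        induction θ using WellFoundedLT.induction with
        | ind θ ihθ =>
          intro S h1 h2
          obtain ⟨i0, hi0⟩ := Finite.exists_max (fun i => #(S i))
          exact TUP_le hL IH (#(S i0)) (ihθ _ (h2 i0)) S h1 hi0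
      exact hQ (Order.succ (#(Σ i, L i))) (fun _ => Set.univ) (fun _ => isClosed_univ)
        (fun i => by
          rw [Cardinal.mk_univ]
          refine Order.lt_succ_iff.2 (Cardinal.mk_le_of_injective (f := fun x : L i => (⟨i, x⟩ : Σ i, L i)) ?_)
          exact sigma_mk_injective) G hG (fun _ _ _ => trivial)
  exact key _ ι L hL rfl G hG

end HCL
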